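import Pool.Agent.U571.BS.Sa

set_option autoImplicit false
set_option linter.unusedSectionVars false

namespace Pool.Agent.U571.BS

open MeasureTheory Complex Set
open scoped Real ENNReal RealInnerProductSpace ComplexConjugate

variable {V : Type*} [NormedAddCommGroup V] [InnerProductSpace ℝ V] [FiniteDimensional ℝ V]
  [MeasurableSpace V] [BorelSpace V]

lemma sq_le_of_forall {X N Q : ℝ} (hX : 0 ≤ X) (hN : 0 ≤ N) (hQ : 0 ≤ Q)
    (h : ∀ t : ℝ, 0 < t → 2 * X ≤ t * N + Q / t) : X ^ 2 ≤ N * Q := by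
  rcases hX.eq_or_lt with h0 | h0
  · rw [← h0, zero_pow two_ne_zero]; positivity
  rcases hN.eq_or_lt with h1 | h1
  · exfalso
    have h2 := h ((Q + 1) / X) (by positivity)
    rw [← h1, mul_zero, zero_add, div_div_eq_mul_div] at h2
    rw [le_div_iff₀ (by positivity)] at h2
    nlinarith
  · have h2 := h (X / N) (by positivity)
    rw [div_mul_cancel₀ _ h1.ne', div_div_eq_mul_div] at h2
    have h3 : X ≤ Q * N / X := by linarith
    rw [le_div_iff₀ h0] at h3
    nlinarith

section

variable (f : V → ℂ) (a : ℝ → ℝ) (c : ℝ → V)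

/-- joint measurability of `P` -/
lemma Pf_meas {f : V → ℂ} {a : ℝ → ℝ} {c : ℝ → V} (hf : Integrable f) (ha : Measurable a)
    (hc : Measurable c) :
    StronglyMeasurable (fun w : ℝ × V => Pf f (a w.1) (c w.1) w.1 w.2) := by
  unfold Pf
  refine StronglyMeasurable.integral_prod_right (f := fun (w : ℝ × V) (ξ : V) =>
    (wt (a w.1) (c w.1) ξ : ℂ) * Fx f w.1 ξ * conj (ph w.1 w.2 ξ)) ?_
  refine Measurable.stronglyMeasurable ?_
  unfold Function.uncurry
  have h1 : Measurable (fun w : (ℝ × V) × V => wt (a w.1.1) (c w.1.1) w.2) := by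
    unfold wt
    have hc' : Measurable (fun w : (ℝ × V) × V => c w.1.1) :=
      hc.comp (measurable_fst.comp measurable_fst)
    have ha' : Measurable (fun w : (ℝ × V) × V => a w.1.1) :=
      ha.comp (measurable_fst.comp measurable_fst)
    exact (((ha'.const_mul 4).const_div 1).neg.mul
      ((measurable_snd.sub hc').norm.pow_const 2)).exp
  have h2 : Measurable (fun w : (ℝ × V) × V => Fx f w.1.1 w.2) :=
    (Fx_cont hf).measurable.comp
      ((measurable_fst.comp measurable_fst).prodMk measurable_snd)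
  have h3 : Measurable (fun w : (ℝ × V) × V => conj (ph w.1.1 w.1.2 w.2)) := by
    refine Complex.continuous_conj.measurable.comp ?_
    exact cont_ph.measurable.comp ((measurable_fst.comp measurable_fst).prodMk
      ((measurable_snd.comp measurable_fst).prodMk measurable_snd))
  exact ((Complex.measurable_ofReal.comp h1).mul h2).mul h3

lemma El_meas {f : V → ℂ} {a : ℝ → ℝ} {c : ℝ → V} (hf : Integrable f) (ha : Measurable a)
    (hc : Measurable c) : StronglyMeasurable (fun l => El f (a l) (c l) l) := by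
  unfold El
  refine StronglyMeasurable.integral_prod_right (f := fun (l : ℝ) (ξ : V) =>
    wt (a l) (c l) ξ * ‖Fx f l ξ‖ ^ 2) ?_
  refine Measurable.stronglyMeasurable ?_
  unfold Function.uncurry
  have h1 : Measurable (fun w : ℝ × V => wt (a w.1) (c w.1) w.2) := by
    unfold wt
    exact ((((ha.comp measurable_fst).const_mul 4).const_div 1).neg.mul
      ((measurable_snd.sub (hc.comp measurable_fst)).norm.pow_const 2)).exp
  exact h1.mul ((Fx_cont hf).measurable.norm.pow_const 2)

lemma El_le (f : V → ℂ) {a : ℝ} (ha : 0 < a) (c : V) (l : ℝ) :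
    El f a c l ≤ (4 * π * a) ^ (dn V / 2) * (∫ x, ‖f x‖) ^ 2 := by
  unfold El
  rw [← wt_int ha c, ← integral_mul_const]
  refine integral_mono_of_nonneg (Filter.Eventually.of_forall fun ξ =>
    mul_nonneg (wt_pos a c ξ).le (by positivity)) ((wt_integrable ha c).mul_const _)
    (Filter.Eventually.of_forall fun ξ => ?_)
  exact mul_le_mul_of_nonneg_left (pow_le_pow_left₀ (norm_nonneg _) (Fx_bound f l ξ) 2)
    (wt_pos a c ξ).le

end

/-- **The `T T*` inequality.** -/
theorem ttstar {f : V → ℂ} (hf : Integrable f) {a : ℝ → ℝ} {c : ℝ → V} (ha : Measurable a)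
    (hc : Measurable c) (ha0 : ∀ l, 0 < a l) {A : ℝ} {T : Set ℝ} (hT : MeasurableSet T)
    (hT' : volume T ≠ ∞) (hA : ∀ l ∈ T, a l ≤ A) {ε : ℝ} (hε : 0 < ε)
    (hN : Integrable (fun y => ‖f y‖ ^ 2 * Real.exp (ε * ‖y‖ ^ 2))) :
    ENNReal.ofReal ((∫ l in T, El f (a l) (c l) l) ^ 2) ≤
      ENNReal.ofReal (∫ y, ‖f y‖ ^ 2 * Real.exp (ε * ‖y‖ ^ 2)) *
        ∫⁻ l in T, ∫⁻ m in T, ‖Sp f (a l) (c l) l (a m) (c m) m ε‖ₑ := by
  have hd : 0 ≤ dn V / 2 := by have := dn_nonneg (V := V); positivity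
  set ν : Measure ℝ := volume.restrict T with hν
  have : IsFiniteMeasure ν := ⟨by rw [hν, Measure.restrict_apply_univ]; exact hT'.lt_top⟩
  set P : ℝ × V → ℂ := fun w => Pf f (a w.1) (c w.1) w.1 w.2 with hP
  have mP : StronglyMeasurable P := Pf_meas hf ha hc
  set C : ℝ := (4 * π * A) ^ (dn V / 2) * ∫ x, ‖f x‖ with hC
  have hPC : ∀ l ∈ T, ∀ y, ‖P (l, y)‖ ≤ C := by
    intro l hl y
    refine (Pf_bound f (ha0 l) (c l) l y).trans ?_
    refine mul_le_mul_of_nonneg_right ?_ (integral_nonneg fun x => norm_nonneg _)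
    exact Real.rpow_le_rpow (by have := ha0 l; positivity)
      (mul_le_mul_of_nonneg_left (hA l hl) (by positivity)) hd
  have hmem : ∀ᵐ l ∂ν, l ∈ T := ae_restrict_mem hT
  -- the function H
  set H : V → ℂ := fun y => ∫ l, P (l, y) ∂ν with hH
  have mH : StronglyMeasurable H := by
    rw [hH]
    exact StronglyMeasurable.integral_prod_left (f := fun (l : ℝ) (y : V) => P (l, y)) mP
  have hHb : ∀ y, ‖H y‖ ≤ C * ν.real univ := by
    intro y
    refine (norm_integral_le_of_norm_le_const (C := C) ?_)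
    exact hmem.mono fun l hl => hPC l hl y
  -- step 1
  have s1 : ((∫ l, El f (a l) (c l) l ∂ν : ℝ) : ℂ) = ∫ y, H y * conj (f y) := by
    have h9 : ((∫ l, El f (a l) (c l) l ∂ν : ℝ) : ℂ) = ∫ l, ((El f (a l) (c l) l : ℝ) : ℂ) ∂ν :=
      (integral_ofReal (𝕜 := ℂ) (f := fun l => El f (a l) (c l) l) (μ := ν)).symm
    rw [h9]
    have h10 : ∀ l, ((El f (a l) (c l) l : ℝ) : ℂ) = ∫ y, P (l, y) * conj (f y) := fun l =>
      (duality hf (ha0 l) (c l) l).symm
    simp only [h10]
    rw [integral_integral_swap]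
    · refine integral_congr_ae (Filter.Eventually.of_forall fun y => ?_)
      simp only [hH]
      rw [integral_mul_const]
    · have hg : Integrable (fun w : ℝ × V => (1 : ℂ) * conj (f w.2)) (ν.prod volume) :=
        Integrable.mul_prod (f := fun _ : ℝ => (1 : ℂ)) (g := fun y => conj (f y))
          (integrable_const _) (Complex.conjCLE.toContinuousLinearMap.integrable_comp hf)
      have hg2 : Integrable (fun w : ℝ × V => (1 : ℂ) * conj (f w.2) * P w) (ν.prod volume) := by
        refine hg.mul_bdd (c := C) mP.aestronglyMeasurable ?_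
        have : ∀ᵐ w ∂(ν.prod (volume : Measure V)), w.1 ∈ T :=
          (Measure.quasiMeasurePreserving_fst (μ := ν) (ν := (volume : Measure V))).ae hmem
        exact this.mono fun w hw => hPC w.1 hw w.2
      refine hg2.congr (Filter.Eventually.of_forall fun w => ?_)
      simp only [Function.uncurry]
      ring
  -- step 2
  set N : ℝ := ∫ y, ‖f y‖ ^ 2 * Real.exp (ε * ‖y‖ ^ 2) with hNd
  set Q : ℝ := ∫ y, ‖H y‖ ^ 2 * Real.exp (-ε * ‖y‖ ^ 2) with hQd
  have iQ : Integrable (fun y => ‖H y‖ ^ 2 * Real.exp (-ε * ‖y‖ ^ 2)) := by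
    have h : Integrable (fun y : V => Real.exp (-ε * ‖y‖ ^ 2) * ‖H y‖ ^ 2) := by
      refine (gint_integrable hε).mul_bdd (c := (C * ν.real univ) ^ 2)
        (mH.norm.pow 2).aestronglyMeasurable (Filter.Eventually.of_forall fun y => ?_)
      rw [norm_pow, norm_norm]
      exact pow_le_pow_left₀ (norm_nonneg _) (hHb y) 2
    exact h.congr (Filter.Eventually.of_forall fun y => mul_comm _ _)
  have hN0 : 0 ≤ N := integral_nonneg fun y => mul_nonneg (by positivity) (Real.exp_pos _).le
  have hQ0 : 0 ≤ Q := integral_nonneg fun y => mul_nonneg (by positivity) (Real.exp_pos _).le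
  set X : ℝ := ∫ l, El f (a l) (c l) l ∂ν with hXd
  have hX0 : 0 ≤ X := integral_nonneg fun l => El_nonneg _ _ _ _
  have s2 : X ^ 2 ≤ N * Q := by
    refine sq_le_of_forall hX0 hN0 hQ0 fun t ht => ?_
    have h1 : X ≤ ∫ y, ‖H y * conj (f y)‖ := by
      have : X = ‖((X : ℝ) : ℂ)‖ := by rw [Complex.norm_real, Real.norm_eq_abs, abs_of_nonneg hX0]
      rw [this, s1]
      exact norm_integral_le_integral_norm _
    have h2 : 2 * ∫ y, ‖H y * conj (f y)‖ ≤ t * N + Q / t := by
      rw [hNd, hQd, ← integral_const_mul, ← integral_const_mul, ← integral_div,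
        ← integral_add (hN.const_mul t) (iQ.div_const t)]
      refine integral_mono_of_nonneg (Filter.Eventually.of_forall fun y => by positivity)
        ((hN.const_mul t).add (iQ.div_const t)) (Filter.Eventually.of_forall fun y => ?_)
      simp only [norm_mul, RCLike.norm_conj]
      set u := Real.exp (ε * ‖y‖ ^ 2 / 2) with hu
      have hu0 : 0 < u := Real.exp_pos _
      have e1 : Real.exp (ε * ‖y‖ ^ 2) = u ^ 2 := by
        rw [hu, ← Real.exp_nat_mul]
        congr 1
        push_cast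
        ring
      have e2 : Real.exp (-ε * ‖y‖ ^ 2) = (u ^ 2)⁻¹ := by
        rw [← e1, ← Real.exp_neg]
        congr 1
        ring
      rw [e1, e2]
      have h3 := sq_nonneg (t * (‖f y‖ * u) - ‖H y‖ * u⁻¹)
      have h4 : 0 ≤ (t * (‖f y‖ * u) - ‖H y‖ * u⁻¹) ^ 2 / t := by positivity
      have h5 : (t * (‖f y‖ * u) - ‖H y‖ * u⁻¹) ^ 2 / t =
          t * (‖f y‖ ^ 2 * u ^ 2) + ‖H y‖ ^ 2 * (u ^ 2)⁻¹ / t - 2 * (‖H y‖ * ‖f y‖) := by
        field_simp
        ring
      linarith
    linarith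
  -- step 3
  have s3 : ENNReal.ofReal Q ≤ ∫⁻ l, ∫⁻ m, ‖Sp f (a l) (c l) l (a m) (c m) m ε‖ₑ ∂ν ∂ν := by
    have h1 : ((Q : ℝ) : ℂ) = ∫ w : ℝ × ℝ,
        Sp f (a w.1) (c w.1) w.1 (a w.2) (c w.2) w.2 ε ∂(ν.prod ν) := by
      have h9 : ((∫ y, ‖H y‖ ^ 2 * Real.exp (-ε * ‖y‖ ^ 2) : ℝ) : ℂ) =
          ∫ y, ((‖H y‖ ^ 2 * Real.exp (-ε * ‖y‖ ^ 2) : ℝ) : ℂ) :=
        (integral_ofReal (𝕜 := ℂ) (f := fun y => ‖H y‖ ^ 2 * Real.exp (-ε * ‖y‖ ^ 2))
          (μ := volume)).symm
      rw [hQd, h9]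
      have h10 : ∀ y, ((‖H y‖ ^ 2 * Real.exp (-ε * ‖y‖ ^ 2) : ℝ) : ℂ) =
          ∫ w : ℝ × ℝ, P (w.1, y) * conj (P (w.2, y)) * (Real.exp (-ε * ‖y‖ ^ 2) : ℂ)
            ∂(ν.prod ν) := by
        intro y
        rw [integral_mul_const, integral_prod_mul (μ := ν) (ν := ν) (fun l => P (l, y))
          (fun m => conj (P (m, y))), integral_conj]
        have : ∫ l, P (l, y) ∂ν = H y := rfl
        rw [this, Complex.mul_conj, Complex.normSq_eq_norm_sq]
        push_cast
        ring
      simp only [h10]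
      rw [integral_integral_swap]
      · rfl
      · have hg : Integrable (fun w : V × (ℝ × ℝ) => (Real.exp (-ε * ‖w.1‖ ^ 2) : ℂ) * (1 : ℂ))
            ((volume : Measure V).prod (ν.prod ν)) :=
          Integrable.mul_prod (f := fun y : V => (Real.exp (-ε * ‖y‖ ^ 2) : ℂ))
            (g := fun _ : ℝ × ℝ => (1 : ℂ)) (gint_integrable hε).ofReal (integrable_const _)
        have hm1 : StronglyMeasurable (fun w : V × (ℝ × ℝ) => P (w.2.1, w.1)) :=
          (mP.measurable.comp ((measurable_fst.comp measurable_snd).prodMk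
            measurable_fst)).stronglyMeasurable
        have hm2 : StronglyMeasurable (fun w : V × (ℝ × ℝ) => conj (P (w.2.2, w.1))) :=
          (Complex.continuous_conj.measurable.comp (mP.measurable.comp
            ((measurable_snd.comp measurable_snd).prodMk measurable_fst))).stronglyMeasurable
        have hg2 : Integrable (fun w : V × (ℝ × ℝ) => (Real.exp (-ε * ‖w.1‖ ^ 2) : ℂ) * (1 : ℂ) *
            (P (w.2.1, w.1) * conj (P (w.2.2, w.1))))
            ((volume : Measure V).prod (ν.prod ν)) := by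
          refine hg.mul_bdd (c := C * C) (hm1.mul hm2).aestronglyMeasurable ?_
          have t1 : ∀ᵐ w ∂(ν.prod ν), w.1 ∈ T ∧ w.2 ∈ T :=
            ((Measure.quasiMeasurePreserving_fst (μ := ν) (ν := ν)).ae hmem).and
              ((Measure.quasiMeasurePreserving_snd (μ := ν) (ν := ν)).ae hmem)
          have t2 : ∀ᵐ w ∂((volume : Measure V).prod (ν.prod ν)), w.2.1 ∈ T ∧ w.2.2 ∈ T :=
            (Measure.quasiMeasurePreserving_snd (μ := (volume : Measure V))
              (ν := ν.prod ν)).ae t1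
          refine t2.mono fun w hw => ?_
          rw [norm_mul, RCLike.norm_conj]
          exact mul_le_mul (hPC _ hw.1 _) (hPC _ hw.2 _) (norm_nonneg _)
            ((norm_nonneg _).trans (hPC _ hw.1 w.1))
        refine hg2.congr (Filter.Eventually.of_forall fun w => ?_)
        simp only [Function.uncurry]
        ring
    have h2 : ENNReal.ofReal Q = ‖((Q : ℝ) : ℂ)‖ₑ := by
      rw [← ofReal_norm, Complex.norm_real, Real.norm_eq_abs, abs_of_nonneg hQ0]
    rw [h2, h1]
    refine (enorm_integral_le_lintegral_enorm _).trans ?_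
    have hSm : Measurable (fun w : ℝ × ℝ =>
        Sp f (a w.1) (c w.1) w.1 (a w.2) (c w.2) w.2 ε) := by
      unfold Sp
      refine (StronglyMeasurable.integral_prod_right (f := fun (w : ℝ × ℝ) (y : V) =>
        P (w.1, y) * conj (P (w.2, y)) * (Real.exp (-ε * ‖y‖ ^ 2) : ℂ)) ?_).measurable
      refine Measurable.stronglyMeasurable ?_
      unfold Function.uncurry
      have q1 : Measurable (fun w : (ℝ × ℝ) × V => P (w.1.1, w.2)) :=
        mP.measurable.comp ((measurable_fst.comp measurable_fst).prodMk measurable_snd)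
      have q2 : Measurable (fun w : (ℝ × ℝ) × V => conj (P (w.1.2, w.2))) :=
        Complex.continuous_conj.measurable.comp (mP.measurable.comp
          ((measurable_snd.comp measurable_fst).prodMk measurable_snd))
      have q3 : Measurable (fun w : (ℝ × ℝ) × V => (Real.exp (-ε * ‖w.2‖ ^ 2) : ℂ)) := by
        have : Continuous (fun w : (ℝ × ℝ) × V => (Real.exp (-ε * ‖w.2‖ ^ 2) : ℂ)) := by fun_prop
        exact this.measurable
      exact (q1.mul q2).mul q3
    rw [lintegral_prod _ hSm.enorm.aemeasurable]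
  calc ENNReal.ofReal (X ^ 2) ≤ ENNReal.ofReal (N * Q) := ENNReal.ofReal_le_ofReal s2
    _ = ENNReal.ofReal N * ENNReal.ofReal Q := ENNReal.ofReal_mul hN0
    _ ≤ _ := mul_le_mul' le_rfl s3

end Pool.Agent.U571.BS
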