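import Mathlib

/-!
# Extension operator of the paraboloid tested on sets with ball slices: basic objects
-/

set_option autoImplicit false
set_option linter.unusedSectionVars false

namespace Pool.Agent.U571.BS

open MeasureTheory Complex Set
open scoped Real ENNReal RealInnerProductSpace ComplexConjugate

variable {V : Type*} [NormedAddCommGroup V] [InnerProductSpace ℝ V] [FiniteDimensional ℝ V]
  [MeasurableSpace V] [BorelSpace V]

/-- the phase `exp (i (x · ξ + l |x|²))` -/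
noncomputable def ph (l : ℝ) (x ξ : V) : ℂ := cexp (((⟪x, ξ⟫ + l * ‖x‖ ^ 2 : ℝ) : ℂ) * I)

/-- the extension operator -/
noncomputable def Fx (f : V → ℂ) (l : ℝ) (ξ : V) : ℂ := ∫ x, f x * ph l x ξ

/-- Gaussian weight -/
noncomputable def wt (a : ℝ) (c ξ : V) : ℝ := Real.exp (-(1 / (4 * a)) * ‖ξ - c‖ ^ 2)

/-- the operator `P` -/
noncomputable def Pf (f : V → ℂ) (a : ℝ) (c : V) (l : ℝ) (y : V) : ℂ :=
  ∫ ξ, (wt a c ξ : ℂ) * Fx f l ξ * conj (ph l y ξ)

/-- local mass -/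
noncomputable def El (f : V → ℂ) (a : ℝ) (c : V) (l : ℝ) : ℝ :=
  ∫ ξ, wt a c ξ * ‖Fx f l ξ‖ ^ 2

/-- dimension -/
noncomputable def dn (V : Type*) [NormedAddCommGroup V] [InnerProductSpace ℝ V] : ℝ :=
  (Module.finrank ℝ V : ℝ)

omit [FiniteDimensional ℝ V] [MeasurableSpace V] [BorelSpace V] in
lemma norm_ph (l : ℝ) (x ξ : V) : ‖ph l x ξ‖ = 1 := by
  unfold ph
  exact Complex.norm_exp_ofReal_mul_I _

omit [FiniteDimensional ℝ V] [MeasurableSpace V] [BorelSpace V] in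
lemma conj_ph (l : ℝ) (x ξ : V) :
    conj (ph l x ξ) = cexp (((-(⟪x, ξ⟫ + l * ‖x‖ ^ 2) : ℝ) : ℂ) * I) := by
  unfold ph
  rw [← Complex.exp_conj]
  congr 1
  rw [map_mul, Complex.conj_I, Complex.conj_ofReal]
  push_cast
  ring

omit [FiniteDimensional ℝ V] [MeasurableSpace V] [BorelSpace V] in
lemma norm_conj_ph (l : ℝ) (x ξ : V) : ‖conj (ph l x ξ)‖ = 1 := by
  rw [RCLike.norm_conj, norm_ph]

omit [FiniteDimensional ℝ V] [MeasurableSpace V] [BorelSpace V] in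
lemma cont_ph : Continuous (fun z : ℝ × V × V => ph z.1 z.2.1 z.2.2) := by
  unfold ph
  fun_prop

omit [FiniteDimensional ℝ V] [MeasurableSpace V] [BorelSpace V] in
lemma wt_pos (a : ℝ) (c ξ : V) : 0 < wt a c ξ := Real.exp_pos _

omit [FiniteDimensional ℝ V] [MeasurableSpace V] [BorelSpace V] in
lemma wt_le {a : ℝ} (ha : 0 < a) (c ξ : V) : wt a c ξ ≤ 1 := by
  unfold wt
  rw [Real.exp_le_one_iff]
  have : 0 ≤ 1 / (4 * a) * ‖ξ - c‖ ^ 2 := by positivity
  linarith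

/-- integral of a Gaussian -/
lemma gint {b : ℝ} (hb : 0 < b) :
    ∫ v : V, Real.exp (-b * ‖v‖ ^ 2) = (π / b) ^ (dn V / 2) := by
  exact GaussianFourier.integral_rexp_neg_mul_sq_norm hb

lemma gint_integrable {b : ℝ} (hb : 0 < b) :
    Integrable (fun v : V => Real.exp (-b * ‖v‖ ^ 2)) := by
  have h := GaussianFourier.integrable_cexp_neg_mul_sq_norm_add (V := V) (b := (b : ℂ))
    (by simpa using hb) 0 0
  have h2 := h.norm
  refine h2.congr (Filter.Eventually.of_forall fun v => ?_)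
  simp only [Complex.norm_exp]
  congr 1
  simp
  left
  norm_cast

lemma gint_shift {b : ℝ} (hb : 0 < b) (c : V) :
    ∫ v : V, Real.exp (-b * ‖v - c‖ ^ 2) = (π / b) ^ (dn V / 2) := by
  rw [← gint hb]
  exact integral_sub_right_eq_self (fun v : V => Real.exp (-b * ‖v‖ ^ 2)) c

lemma gint_shift_integrable {b : ℝ} (hb : 0 < b) (c : V) :
    Integrable (fun v : V => Real.exp (-b * ‖v - c‖ ^ 2)) :=
  (gint_integrable hb).comp_sub_right c

lemma wt_integrable {a : ℝ} (ha : 0 < a) (c : V) : Integrable (fun ξ : V => wt a c ξ) :=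
  gint_shift_integrable (by positivity) c

lemma wt_int {a : ℝ} (ha : 0 < a) (c : V) :
    ∫ ξ : V, wt a c ξ = (4 * π * a) ^ (dn V / 2) := by
  unfold wt
  rw [gint_shift (by positivity : 0 < 1 / (4 * a)) c]
  congr 1
  field_simp

/-- Fourier transform of the weight -/
lemma wt_ft {a : ℝ} (ha : 0 < a) (c u : V) :
    ∫ ξ : V, (wt a c ξ : ℂ) * cexp (((⟪u, ξ⟫ : ℝ) : ℂ) * I) =
      (((4 * π * a) ^ (dn V / 2) : ℝ) : ℂ) * cexp (((⟪u, c⟫ : ℝ) : ℂ) * I) *
        (Real.exp (-a * ‖u‖ ^ 2) : ℂ) := by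
  have h1 : ∫ ξ : V, (wt a c ξ : ℂ) * cexp (((⟪u, ξ⟫ : ℝ) : ℂ) * I) =
      ∫ ξ : V, cexp (((⟪u, c⟫ : ℝ) : ℂ) * I) *
        cexp (-((1 / (4 * a) : ℝ) : ℂ) * ‖ξ‖ ^ 2 + I * ⟪u, ξ⟫) := by
    rw [← integral_add_right_eq_self (fun ξ : V => (wt a c ξ : ℂ) *
      cexp (((⟪u, ξ⟫ : ℝ) : ℂ) * I)) c]
    refine integral_congr_ae (Filter.Eventually.of_forall fun ξ => ?_)
    simp only [wt, add_sub_cancel_right, Complex.ofReal_exp]
    rw [← Complex.exp_add, ← Complex.exp_add]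
    congr 1
    rw [inner_add_right]
    push_cast
    ring
  rw [h1, integral_const_mul, GaussianFourier.integral_cexp_neg_mul_sq_norm_add (V := V)
    (b := ((1 / (4 * a) : ℝ) : ℂ)) (by rw [Complex.ofReal_re]; positivity) I u]
  have h2 : ((π : ℂ) / ((1 / (4 * a) : ℝ) : ℂ)) ^ ((Module.finrank ℝ V : ℂ) / 2) =
      (((4 * π * a) ^ (dn V / 2) : ℝ) : ℂ) := by
    rw [Complex.ofReal_cpow (by positivity)]
    congr 1
    · push_cast
      have : (a : ℂ) ≠ 0 := by exact_mod_cast ha.ne'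
      field_simp
    · unfold dn
      push_cast
      ring
  rw [h2]
  have h3 : I ^ 2 * (‖u‖ : ℂ) ^ 2 / (4 * ((1 / (4 * a) : ℝ) : ℂ)) = ((-a * ‖u‖ ^ 2 : ℝ) : ℂ) := by
    have : (a : ℂ) ≠ 0 := by exact_mod_cast ha.ne'
    rw [Complex.I_sq]
    push_cast
    field_simp
  rw [h3, ← Complex.ofReal_exp]
  ring

end Pool.Agent.U571.BS
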