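import Pool.Agent.U571.BS.Main

/-!
# Concentration estimate and scaling
-/

set_option autoImplicit false
set_option linter.unusedSectionVars false

namespace Pool.Agent.U571.BS

open MeasureTheory Complex Set
open scoped Real ENNReal RealInnerProductSpace ComplexConjugate

variable {V : Type*} [NormedAddCommGroup V] [InnerProductSpace ℝ V] [FiniteDimensional ℝ V]
  [MeasurableSpace V] [BorelSpace V]

/-- joint measurability in time of a local mass -/
lemma meas_ball {G : ℝ → V → ℝ≥0∞} (hG : Measurable (Function.uncurry G)) (y : V) (r : ℝ) :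
    Measurable (fun l => ∫⁻ ξ in Metric.ball y r, G l ξ) :=
  Measurable.lintegral_prod_right' (f := fun z : ℝ × V => G z.1 z.2) hG

/-- the estimate for ball slices -/
def SliceBound (G : ℝ → V → ℝ≥0∞) (A : ℝ≥0∞) (α : ℝ) : Prop :=
  ∀ (T : Set ℝ) (c : ℝ → V) (r : ℝ → ℝ), MeasurableSet T → Measurable c → Measurable r →
    ∫⁻ l in T, ∫⁻ ξ in Metric.ball (c l) (r l), G l ξ ≤ A * vb T c r ^ α

/-- **Concentration estimate.** -/
theorem conc {G : ℝ → V → ℝ≥0∞} (hG : Measurable (Function.uncurry G)) {A : ℝ≥0∞} {α : ℝ}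
    (h0 : 0 < α) (h1 : α < 1) (h : SliceBound G A α) {r : ℝ} (hr : 0 < r) (σ : ℝ≥0∞) :
    σ ^ (1 / (1 - α)) * volume {l | ∃ y, σ < ∫⁻ ξ in Metric.ball y r, G l ξ} ≤
      A ^ (1 / (1 - α)) * volume (Metric.ball (0 : V) (2 * r)) ^ (α / (1 - α)) := by
  have hα : 0 < 1 - α := by linarith
  set q := TopologicalSpace.denseSeq V with hq
  set I : ℕ → ℝ → ℝ≥0∞ := fun k l => ∫⁻ ξ in Metric.ball (q k) (2 * r), G l ξ with hI
  have mI : ∀ k, Measurable (I k) := fun k => meas_ball hG _ _
  set D : Set ℝ := ⋃ k, {l | σ < I k l} with hD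
  have mDk : ∀ k, MeasurableSet {l | σ < I k l} := fun k => measurableSet_lt measurable_const (mI k)
  have mD : MeasurableSet D := MeasurableSet.iUnion mDk
  have hsub : {l | ∃ y, σ < ∫⁻ ξ in Metric.ball y r, G l ξ} ⊆ D := by
    rintro l ⟨y, hy⟩
    obtain ⟨k, hk⟩ := (TopologicalSpace.denseRange_denseSeq V).exists_dist_lt y hr
    refine mem_iUnion.2 ⟨k, lt_of_lt_of_le hy ?_⟩
    refine lintegral_mono_set (Metric.ball_subset_ball' ?_)
    linarith
  classical
  have hex : ∀ l : ℝ, ∃ k, (σ < I k l ∨ l ∉ D) := by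
    intro l
    by_cases hl : l ∈ D
    · obtain ⟨k, hk⟩ := mem_iUnion.1 hl
      exact ⟨k, Or.inl hk⟩
    · exact ⟨0, Or.inr hl⟩
  set kk : ℝ → ℕ := fun l => Nat.find (hex l) with hkk
  have mk : Measurable kk := measurable_find hex fun k => (mDk k).union mD.compl
  set c : ℝ → V := fun l => q (kk l) with hc
  have mc : Measurable c := (measurable_from_nat (f := q)).comp mk
  have hcl : ∀ l ∈ D, σ ≤ ∫⁻ ξ in Metric.ball (c l) (2 * r), G l ξ := by
    intro l hl
    rcases Nat.find_spec (hex l) with h | h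
    · exact h.le
    · exact absurd hl h
  set v := volume (Metric.ball (0 : V) (2 * r)) with hv
  have hvt : v ≠ ∞ := Metric.isBounded_ball.measure_lt_top.ne
  -- bounded pieces
  have key : ∀ T : Set ℝ, MeasurableSet T → T ⊆ D → volume T ≠ ∞ →
      σ ^ (1 / (1 - α)) * volume T ≤ A ^ (1 / (1 - α)) * v ^ (α / (1 - α)) := by
    intro T hT hTD hTt
    rcases eq_or_ne (volume T) 0 with hz | hz
    · rw [hz, mul_zero]; exact zero_le
    have e1 : σ * volume T ≤ A * (v * volume T) ^ α := by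
      calc σ * volume T = ∫⁻ l in T, σ := by rw [setLIntegral_const]
        _ ≤ ∫⁻ l in T, ∫⁻ ξ in Metric.ball (c l) (2 * r), G l ξ :=
            setLIntegral_mono' hT fun l hl => hcl l (hTD hl)
        _ ≤ A * vb T c (fun _ => 2 * r) ^ α := h T c _ hT mc measurable_const
        _ = A * (v * volume T) ^ α := by
            unfold vb
            have : ∀ l, volume (Metric.ball (c l) (2 * r)) = v := fun l =>
              Measure.addHaar_ball_center _ _ _
            simp only [this]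
            rw [setLIntegral_const]
    have e2 : σ * volume T ^ (1 - α) ≤ A * v ^ α := by
      have hm : volume T ^ (-α) ≠ ∞ := by
        rw [Ne, ENNReal.rpow_eq_top_iff]
        rintro (⟨h, _⟩ | ⟨h, _⟩)
        · exact hz h
        · exact hTt h
      calc σ * volume T ^ (1 - α) = σ * volume T * volume T ^ (-α) := by
            rw [sub_eq_add_neg, ENNReal.rpow_add _ _ hz hTt, ENNReal.rpow_one, mul_assoc]
        _ ≤ A * (v * volume T) ^ α * volume T ^ (-α) := by gcongr
        _ = A * v ^ α * (volume T ^ α * volume T ^ (-α)) := by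
            rw [ENNReal.mul_rpow_of_nonneg _ _ h0.le]; ring
        _ = A * v ^ α := by
            rw [← ENNReal.rpow_add _ _ hz hTt, add_neg_cancel, ENNReal.rpow_zero, mul_one]
    have e3 := ENNReal.rpow_le_rpow e2 (by positivity : 0 ≤ 1 / (1 - α))
    rw [ENNReal.mul_rpow_of_nonneg _ _ (by positivity),
      ENNReal.mul_rpow_of_nonneg _ _ (by positivity), ← ENNReal.rpow_mul, ← ENNReal.rpow_mul,
      mul_one_div_cancel hα.ne', ENNReal.rpow_one, mul_one_div] at e3
    exact e3
  -- exhaustion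
  have hmono : Monotone (fun k : ℕ => D ∩ Icc (-(k : ℝ)) k) := by
    intro i j hij
    have : (i : ℝ) ≤ j := by exact_mod_cast hij
    exact inter_subset_inter_right _ (Icc_subset_Icc (by linarith) this)
  have hun : ⋃ k : ℕ, D ∩ Icc (-(k : ℝ)) k = D := by
    ext l
    constructor
    · intro hl
      obtain ⟨k, hk⟩ := mem_iUnion.1 hl
      exact hk.1
    · intro hl
      obtain ⟨k, hk⟩ := exists_nat_ge |l|
      exact mem_iUnion.2 ⟨k, hl, abs_le.1 hk⟩
  refine (mul_le_mul' le_rfl (measure_mono hsub)).trans ?_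
  rw [← hun, hmono.measure_iUnion, ENNReal.mul_iSup]
  refine iSup_le fun k => ?_
  refine key _ (mD.inter measurableSet_Icc) inter_subset_left ?_
  refine ne_top_of_le_ne_top ?_ (measure_mono (inter_subset_right (s := D)))
  rw [Real.volume_Icc]
  exact ENNReal.ofReal_ne_top

/-- change of variables by a dilation -/
lemma lint_smul {W : Type*} [NormedAddCommGroup W] [NormedSpace ℝ W] [FiniteDimensional ℝ W]
    [MeasurableSpace W] [BorelSpace W] (μ : Measure W) [μ.IsAddHaarMeasure] {s : ℝ} (hs : 0 < s)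
    (h : W → ℝ≥0∞) :
    ∫⁻ x, h (s • x) ∂μ = ENNReal.ofReal ((s ^ Module.finrank ℝ W)⁻¹) * ∫⁻ x, h x ∂μ := by
  have e : ∫⁻ x, h (s • x) ∂μ = ∫⁻ y, h y ∂(Measure.map (s • ·) μ) :=
    (lintegral_map_equiv h (Homeomorph.smul (isUnit_iff_ne_zero.2 hs.ne').unit).toMeasurableEquiv).symm
  rw [e, Measure.map_addHaar_smul μ hs.ne', lintegral_smul_measure, abs_of_pos (by positivity)]
  rfl

lemma ball_smul_iff {s : ℝ} (hs : 0 < s) (c x : V) (r : ℝ) :
    s • x ∈ Metric.ball (s • c) (s * r) ↔ x ∈ Metric.ball c r := by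
  rw [Metric.mem_ball, Metric.mem_ball, dist_smul₀, Real.norm_eq_abs, abs_of_pos hs]
  exact mul_lt_mul_iff_right₀ hs

lemma ball_lint {s : ℝ} (hs : 0 < s) (c : V) (r : ℝ) (h : V → ℝ≥0∞) :
    ∫⁻ x in Metric.ball c r, h (s • x) =
      ENNReal.ofReal ((s ^ Module.finrank ℝ V)⁻¹) *
        ∫⁻ ξ in Metric.ball (s • c) (s * r), h ξ := by
  rw [← lintegral_indicator Metric.isOpen_ball.measurableSet,
    ← lintegral_indicator Metric.isOpen_ball.measurableSet,
    ← lint_smul volume hs]
  refine lintegral_congr fun x => ?_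
  by_cases hx : x ∈ Metric.ball c r
  · rw [indicator_of_mem hx, indicator_of_mem ((ball_smul_iff hs c x r).2 hx)]
  · rw [indicator_of_notMem hx, indicator_of_notMem (fun h => hx ((ball_smul_iff hs c x r).1 h))]

/-- scaling of the slice bound -/
theorem SliceBound.scale {G : ℝ → V → ℝ≥0∞} {A : ℝ≥0∞} {α : ℝ} (h0 : 0 < α) (h1 : α ≤ 1)
    (h : SliceBound G A α) {s : ℝ} (hs : 1 ≤ s) :
    SliceBound (fun l ξ => G (s * l) (s • ξ)) A α := by
  have hs0 : 0 < s := by linarith
  intro T c r hT hc hr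
  set d := Module.finrank ℝ V with hd
  set κ : ℝ≥0∞ := ENNReal.ofReal ((s ^ d)⁻¹) with hκ
  set κ1 : ℝ≥0∞ := ENNReal.ofReal ((s ^ 1)⁻¹) with hκ1
  set T' : Set ℝ := {l | s⁻¹ * l ∈ T} with hT'
  set c' : ℝ → V := fun l => s • c (s⁻¹ * l) with hc'
  set r' : ℝ → ℝ := fun l => s * r (s⁻¹ * l) with hr'
  have ms : Measurable (fun l : ℝ => s⁻¹ * l) := measurable_const_mul _
  have mT' : MeasurableSet T' := ms hT
  have mc' : Measurable c' := (hc.comp ms).const_smul s
  have mr' : Measurable r' := (hr.comp ms).const_mul s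
  have hcl : ∀ l, c' (s * l) = s • c l := fun l => by
    simp only [hc', inv_mul_cancel_left₀ hs0.ne']
  have hrl : ∀ l, r' (s * l) = s * r l := fun l => by
    simp only [hr', inv_mul_cancel_left₀ hs0.ne']
  have hTl : ∀ l, s * l ∈ T' ↔ l ∈ T := fun l => by
    simp only [hT', mem_ofPred_eq, inv_mul_cancel_left₀ hs0.ne']
  -- time change
  have time : ∀ H : ℝ → ℝ≥0∞, ∫⁻ l in T, H (s * l) = κ1 * ∫⁻ l in T', H l := by
    intro H
    have e1 := lint_smul (W := ℝ) volume hs0 (T'.indicator H)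
    rw [Module.finrank_self] at e1
    rw [← lintegral_indicator hT, ← lintegral_indicator mT', hκ1, ← e1]
    refine lintegral_congr fun l => ?_
    rw [smul_eq_mul]
    by_cases hl : l ∈ T
    · rw [indicator_of_mem hl, indicator_of_mem ((hTl l).2 hl)]
    · rw [indicator_of_notMem hl, indicator_of_notMem (fun h => hl ((hTl l).1 h))]
  have e1 : ∫⁻ l in T, ∫⁻ ξ in Metric.ball (c l) (r l), G (s * l) (s • ξ) =
      κ * (κ1 * ∫⁻ l in T', ∫⁻ ξ in Metric.ball (c' l) (r' l), G l ξ) := by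
    have e2 : ∀ l, ∫⁻ ξ in Metric.ball (c l) (r l), G (s * l) (s • ξ) =
        κ * ∫⁻ ξ in Metric.ball (c' (s * l)) (r' (s * l)), G (s * l) ξ := by
      intro l
      rw [hcl, hrl]
      exact ball_lint hs0 (c l) (r l) (fun ξ => G (s * l) ξ)
    simp only [e2]
    rw [lintegral_const_mul' _ _ ENNReal.ofReal_ne_top,
      time (fun l => ∫⁻ ξ in Metric.ball (c' l) (r' l), G l ξ)]
  have e3 : vb T c r = κ * (κ1 * vb T' c' r') := by
    unfold vb
    have e2 : ∀ l, volume (Metric.ball (c l) (r l)) =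
        κ * volume (Metric.ball (c' (s * l)) (r' (s * l))) := by
      intro l
      rw [hcl, hrl]
      have := ball_lint hs0 (c l) (r l) (fun _ => 1)
      simpa only [setLIntegral_one] using this
    simp only [e2]
    rw [lintegral_const_mul' _ _ ENNReal.ofReal_ne_top,
      time (fun l => volume (Metric.ball (c' l) (r' l)))]
  have hκ_le : κ * κ1 ≤ 1 := by
    rw [hκ, hκ1, ← ENNReal.ofReal_mul (by positivity)]
    refine ENNReal.ofReal_le_one.2 ?_
    have a1 : (s ^ d)⁻¹ ≤ 1 := inv_le_one_of_one_le₀ (one_le_pow₀ hs)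
    have a2 : (s ^ 1)⁻¹ ≤ 1 := inv_le_one_of_one_le₀ (one_le_pow₀ hs)
    have a3 : 0 ≤ (s ^ 1)⁻¹ := by positivity
    nlinarith
  have hκκ : κ * κ1 ≤ (κ * κ1) ^ α := by
    have := ENNReal.rpow_le_rpow_of_exponent_ge hκ_le h1
    rwa [ENNReal.rpow_one] at this
  change ∫⁻ l in T, ∫⁻ ξ in Metric.ball (c l) (r l), G (s * l) (s • ξ) ≤ _
  rw [e1]
  calc κ * (κ1 * ∫⁻ l in T', ∫⁻ ξ in Metric.ball (c' l) (r' l), G l ξ)
      ≤ κ * (κ1 * (A * vb T' c' r' ^ α)) := by
        gcongr
        exact h T' c' r' mT' mc' mr'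
    _ = (κ * κ1) * (A * vb T' c' r' ^ α) := by ring
    _ ≤ (κ * κ1) ^ α * (A * vb T' c' r' ^ α) := by gcongr
    _ = A * (κ * κ1 * vb T' c' r') ^ α := by
        rw [ENNReal.mul_rpow_of_nonneg (κ * κ1) (vb T' c' r') h0.le]; ring
    _ = A * vb T c r ^ α := by rw [e3, ← mul_assoc]

/-- the set with ball slices -/
def slices (T : Set ℝ) (c : ℝ → V) (r : ℝ → ℝ) : Set (V × ℝ) :=
  {x | x.2 ∈ T ∧ x.1 ∈ Metric.ball (c x.2) (r x.2)}

lemma slices_meas {T : Set ℝ} {c : ℝ → V} {r : ℝ → ℝ} (hT : MeasurableSet T) (hc : Measurable c)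
    (hr : Measurable r) : MeasurableSet (slices T c r) := by
  refine (measurable_snd hT).inter ?_
  have : MeasurableSet {x : V × ℝ | dist x.1 (c x.2) < r x.2} :=
    measurableSet_lt (measurable_fst.dist (hc.comp measurable_snd)) (hr.comp measurable_snd)
  exact this

lemma lint_slices {T : Set ℝ} {c : ℝ → V} {r : ℝ → ℝ} (hT : MeasurableSet T) (hc : Measurable c)
    (hr : Measurable r) {h : V × ℝ → ℝ≥0∞} (hh : Measurable h) :
    ∫⁻ x in slices T c r, h x = ∫⁻ l in T, ∫⁻ ξ in Metric.ball (c l) (r l), h (ξ, l) := by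
  rw [← lintegral_indicator (slices_meas hT hc hr), Measure.volume_eq_prod,
    lintegral_prod_symm' _ (hh.indicator (slices_meas hT hc hr)), ← lintegral_indicator hT]
  refine lintegral_congr fun l => ?_
  by_cases hl : l ∈ T
  · rw [indicator_of_mem hl, ← lintegral_indicator Metric.isOpen_ball.measurableSet]
    refine lintegral_congr fun ξ => ?_
    by_cases hξ : ξ ∈ Metric.ball (c l) (r l)
    · rw [indicator_of_mem hξ, indicator_of_mem (show (ξ, l) ∈ slices T c r from ⟨hl, hξ⟩)]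
    · rw [indicator_of_notMem hξ, indicator_of_notMem
        (show (ξ, l) ∉ slices T c r from fun h' => hξ h'.2)]
  · rw [indicator_of_notMem hl]
    rw [lintegral_congr (g := fun _ => 0) fun ξ => indicator_of_notMem
      (show (ξ, l) ∉ slices T c r from fun h' => hl h'.1) _]
    simp

lemma volume_slices {T : Set ℝ} {c : ℝ → V} {r : ℝ → ℝ} (hT : MeasurableSet T)
    (hc : Measurable c) (hr : Measurable r) : volume (slices T c r) = vb T c r := by
  have := lint_slices hT hc hr (h := fun _ => 1) measurable_const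
  rw [setLIntegral_one] at this
  rw [this]
  unfold vb
  refine lintegral_congr fun l => ?_
  rw [setLIntegral_one]

end Pool.Agent.U571.BS
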