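import Pool.Agent.U571.BS.Pow

/-!
# All radii in two or more dimensions, without the end point
-/

set_option autoImplicit false
set_option linter.unusedSectionVars false

namespace Pool.Agent.U571.BS

open MeasureTheory Complex Set
open scoped Real ENNReal RealInnerProductSpace ComplexConjugate

variable {V : Type*} [NormedAddCommGroup V] [InnerProductSpace ℝ V] [FiniteDimensional ℝ V]
  [MeasurableSpace V] [BorelSpace V]

/-- Jensen's inequality for concave powers on a probability space -/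
lemma jensen_rpow {X : Type*} [MeasurableSpace X] (μ : Measure X) [IsProbabilityMeasure μ]
    {F : X → ℝ≥0∞} (hF : Measurable F) {α : ℝ} (h0 : 0 < α) (h1 : α ≤ 1) :
    ∫⁻ s, F s ^ α ∂μ ≤ (∫⁻ s, F s ∂μ) ^ α := by
  have h := eLpNorm'_le_eLpNorm'_of_exponent_le (f := F) h0 h1 μ hF.aestronglyMeasurable
  simp only [eLpNorm', enorm_eq_self, ENNReal.rpow_one, div_one] at h
  have h2 := ENNReal.rpow_le_rpow h h0.le
  rwa [← ENNReal.rpow_mul, one_div_mul_cancel h0.ne', ENNReal.rpow_one] at h2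

instance : IsProbabilityMeasure (volume.restrict (Ioo (0 : ℝ) 1)) :=
  ⟨by rw [Measure.restrict_apply_univ, Real.volume_Ioo]; norm_num⟩

/-- layer cake with a level set bound -/
lemma layer {T : Set ℝ} (hT : MeasurableSet T) {w : ℝ → ℝ} (hw : Measurable w)
    (hw1 : ∀ l ∈ T, w l ≤ 1) {g : ℝ → ℝ≥0∞} (hg : Measurable g) {A : ℝ≥0∞}
    {α : ℝ} (h0 : 0 < α) (h1 : α ≤ 1)
    (h : ∀ S : Set ℝ, MeasurableSet S → ∫⁻ l in S, g l ≤ A * volume S ^ α) :
    ∫⁻ l in T, ENNReal.ofReal (w l) * g l ≤ A * (∫⁻ l in T, ENNReal.ofReal (w l)) ^ α := by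
  set μ := volume.restrict (Ioo (0 : ℝ) 1) with hμ
  have key : ∀ G : ℝ → ℝ≥0∞, Measurable G →
      ∫⁻ l in T, ENNReal.ofReal (w l) * G l = ∫⁻ s, (∫⁻ l in T ∩ {l | s < w l}, G l) ∂μ := by
    intro G hG
    have e1 : ∀ l ∈ T, ENNReal.ofReal (w l) * G l =
        ∫⁻ s, indicator {s : ℝ | s < w l} (fun _ => G l) s ∂μ := by
      intro l hl
      have ms : MeasurableSet {s : ℝ | s < w l} := measurableSet_lt measurable_id measurable_const
      rw [lintegral_indicator ms, setLIntegral_const, mul_comm, hμ,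
        Measure.restrict_apply ms]
      congr 1
      have : {s : ℝ | s < w l} ∩ Ioo 0 1 = Ioo 0 (w l) := by
        ext s
        simp only [mem_inter_iff, mem_ofPred_eq, mem_Ioo]
        constructor
        · rintro ⟨h1, h2, h3⟩; exact ⟨h2, h1⟩
        · rintro ⟨h1, h2⟩; exact ⟨h2, h1, lt_of_lt_of_le h2 (hw1 l hl)⟩
      rw [this, Real.volume_Ioo, sub_zero]
    rw [setLIntegral_congr_fun hT e1]
    have mI : Measurable (fun z : ℝ × ℝ => indicator {s : ℝ | s < w z.1} (fun _ => G z.1) z.2) := by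
      have : (fun z : ℝ × ℝ => indicator {s : ℝ | s < w z.1} (fun _ => G z.1) z.2) =
          indicator {z : ℝ × ℝ | z.2 < w z.1} (fun z => G z.1) := by
        ext z
        simp only [indicator, mem_ofPred_eq]
      rw [this]
      exact (hG.comp measurable_fst).indicator
        (measurableSet_lt measurable_snd (hw.comp measurable_fst))
    rw [lintegral_lintegral_swap mI.aemeasurable]
    refine lintegral_congr fun s => ?_
    have ms : MeasurableSet {l : ℝ | s < w l} := measurableSet_lt measurable_const hw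
    have : (fun l => indicator {s : ℝ | s < w l} (fun _ => G l) s) =
        indicator {l : ℝ | s < w l} G := by
      ext l
      simp only [indicator, mem_ofPred_eq]
    rw [this, lintegral_indicator ms, Measure.restrict_restrict ms, inter_comm]
  have hFm : Measurable (fun s : ℝ => volume (T ∩ {l | s < w l})) := by
    have hset : MeasurableSet {z : ℝ × ℝ | z.2 ∈ T ∧ z.1 < w z.2} :=
      (measurable_snd hT).inter (measurableSet_lt measurable_fst (hw.comp measurable_snd))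
    exact measurable_measure_prodMk_left hset
  rw [key g hg]
  calc ∫⁻ s, (∫⁻ l in T ∩ {l | s < w l}, g l) ∂μ
      ≤ ∫⁻ s, A * volume (T ∩ {l | s < w l}) ^ α ∂μ :=
        lintegral_mono fun s => h _ (hT.inter (measurableSet_lt measurable_const hw))
    _ = A * ∫⁻ s, volume (T ∩ {l | s < w l}) ^ α ∂μ :=
        lintegral_const_mul _ (hFm.pow_const α)
    _ ≤ A * (∫⁻ s, volume (T ∩ {l | s < w l}) ∂μ) ^ α := by
        gcongr
        exact jensen_rpow μ hFm h0 h1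
    _ = A * (∫⁻ l in T, ENNReal.ofReal (w l)) ^ α := by
        have h3 := key (fun _ => 1) measurable_const
        simp only [mul_one, setLIntegral_one] at h3
        rw [h3]

/-- radius one -/
theorem one_radius (hn : 2 ≤ dn V) {α ρ N0 : ℝ} (hα : 1 / (dn V + 1) < α) (hα1 : α ≤ 1)
    (hN0 : 0 ≤ N0) :
    ∃ C : ℝ, 0 < C ∧ ∀ f : V → ℂ, Integrable f → ∀ M : ℝ, 0 < M → (∀ x, ‖f x‖ ≤ M) →
      (∀ x, f x ≠ 0 → ‖x‖ ≤ ρ) → ∀ c : ℝ → V, Measurable c →
      ∀ N : ℝ, 0 < N → 2 * ∫ y, ‖f y‖ ^ 2 ≤ N → N ≤ N0 * M ^ 2 →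
      ∀ T : Set ℝ, MeasurableSet T →
      ∫⁻ l in T, ENNReal.ofReal (El f 1 (c l) l) ≤
        ENNReal.ofReal (C * (N * (M ^ 2 / N) ^ α)) * volume T ^ α := by
  have hα0 : 0 < α := lt_of_le_of_lt (by have := dn_nonneg (V := V); positivity) hα
  obtain ⟨C, hC0, hC⟩ := els_pow_low hn (ρ := ρ) hα hα1 hN0
  refine ⟨C, hC0, ?_⟩
  intro f hf M hM0 hM hρ c hc N hN hNf hNN T hT
  have hc0 : 0 < C * (N * (M ^ 2 / N) ^ α) := by positivity
  rcases eq_or_ne (volume T) 0 with h0 | h0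
  · rw [setLIntegral_measure_zero _ _ h0]
    exact zero_le
  rcases eq_or_ne (volume T) ∞ with h1 | h1
  · rw [h1, ENNReal.top_rpow_of_pos hα0, ENNReal.mul_top]
    · exact le_top
    · rw [Ne, ENNReal.ofReal_eq_zero, not_le]
      exact hc0
  set W := (volume T).toReal with hW
  have hW0 : 0 < W := ENNReal.toReal_pos h0 h1
  have hWT : ∫⁻ l in T, ENNReal.ofReal ((1 : ℝ) ^ dn V) ≤ ENNReal.ofReal W := by
    rw [Real.one_rpow, ENNReal.ofReal_one, setLIntegral_one, hW, ENNReal.ofReal_toReal h1]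
  have h := hC f hf M hM0 hM hρ (fun _ => 1) c measurable_const hc T hT (fun _ _ => le_rfl)
    W N hW0 hWT hN hNf hNN
  simp only [one_pow] at h
  refine h.trans (le_of_eq ?_)
  have e1 : volume T ^ α = ENNReal.ofReal (W ^ α) := by
    rw [← ENNReal.ofReal_rpow_of_pos hW0, hW, ENNReal.ofReal_toReal h1]
  rw [e1, ← ENNReal.ofReal_mul hc0.le]
  congr 1
  have : M ^ 2 * W / N = M ^ 2 / N * W := by ring
  rw [this, Real.mul_rpow (by positivity) hW0.le]
  ring

lemma ft_supp {f : V → ℂ} {ρ : ℝ} (hρ : ∀ x, f x ≠ 0 → ‖x‖ ≤ ρ) :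
    ∀ x, ft f x ≠ 0 → ‖x‖ ≤ ρ := by
  intro x hx
  refine hρ x fun h => hx ?_
  unfold ft
  rw [h, zero_mul]

lemma ft_norm {f : V → ℂ} {ρ : ℝ} (hρ : ∀ x, f x ≠ 0 → ‖x‖ ≤ ρ) (x : V) :
    ‖ft f x‖ ≤ Real.exp (ρ ^ 2) * ‖f x‖ := by
  unfold ft
  rw [norm_mul, Complex.norm_real, Real.norm_eq_abs, abs_of_pos (Real.exp_pos _), mul_comm]
  by_cases h : f x = 0
  · rw [h]; simp
  · have h2 := hρ x h
    have h3 : ‖x‖ ^ 2 ≤ ρ ^ 2 := pow_le_pow_left₀ (norm_nonneg _) h2 2
    refine mul_le_mul_of_nonneg_right (Real.exp_le_exp.2 ?_) (norm_nonneg _)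
    nlinarith [sq_nonneg ‖x‖]

lemma ft_integrable {f : V → ℂ} (hf : Integrable f) {ρ : ℝ} (hρ : ∀ x, f x ≠ 0 → ‖x‖ ≤ ρ) :
    Integrable (ft f) := by
  refine (hf.norm.const_mul (Real.exp (ρ ^ 2))).mono' ?_
    (Filter.Eventually.of_forall fun x => ft_norm hρ x)
  unfold ft
  refine hf.aestronglyMeasurable.mul ?_
  exact Continuous.aestronglyMeasurable (by fun_prop)

/-- radii at most one -/
theorem small_radii (hn : 2 ≤ dn V) {α ρ N0 : ℝ} (hα : 1 / (dn V + 1) < α) (hα1 : α ≤ 1)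
    (hN0 : 0 ≤ N0) :
    ∃ C : ℝ, 0 < C ∧ ∀ f : V → ℂ, Integrable f → ∀ M : ℝ, 0 < M → (∀ x, ‖f x‖ ≤ M) →
      (∀ x, f x ≠ 0 → ‖x‖ ≤ ρ) → ∀ (r : ℝ → ℝ) (c : ℝ → V), Measurable r → Measurable c →
      ∀ T : Set ℝ, MeasurableSet T → (∀ l ∈ T, 0 < r l) → (∀ l ∈ T, r l ≤ 1) → ∀ W N : ℝ, 0 < W →
      ∫⁻ l in T, ENNReal.ofReal (r l ^ dn V) ≤ ENNReal.ofReal W → 0 < N →
      2 * ∫ y, ‖f y‖ ^ 2 ≤ N → N ≤ N0 * M ^ 2 →
      ∫⁻ l in T, ∫⁻ ξ in Metric.ball (c l) (r l), ‖Fx f l ξ‖ₑ ^ 2 ≤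
        ENNReal.ofReal (C * (N * (M ^ 2 * W / N) ^ α)) := by
  have hα0 : 0 < α := lt_of_le_of_lt (by have := dn_nonneg (V := V); positivity) hα
  obtain ⟨C, hC0, hC⟩ := one_radius hn (ρ := ρ) hα hα1 hN0
  set ω := (volume (Metric.ball (0 : V) 1)).toReal with hω
  have hωt : volume (Metric.ball (0 : V) 1) ≠ ∞ := Metric.isBounded_ball.measure_lt_top.ne
  have hω0 : 0 < ω := ENNReal.toReal_pos (Metric.measure_ball_pos volume _ one_pos).ne' hωt
  set E := Real.exp (ρ ^ 2) with hE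
  have hE0 : 0 < E := Real.exp_pos _
  refine ⟨2 * ω * C * E ^ 2, by positivity, ?_⟩
  intro f hf M hM0 hM hρ r c hr hc T hT hr0 hr1 W N hW hWT hN hNf hNN
  have hft := ft_integrable hf hρ
  have i2 : ∀ h : V → ℂ, Integrable h → ∀ B : ℝ, (∀ x, ‖h x‖ ≤ B) →
      Integrable (fun y => ‖h y‖ ^ 2) := by
    intro h hh B hB
    have h' : Integrable (fun y => ‖h y‖ * ‖h y‖) := by
      refine hh.norm.mul_bdd (c := B) hh.norm.aestronglyMeasurable
        (Filter.Eventually.of_forall fun y => ?_)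
      rw [norm_norm]
      exact hB y
    exact h'.congr (Filter.Eventually.of_forall fun y => (sq _).symm)
  have hM' : ∀ x, ‖ft f x‖ ≤ E * M := fun x =>
    (ft_norm hρ x).trans (mul_le_mul_of_nonneg_left (hM x) hE0.le)
  have hN' : 2 * ∫ y, ‖ft f y‖ ^ 2 ≤ E ^ 2 * N := by
    have h1 : ∫ y, ‖ft f y‖ ^ 2 ≤ ∫ y, E ^ 2 * ‖f y‖ ^ 2 := by
      refine integral_mono (i2 _ hft _ hM') ((i2 f hf M hM).const_mul _) fun y => ?_
      have := pow_le_pow_left₀ (norm_nonneg _) (ft_norm hρ y) 2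
      simpa only [mul_pow] using this
    rw [integral_const_mul] at h1
    have h2 : 0 ≤ E ^ 2 := by positivity
    nlinarith
  have h1 := hC (ft f) hft (E * M) (by positivity) hM' (ft_supp hρ) c hc (E ^ 2 * N)
    (by positivity) hN' (by
      calc E ^ 2 * N ≤ E ^ 2 * (N0 * M ^ 2) := by gcongr
        _ = N0 * (E * M) ^ 2 := by ring)
  have e2 : (E * M) ^ 2 / (E ^ 2 * N) = M ^ 2 / N := by
    field_simp
  rw [e2] at h1
  have mg : Measurable (fun l => ENNReal.ofReal (El (ft f) 1 (c l) l)) :=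
    ((El_meas hft measurable_const hc).measurable).ennreal_ofReal
  have hrw : Measurable (fun l => r l ^ dn V) := hr.pow_const _
  have h2 := layer hT hrw
    (fun l hl => Real.rpow_le_one (hr0 l hl).le (hr1 l hl) dn_nonneg) mg hα0 hα1 h1
  have h3 : ∫⁻ l in T, ∫⁻ ξ in Metric.ball (c l) (r l), ‖Fx f l ξ‖ₑ ^ 2 ≤
      ∫⁻ l in T, ENNReal.ofReal (2 * ω) *
        (ENNReal.ofReal (r l ^ dn V) * ENNReal.ofReal (El (ft f) 1 (c l) l)) := by
    refine setLIntegral_mono' hT fun l hl => ?_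
    refine (ball_small hft (hr1 l hl) (c l) l).trans (le_of_eq ?_)
    have hr := hr0 l hl
    rw [Measure.addHaar_ball_of_pos _ _ hr]
    have e3 : r l ^ Module.finrank ℝ V = r l ^ dn V := by
      rw [← Real.rpow_natCast]; rfl
    have e4 : volume (Metric.ball (0 : V) 1) = ENNReal.ofReal ω := by
      rw [hω, ENNReal.ofReal_toReal hωt]
    rw [e3, e4, ENNReal.ofReal_mul (by norm_num : (0 : ℝ) ≤ 2),
      ENNReal.ofReal_mul (by norm_num : (0 : ℝ) ≤ 2)]
    ring
  refine h3.trans ?_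
  rw [lintegral_const_mul' _ _ ENNReal.ofReal_ne_top]
  calc _ ≤ ENNReal.ofReal (2 * ω) * (ENNReal.ofReal (C * (E ^ 2 * N * (M ^ 2 / N) ^ α)) *
          (ENNReal.ofReal W) ^ α) := by
        gcongr
        refine h2.trans ?_
        gcongr
    _ = _ := by
        rw [ENNReal.ofReal_rpow_of_pos hW, ← ENNReal.ofReal_mul (by positivity),
          ← ENNReal.ofReal_mul (by positivity)]
        congr 1
        have : M ^ 2 * W / N = M ^ 2 / N * W := by ring
        rw [this, Real.mul_rpow (by positivity) hW.le]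
        ring

end Pool.Agent.U571.BS
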