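import Pool.Agent.U571.BS.Jens

/-!
# The main estimate for the extension operator of the paraboloid over ball slices
-/

set_option autoImplicit false
set_option linter.unusedSectionVars false

namespace Pool.Agent.U571.BS

open MeasureTheory Complex Set
open scoped Real ENNReal RealInnerProductSpace ComplexConjugate

variable {V : Type*} [NormedAddCommGroup V] [InnerProductSpace ℝ V] [FiniteDimensional ℝ V]
  [MeasurableSpace V] [BorelSpace V]

/-- admissible exponents: `α = 1 - 2 / q` -/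
def Adm (n α : ℝ) : Prop := (2 ≤ n ∧ 1 / (n + 1) < α ∧ α ≤ 1) ∨ (3 ≤ n ∧ 1 / (n + 1) ≤ α ∧ α ≤ 1)

lemma Adm.pos {n α : ℝ} (h : Adm n α) : 0 < α := by
  rcases h with h | h
  · exact lt_of_le_of_lt (by have := h.1; positivity) h.2.1
  · exact lt_of_lt_of_le (by have := h.1; positivity) h.2.1

lemma Adm.le_one {n α : ℝ} (h : Adm n α) : α ≤ 1 := by
  rcases h with h | h <;> exact h.2.2

/-- all radii -/
theorem balls_all {α ρ N0 : ℝ} (hA : Adm (dn V) α) (hN0 : 0 ≤ N0) :
    ∃ C : ℝ, 0 < C ∧ ∀ f : V → ℂ, Integrable f → ∀ M : ℝ, 0 < M → (∀ x, ‖f x‖ ≤ M) →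
      (∀ x, f x ≠ 0 → ‖x‖ ≤ ρ) → ∀ (r : ℝ → ℝ) (c : ℝ → V), Measurable r → Measurable c →
      ∀ T : Set ℝ, MeasurableSet T → (∀ l ∈ T, 0 < r l) → ∀ W N : ℝ, 0 < W →
      ∫⁻ l in T, ENNReal.ofReal (r l ^ dn V) ≤ ENNReal.ofReal W → 0 < N →
      2 * ∫ y, ‖f y‖ ^ 2 ≤ N → N ≤ N0 * M ^ 2 →
      ∫⁻ l in T, ∫⁻ ξ in Metric.ball (c l) (r l), ‖Fx f l ξ‖ₑ ^ 2 ≤
        ENNReal.ofReal (C * (N * (M ^ 2 * W / N) ^ α)) := by
  rcases hA with ⟨h2, hα, hα1⟩ | ⟨h3, hα, hα1⟩
  · obtain ⟨C1, hC1, H1⟩ := els_pow_low h2 (ρ := ρ) hα hα1 hN0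
    obtain ⟨C2, hC2, H2⟩ := small_radii h2 (ρ := ρ) hα hα1 hN0
    refine ⟨2 * C1 + C2, by positivity, ?_⟩
    intro f hf M hM0 hM hρ r c hr hc T hT hr0 W N hW hWT hN hNf hNN
    have m1 : MeasurableSet (T ∩ {l | 1 ≤ r l}) :=
      hT.inter (measurableSet_le measurable_const hr)
    have m2 : MeasurableSet (T ∩ {l | r l ≤ 1}) :=
      hT.inter (measurableSet_le hr measurable_const)
    have hsub : T ⊆ (T ∩ {l | 1 ≤ r l}) ∪ (T ∩ {l | r l ≤ 1}) := by
      intro l hl
      rcases le_total 1 (r l) with h | h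
      · exact Or.inl ⟨hl, h⟩
      · exact Or.inr ⟨hl, h⟩
    refine (lintegral_mono_set hsub).trans ((lintegral_union_le _ _ _).trans ?_)
    have e1 := H1 f hf M hM0 hM hρ r c hr hc _ m1 (fun l hl => hl.2) W N hW
      ((lintegral_mono_set inter_subset_left).trans hWT) hN hNf hNN
    have e2 := H2 f hf M hM0 hM hρ r c hr hc _ m2 (fun l hl => hr0 l hl.1)
      (fun l hl => hl.2) W N hW
      ((lintegral_mono_set inter_subset_left).trans hWT) hN hNf hNN
    have e3 := els_to_balls hf (c := c) m1 (fun l hl => hr0 l hl.1)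
    calc _ ≤ 2 * ENNReal.ofReal (C1 * (N * (M ^ 2 * W / N) ^ α)) +
          ENNReal.ofReal (C2 * (N * (M ^ 2 * W / N) ^ α)) := by
          refine add_le_add (e3.trans ?_) e2
          gcongr
      _ = _ := by
          rw [← ENNReal.ofReal_ofNat, ← ENNReal.ofReal_mul (by norm_num),
            ← ENNReal.ofReal_add (by positivity) (by positivity)]
          congr 1
          ring
  · obtain ⟨C1, hC1, H1⟩ := els_pow_high h3 (ρ := ρ) hα hα1 hN0
    refine ⟨2 * C1, by positivity, ?_⟩
    intro f hf M hM0 hM hρ r c hr hc T hT hr0 W N hW hWT hN hNf hNN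
    have e1 := H1 f hf M hM0 hM hρ r c hr hc _ hT hr0 W N hW hWT hN hNf hNN
    refine (els_to_balls hf (c := c) hT hr0).trans ?_
    calc _ ≤ 2 * ENNReal.ofReal (C1 * (N * (M ^ 2 * W / N) ^ α)) := by gcongr
      _ = _ := by
          rw [← ENNReal.ofReal_ofNat, ← ENNReal.ofReal_mul (by norm_num)]
          congr 1
          ring

/-- a good representative -/
lemma good_rep {U : Set V} (hU : MeasurableSet U) {f : V → ℂ}
    (hf : MemLp f ∞ (volume.restrict U)) :
    ∃ g : V → ℂ, Measurable g ∧ (∀ x, ‖g x‖ ≤ (eLpNorm f ∞ (volume.restrict U)).toReal) ∧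
      (∀ x, x ∉ U → g x = 0) ∧ g =ᵐ[volume.restrict U] f := by
  set M := (eLpNorm f ∞ (volume.restrict U)).toReal with hM
  obtain ⟨f', hf', hff'⟩ := hf.1
  set B : Set V := U ∩ {x | ‖f' x‖ ≤ M} with hB
  have mB : MeasurableSet B := hU.inter (measurableSet_le hf'.measurable.norm measurable_const)
  refine ⟨B.indicator f', hf'.measurable.indicator mB, ?_, ?_, ?_⟩
  · intro x
    by_cases hx : x ∈ B
    · rw [indicator_of_mem hx]
      exact hx.2
    · rw [indicator_of_notMem hx, norm_zero]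
      exact ENNReal.toReal_nonneg
  · intro x hx
    exact indicator_of_notMem (fun h => hx h.1) _
  · have h1 : ∀ᵐ x ∂(volume.restrict U), ‖f x‖ₑ ≤ eLpNorm f ∞ (volume.restrict U) := by
      rw [eLpNorm_exponent_top]
      exact enorm_ae_le_eLpNormEssSup f _
    have h2 : ∀ᵐ x ∂(volume.restrict U), x ∈ U := ae_restrict_mem hU
    filter_upwards [h1, h2, hff'] with x hx1 hx2 hx3
    have h3 : x ∈ B := by
      refine ⟨hx2, ?_⟩
      change ‖f' x‖ ≤ M
      rw [← hx3, hM, ← toReal_enorm]
      exact ENNReal.toReal_mono hf.2.ne hx1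
    rw [indicator_of_mem h3, hx3]

/-- the extension operator over a set `U` -/
noncomputable def FU (U : Set V) (f : V → ℂ) (l : ℝ) (ξ : V) : ℂ := ∫ x in U, f x * ph l x ξ

lemma FU_eq {U : Set V} {f g : V → ℂ}
    (h1 : ∀ x, x ∉ U → g x = 0) (h2 : g =ᵐ[volume.restrict U] f) (l : ℝ) (ξ : V) :
    FU U f l ξ = Fx g l ξ := by
  unfold FU Fx
  rw [← setIntegral_eq_integral_of_forall_compl_eq_zero (s := U) (f := fun x => g x * ph l x ξ)
    fun x hx => by rw [h1 x hx, zero_mul]]
  exact integral_congr_ae (h2.mono fun x hx => by simp only [hx])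

/-- the measure of the set with ball slices -/
noncomputable def vb (T : Set ℝ) (c : ℝ → V) (r : ℝ → ℝ) : ℝ≥0∞ :=
  ∫⁻ l in T, volume (Metric.ball (c l) (r l))

/-- **Main theorem.** -/
theorem main_U {α : ℝ} (ρ : ℝ) (hA : Adm (dn V) α) :
    ∃ C : ℝ, 0 < C ∧ ∀ U : Set V, MeasurableSet U → U ⊆ Metric.closedBall 0 ρ →
      ∀ f : V → ℂ, MemLp f ∞ (volume.restrict U) →
      ∀ (T : Set ℝ) (c : ℝ → V) (r : ℝ → ℝ), MeasurableSet T → Measurable c → Measurable r →
      ∫⁻ l in T, ∫⁻ ξ in Metric.ball (c l) (r l), ‖FU U f l ξ‖ₑ ^ 2 ≤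
        ENNReal.ofReal C * vb T c r ^ α * eLpNorm f ∞ (volume.restrict U) ^ (2 * α) *
          eLpNorm f 2 (volume.restrict U) ^ (2 * (1 - α)) := by
  have hα0 := hA.pos
  have hα1 := hA.le_one
  have hn0 : Nontrivial V := by
    have h2 : 2 ≤ dn V := by
      rcases hA with h | h <;> linarith [h.1]
    have : 0 < Module.finrank ℝ V := by
      rcases Nat.eq_zero_or_pos (Module.finrank ℝ V) with h | h
      · exfalso
        unfold dn at h2
        rw [h] at h2
        norm_num at h2
      · exact h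
    exact Module.nontrivial_of_finrank_pos this
  set ω := (volume (Metric.closedBall (0 : V) ρ)).toReal with hω
  have hω0 : 0 ≤ ω := ENNReal.toReal_nonneg
  have hωt : volume (Metric.closedBall (0 : V) ρ) ≠ ∞ :=
    (isCompact_closedBall _ _).measure_lt_top.ne
  obtain ⟨C, hC0, HC⟩ := balls_all (V := V) (α := α) (ρ := ρ) (N0 := 2 * ω) hA (by positivity)
  set κ := (volume (Metric.ball (0 : V) 1)).toReal with hκ
  have hκt : volume (Metric.ball (0 : V) 1) ≠ ∞ := Metric.isBounded_ball.measure_lt_top.ne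
  have hκ0 : 0 < κ := ENNReal.toReal_pos (Metric.measure_ball_pos volume _ one_pos).ne' hκt
  refine ⟨C * 2 ^ (1 - α) * (κ⁻¹) ^ α, by positivity, ?_⟩
  intro U hU hUρ f hf T c r hT hc hr
  obtain ⟨g, mg, hgM, hgU, hgf⟩ := good_rep hU hf
  have hFU : ∀ l ξ, FU U f l ξ = Fx g l ξ := FU_eq hgU hgf
  simp only [hFU]
  set M := (eLpNorm f ∞ (volume.restrict U)).toReal with hM
  have hME : eLpNorm f ∞ (volume.restrict U) = ENNReal.ofReal M := by
    rw [hM, ENNReal.ofReal_toReal hf.2.ne]
  have hvU : volume U ≠ ∞ := ne_top_of_le_ne_top hωt (measure_mono hUρ)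
  have : IsFiniteMeasure (volume.restrict U) :=
    ⟨by rw [Measure.restrict_apply_univ]; exact hvU.lt_top⟩
  have hgρ : ∀ x, g x ≠ 0 → ‖x‖ ≤ ρ := by
    intro x hx
    have : x ∈ U := by
      by_contra h
      exact hx (hgU x h)
    exact mem_closedBall_zero_iff.1 (hUρ this)
  have hg : Integrable g := by
    have h1 : IntegrableOn g U := by
      refine Integrable.of_bound mg.aestronglyMeasurable M
        (Filter.Eventually.of_forall fun x => hgM x)
    rw [← integrableOn_univ]
    refine (integrableOn_iff_integrable_of_support_subset ?_).1 h1 |>.integrableOn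
    intro x hx
    by_contra h
    exact hx (hgU x h)
  -- the `L²` norm
  have hL2 : eLpNorm f 2 (volume.restrict U) ^ (2 : ℝ) = ENNReal.ofReal (∫ y, ‖g y‖ ^ 2) := by
    rw [← eLpNorm_congr_ae hgf]
    have e1 : eLpNorm g 2 (volume.restrict U) = eLpNorm g 2 volume := by
      rw [← eLpNorm_indicator_eq_eLpNorm_restrict hU]
      congr 1
      ext x
      by_cases hx : x ∈ U
      · rw [indicator_of_mem hx]
      · rw [indicator_of_notMem hx, hgU x hx]
    rw [e1, eLpNorm_eq_lintegral_rpow_enorm_toReal (by norm_num) (by norm_num),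
      ← ENNReal.rpow_mul]
    norm_num
    rw [ofReal_integral_eq_lintegral_ofReal]
    · refine lintegral_congr fun x => ?_
      rw [ENNReal.ofReal_pow (norm_nonneg _), ofReal_norm]
    · have h' : Integrable (fun y => ‖g y‖ * ‖g y‖) := by
        refine hg.norm.mul_bdd (c := M) hg.norm.aestronglyMeasurable
          (Filter.Eventually.of_forall fun y => ?_)
        rw [norm_norm]
        exact hgM y
      exact h'.congr (Filter.Eventually.of_forall fun y => (sq _).symm)
    · exact Filter.Eventually.of_forall fun y => by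
        simp only [Pi.zero_apply]
        positivity
  set S := ∫ y, ‖g y‖ ^ 2 with hS
  have hS0 : 0 ≤ S := integral_nonneg fun y => by positivity
  have hL2' : eLpNorm f 2 (volume.restrict U) ^ (2 * (1 - α)) =
      ENNReal.ofReal S ^ (1 - α) := by
    rw [ENNReal.rpow_mul, hL2]
  rw [hL2', hME]
  -- restrict to positive radii
  have hsplit : ∫⁻ l in T, ∫⁻ ξ in Metric.ball (c l) (r l), ‖Fx g l ξ‖ₑ ^ 2 =
      ∫⁻ l in T ∩ {l | 0 < r l}, ∫⁻ ξ in Metric.ball (c l) (r l), ‖Fx g l ξ‖ₑ ^ 2 := by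
    have mp : MeasurableSet {l | 0 < r l} := measurableSet_lt measurable_const hr
    rw [inter_comm, ← Measure.restrict_restrict mp, ← lintegral_indicator mp]
    refine lintegral_congr fun l => ?_
    by_cases hl : 0 < r l
    · rw [indicator_of_mem (by exact hl)]
    · rw [indicator_of_notMem (by exact hl), Metric.ball_eq_empty.2 (not_lt.1 hl)]
      simp
  rw [hsplit]
  have mT' : MeasurableSet (T ∩ {l | 0 < r l}) :=
    hT.inter (measurableSet_lt measurable_const hr)
  have hvb : ∫⁻ l in T ∩ {l | 0 < r l}, ENNReal.ofReal (r l ^ dn V) * ENNReal.ofReal κ ≤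
      vb T c r := by
    unfold vb
    refine le_trans (le_of_eq ?_) (lintegral_mono_set (inter_subset_left (t := {l | 0 < r l})))
    refine setLIntegral_congr_fun mT' fun l hl => ?_
    have hrl : 0 < r l := hl.2
    rw [Measure.addHaar_ball_of_pos _ _ hrl]
    have e3 : r l ^ Module.finrank ℝ V = r l ^ dn V := by
      rw [← Real.rpow_natCast]; rfl
    rw [e3, hκ, ENNReal.ofReal_toReal hκt]
  rw [lintegral_mul_const' _ _ ENNReal.ofReal_ne_top] at hvb
  -- cases
  rcases eq_or_lt_of_le hS0 with hSz | hSpos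
  · have hg0 : g =ᵐ[volume] 0 := by
      have h' : Integrable (fun y => ‖g y‖ ^ 2) := by
        have h' : Integrable (fun y => ‖g y‖ * ‖g y‖) := by
          refine hg.norm.mul_bdd (c := M) hg.norm.aestronglyMeasurable
            (Filter.Eventually.of_forall fun y => ?_)
          rw [norm_norm]
          exact hgM y
        exact h'.congr (Filter.Eventually.of_forall fun y => (sq _).symm)
      have h2 := (integral_eq_zero_iff_of_nonneg (fun y => by positivity) h').1 hSz.symm
      filter_upwards [h2] with y hy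
      simpa using hy
    have hF0 : ∀ l ξ, Fx g l ξ = 0 := by
      intro l ξ
      unfold Fx
      rw [integral_congr_ae (g := fun _ => 0) (hg0.mono fun y hy => by simp [hy])]
      simp
    simp only [hF0, enorm_zero, ne_eq, OfNat.ofNat_ne_zero, not_false_eq_true, zero_pow,
      lintegral_zero]
    exact zero_le
  have hMpos : 0 < M := by
    rcases eq_or_lt_of_le (ENNReal.toReal_nonneg : 0 ≤ (eLpNorm f ∞ (volume.restrict U)).toReal)
      with h | h
    · exfalso
      have : ∀ x, g x = 0 := by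
        intro x
        have h2 := hgM x
        rw [hM, ← h] at h2
        exact norm_le_zero_iff.1 h2
      have : S = 0 := by
        rw [hS]
        simp [this]
      linarith
    · exact h
  have hSω : S ≤ ω * M ^ 2 := by
    have h1 : S = ∫ y in Metric.closedBall (0 : V) ρ, ‖g y‖ ^ 2 := by
      rw [hS, setIntegral_eq_integral_of_forall_compl_eq_zero]
      intro x hx
      by_contra h
      refine hx ?_
      rw [mem_closedBall_zero_iff]
      exact hgρ x fun h' => h (by rw [h']; simp)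
    rw [h1]
    have h2 : ‖∫ y in Metric.closedBall (0 : V) ρ, ‖g y‖ ^ 2‖ ≤
        M ^ 2 * (volume.real (Metric.closedBall (0 : V) ρ)) := by
      refine norm_setIntegral_le_of_norm_le_const hωt.lt_top fun x _ => ?_
      rw [Real.norm_eq_abs, abs_of_nonneg (by positivity)]
      exact pow_le_pow_left₀ (norm_nonneg _) (hgM x) 2
    have h3 := (Real.le_norm_self _).trans h2
    rw [mul_comm]
    exact h3
  set N := 2 * S with hN
  have hNpos : 0 < N := by positivity
  -- the weight
  set X := ∫⁻ l in T ∩ {l | 0 < r l}, ENNReal.ofReal (r l ^ dn V) with hX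
  rcases eq_or_ne X 0 with hX0 | hX0
  · have h1 : volume (T ∩ {l | 0 < r l}) = 0 := by
      have mX : Measurable (fun l => ENNReal.ofReal (r l ^ dn V)) :=
        (hr.pow_const _).ennreal_ofReal
      have h2 := (lintegral_eq_zero_iff mX).1 hX0
      have h3 : ∀ᵐ l ∂(volume.restrict (T ∩ {l | 0 < r l})), False := by
        filter_upwards [h2, ae_restrict_mem mT'] with l hl1 hl2
        have h4 : 0 < r l ^ dn V := Real.rpow_pos_of_pos hl2.2 _
        simp only [Pi.zero_apply, ENNReal.ofReal_eq_zero] at hl1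
        linarith
      rw [Filter.eventually_false_iff_eq_bot, ae_eq_bot, Measure.restrict_eq_zero] at h3
      exact h3
    rw [setLIntegral_measure_zero _ _ h1]
    exact zero_le
  have hc2 : 0 < C * 2 ^ (1 - α) * κ⁻¹ ^ α := by positivity
  rcases eq_or_ne X ∞ with hX1 | hX1
  · have hv : vb T c r = ∞ := by
      rw [hX1, ENNReal.top_mul] at hvb
      · exact top_le_iff.1 hvb
      · rw [Ne, ENNReal.ofReal_eq_zero, not_le]
        exact hκ0
    rw [hv, ENNReal.top_rpow_of_pos hα0]
    have p1 : ENNReal.ofReal (C * 2 ^ (1 - α) * κ⁻¹ ^ α) ≠ 0 := by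
      rw [Ne, ENNReal.ofReal_eq_zero, not_le]
      exact hc2
    have p2 : ENNReal.ofReal M ^ (2 * α) ≠ 0 := by
      rw [ENNReal.ofReal_rpow_of_pos hMpos, Ne, ENNReal.ofReal_eq_zero, not_le]
      positivity
    have p3 : ENNReal.ofReal S ^ (1 - α) ≠ 0 := by
      rw [ENNReal.ofReal_rpow_of_pos hSpos, Ne, ENNReal.ofReal_eq_zero, not_le]
      positivity
    rw [ENNReal.mul_top p1, ENNReal.top_mul p2, ENNReal.top_mul p3]
    exact le_top
  set W := X.toReal with hW
  have hWpos : 0 < W := ENNReal.toReal_pos hX0 hX1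
  have hXW : X = ENNReal.ofReal W := by rw [hW, ENNReal.ofReal_toReal hX1]
  have h := HC g hg M hMpos hgM hgρ r c hr hc _ mT' (fun l hl => hl.2) W N hWpos
    (by rw [← hX, hXW]) hNpos le_rfl (by rw [hN]; nlinarith)
  refine h.trans ?_
  have hWv : ENNReal.ofReal (W * κ) ≤ vb T c r := by
    rw [ENNReal.ofReal_mul hWpos.le, ← hXW]
    exact hvb
  have h5 : ENNReal.ofReal ((W * κ) ^ α) ≤ vb T c r ^ α := by
    rw [← ENNReal.ofReal_rpow_of_pos (by positivity)]
    exact ENNReal.rpow_le_rpow hWv hα0.le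
  calc ENNReal.ofReal (C * (N * (M ^ 2 * W / N) ^ α))
      = ENNReal.ofReal (C * 2 ^ (1 - α) * κ⁻¹ ^ α) * ENNReal.ofReal ((W * κ) ^ α) *
          ENNReal.ofReal M ^ (2 * α) * ENNReal.ofReal S ^ (1 - α) := by
        rw [ENNReal.ofReal_rpow_of_pos hMpos, ENNReal.ofReal_rpow_of_pos hSpos,
          ← ENNReal.ofReal_mul (by positivity), ← ENNReal.ofReal_mul (by positivity),
          ← ENNReal.ofReal_mul (by positivity)]
        congr 1
        have e1 : (M ^ 2 * W / N) ^ α = M ^ (2 * α) * W ^ α * N ^ (-α) := by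
          rw [div_eq_mul_inv, Real.mul_rpow (by positivity) (by positivity),
            Real.mul_rpow (by positivity) (by positivity), Real.inv_rpow (by positivity),
            ← Real.rpow_neg (by positivity), ← Real.rpow_natCast M 2,
            ← Real.rpow_mul (by positivity)]
          norm_cast
        have e2 : N * N ^ (-α) = 2 ^ (1 - α) * S ^ (1 - α) := by
          rw [← Real.mul_rpow (by norm_num) hSpos.le, ← hN]
          have : (1 - α) = 1 + (-α) := by ring
          rw [this, Real.rpow_add hNpos, Real.rpow_one]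
        have e3 : (W * κ) ^ α = W ^ α * κ ^ α := Real.mul_rpow hWpos.le hκ0.le
        have e4 : κ⁻¹ ^ α * κ ^ α = 1 := by
          rw [← Real.mul_rpow (by positivity) hκ0.le, inv_mul_cancel₀ hκ0.ne', Real.one_rpow]
        calc C * (N * (M ^ 2 * W / N) ^ α) = C * (N * N ^ (-α)) * M ^ (2 * α) * W ^ α := by
              rw [e1]; ring
          _ = C * 2 ^ (1 - α) * (κ⁻¹ ^ α * κ ^ α) * W ^ α * M ^ (2 * α) * S ^ (1 - α) := by
              rw [e2, e4]; ring
          _ = _ := by rw [e3]; ring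
    _ ≤ _ := by gcongr

end Pool.Agent.U571.BS
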