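import Pool.Agent.U571.BS.Basic

set_option autoImplicit false
set_option linter.unusedSectionVars false

namespace Pool.Agent.U571.BS

open MeasureTheory Complex Set
open scoped Real ENNReal RealInnerProductSpace ComplexConjugate

variable {V : Type*} [NormedAddCommGroup V] [InnerProductSpace ℝ V] [FiniteDimensional ℝ V]
  [MeasurableSpace V] [BorelSpace V]

lemma f_ph_integrable {f : V → ℂ} (hf : Integrable f) (l : ℝ) (ξ : V) :
    Integrable (fun x => f x * ph l x ξ) := by
  refine hf.mul_bdd (c := 1) ?_ ?_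
  · exact (Continuous.aestronglyMeasurable (by
      exact cont_ph.comp (by fun_prop : Continuous fun x : V => ((l, x, ξ) : ℝ × V × V))))
  · exact Filter.Eventually.of_forall fun x => (norm_ph l x ξ).le

lemma Fx_bound (f : V → ℂ) (l : ℝ) (ξ : V) : ‖Fx f l ξ‖ ≤ ∫ x, ‖f x‖ := by
  unfold Fx
  refine (norm_integral_le_integral_norm _).trans (le_of_eq ?_)
  refine integral_congr_ae (Filter.Eventually.of_forall fun x => ?_)
  simp only [norm_mul, norm_ph, mul_one]

lemma Fx_cont {f : V → ℂ} (hf : Integrable f) : Continuous (fun z : ℝ × V => Fx f z.1 z.2) := by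
  unfold Fx
  refine continuous_of_dominated (bound := fun x => ‖f x‖) ?_ ?_ hf.norm ?_
  · exact fun z => (f_ph_integrable hf z.1 z.2).aestronglyMeasurable
  · intro z
    refine Filter.Eventually.of_forall fun x => ?_
    rw [norm_mul, norm_ph, mul_one]
  · refine Filter.Eventually.of_forall fun x => ?_
    refine continuous_const.mul ?_
    exact cont_ph.comp (by fun_prop : Continuous fun z : ℝ × V => ((z.1, x, z.2) : ℝ × V × V))

lemma cont_wt (a : ℝ) (c : V) : Continuous (wt a c) := by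
  unfold wt; fun_prop

lemma cont_Fx {f : V → ℂ} (hf : Integrable f) (l : ℝ) : Continuous (Fx f l) :=
  (Fx_cont hf).comp (by fun_prop : Continuous fun ξ : V => ((l, ξ) : ℝ × V))

lemma cont_ph_y (l : ℝ) (y : V) : Continuous (fun ξ : V => ph l y ξ) :=
  cont_ph.comp (by fun_prop : Continuous fun ξ : V => ((l, y, ξ) : ℝ × V × V))

lemma cont_ph_l (l : ℝ) (ξ : V) : Continuous (fun y : V => ph l y ξ) :=
  cont_ph.comp (by fun_prop : Continuous fun y : V => ((l, y, ξ) : ℝ × V × V))

/-- `w F` is integrable -/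
lemma wF_integrable {f : V → ℂ} (hf : Integrable f) {a : ℝ} (ha : 0 < a) (c : V) (l : ℝ) :
    Integrable (fun ξ => (wt a c ξ : ℂ) * Fx f l ξ) := by
  refine Integrable.mul_bdd (c := ∫ x, ‖f x‖) (wt_integrable ha c).ofReal
    (cont_Fx hf l).aestronglyMeasurable (Filter.Eventually.of_forall fun ξ => Fx_bound f l ξ)

lemma El_integrable {f : V → ℂ} (hf : Integrable f) {a : ℝ} (ha : 0 < a) (c : V) (l : ℝ) :
    Integrable (fun ξ => wt a c ξ * ‖Fx f l ξ‖ ^ 2) := by
  refine Integrable.mul_bdd (c := (∫ x, ‖f x‖) ^ 2) (wt_integrable ha c)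
    ((cont_Fx hf l).norm.pow 2).aestronglyMeasurable (Filter.Eventually.of_forall fun ξ => ?_)
  rw [norm_pow, norm_norm]
  exact pow_le_pow_left₀ (norm_nonneg _) (Fx_bound f l ξ) 2

lemma El_nonneg (f : V → ℂ) (a : ℝ) (c : V) (l : ℝ) : 0 ≤ El f a c l :=
  integral_nonneg fun ξ => mul_nonneg (wt_pos a c ξ).le (by positivity)

lemma Pf_bound (f : V → ℂ) {a : ℝ} (ha : 0 < a) (c : V) (l : ℝ) (y : V) :
    ‖Pf f a c l y‖ ≤ (4 * π * a) ^ (dn V / 2) * ∫ x, ‖f x‖ := by
  unfold Pf
  refine (norm_integral_le_integral_norm _).trans ?_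
  rw [← wt_int ha c, ← integral_mul_const]
  refine integral_mono_of_nonneg (Filter.Eventually.of_forall fun ξ => norm_nonneg _)
    ((wt_integrable ha c).mul_const _) (Filter.Eventually.of_forall fun ξ => ?_)
  simp only
  rw [norm_mul, norm_mul, norm_conj_ph, mul_one, Complex.norm_real, Real.norm_eq_abs,
    abs_of_pos (wt_pos a c ξ)]
  exact mul_le_mul_of_nonneg_left (Fx_bound f l ξ) (wt_pos a c ξ).le

/-- duality -/
lemma duality {f : V → ℂ} (hf : Integrable f) {a : ℝ} (ha : 0 < a) (c : V) (l : ℝ) :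
    ∫ y, Pf f a c l y * conj (f y) = (El f a c l : ℂ) := by
  unfold Pf
  have h1 : ∀ y, (∫ ξ, (wt a c ξ : ℂ) * Fx f l ξ * conj (ph l y ξ)) * conj (f y) =
      ∫ ξ, (wt a c ξ : ℂ) * Fx f l ξ * conj (f y * ph l y ξ) := by
    intro y
    rw [← integral_mul_const]
    refine integral_congr_ae (Filter.Eventually.of_forall fun ξ => ?_)
    simp only [map_mul]
    ring
  simp only [h1]
  rw [integral_integral_swap]
  · unfold El
    have h9 : ((∫ ξ, wt a c ξ * ‖Fx f l ξ‖ ^ 2 : ℝ) : ℂ) =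
        ∫ ξ, ((wt a c ξ * ‖Fx f l ξ‖ ^ 2 : ℝ) : ℂ) :=
      (integral_ofReal (𝕜 := ℂ) (f := fun ξ => wt a c ξ * ‖Fx f l ξ‖ ^ 2) (μ := volume)).symm
    rw [h9]
    refine integral_congr_ae (Filter.Eventually.of_forall fun ξ => ?_)
    simp only
    rw [integral_const_mul, integral_conj]
    have : (∫ a, f a * ph l a ξ) = Fx f l ξ := rfl
    rw [this, mul_assoc, Complex.mul_conj, Complex.normSq_eq_norm_sq]
    push_cast
    ring
  · have h2 : Integrable (fun z : V × V => (starRingEnd ℂ) (f z.1) *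
        ((wt a c z.2 : ℂ) * Fx f l z.2)) := by
      refine Integrable.mul_prod (f := fun y => conj (f y))
        (g := fun ξ => (wt a c ξ : ℂ) * Fx f l ξ) ?_ (wF_integrable hf ha c l)
      exact (Complex.conjCLE.toContinuousLinearMap.integrable_comp hf)
    have h3 : Integrable (fun z : V × V => (starRingEnd ℂ) (f z.1) *
        ((wt a c z.2 : ℂ) * Fx f l z.2) * conj (ph l z.1 z.2)) := by
      refine h2.mul_bdd (c := 1) ?_ (Filter.Eventually.of_forall fun z => (norm_conj_ph l _ _).le)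
      refine Continuous.aestronglyMeasurable ?_
      exact Complex.continuous_conj.comp (cont_ph.comp
        (by fun_prop : Continuous fun z : V × V => ((l, z.1, z.2) : ℝ × V × V)))
    refine h3.congr (Filter.Eventually.of_forall fun z => ?_)
    simp only [Function.uncurry, map_mul]
    ring

/-- the kernel -/
noncomputable def kr (a : ℝ) (c : V) (l : ℝ) (x y : V) : ℂ :=
  (((4 * π * a) ^ (dn V / 2) : ℝ) : ℂ) *
    cexp (((⟪x - y, c⟫ + l * (‖x‖ ^ 2 - ‖y‖ ^ 2) : ℝ) : ℂ) * I) *
      (Real.exp (-a * ‖x - y‖ ^ 2) : ℂ)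

lemma Pf_eq {f : V → ℂ} (hf : Integrable f) {a : ℝ} (ha : 0 < a) (c : V) (l : ℝ) (y : V) :
    Pf f a c l y = ∫ x, f x * kr a c l x y := by
  unfold Pf Fx
  have h1 : ∀ ξ, (wt a c ξ : ℂ) * (∫ x, f x * ph l x ξ) * conj (ph l y ξ) =
      ∫ x, (wt a c ξ : ℂ) * (f x * ph l x ξ) * conj (ph l y ξ) := by
    intro ξ
    rw [← integral_const_mul, ← integral_mul_const]
  simp only [h1]
  rw [integral_integral_swap]
  · refine integral_congr_ae (Filter.Eventually.of_forall fun x => ?_)
    simp only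
    unfold kr
    have h2 : ∀ ξ, (wt a c ξ : ℂ) * (f x * ph l x ξ) * conj (ph l y ξ) =
        f x * cexp (((l * (‖x‖ ^ 2 - ‖y‖ ^ 2) : ℝ) : ℂ) * I) *
          ((wt a c ξ : ℂ) * cexp (((⟪x - y, ξ⟫ : ℝ) : ℂ) * I)) := by
      intro ξ
      rw [conj_ph]
      unfold ph
      have : cexp (((⟪x, ξ⟫ + l * ‖x‖ ^ 2 : ℝ) : ℂ) * I) *
          cexp (((-(⟪y, ξ⟫ + l * ‖y‖ ^ 2) : ℝ) : ℂ) * I) =
          cexp (((l * (‖x‖ ^ 2 - ‖y‖ ^ 2) : ℝ) : ℂ) * I) *
            cexp (((⟪x - y, ξ⟫ : ℝ) : ℂ) * I) := by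
        rw [← Complex.exp_add, ← Complex.exp_add]
        congr 1
        rw [inner_sub_left]
        push_cast
        ring
      linear_combination (wt a c ξ : ℂ) * f x * this
    simp only [h2]
    rw [integral_const_mul, wt_ft ha c (x - y)]
    have : cexp (((⟪x - y, c⟫ + l * (‖x‖ ^ 2 - ‖y‖ ^ 2) : ℝ) : ℂ) * I) =
        cexp (((l * (‖x‖ ^ 2 - ‖y‖ ^ 2) : ℝ) : ℂ) * I) * cexp (((⟪x - y, c⟫ : ℝ) : ℂ) * I) := by
      rw [← Complex.exp_add]
      congr 1
      push_cast
      ring
    rw [this]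
    ring
  · have h2 : Integrable (fun z : V × V => (wt a c z.1 : ℂ) * f z.2) :=
      Integrable.mul_prod (f := fun ξ => (wt a c ξ : ℂ)) (g := f) (wt_integrable ha c).ofReal hf
    have h3 : Integrable (fun z : V × V => (wt a c z.1 : ℂ) * f z.2 *
        (ph l z.2 z.1 * conj (ph l y z.1))) := by
      refine h2.mul_bdd (c := 1) ?_ (Filter.Eventually.of_forall fun z => ?_)
      · refine Continuous.aestronglyMeasurable ?_
        refine Continuous.mul ?_ ?_
        · exact (cont_ph.comp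
            (by fun_prop : Continuous fun z : V × V => ((l, z.2, z.1) : ℝ × V × V)))
        · exact Complex.continuous_conj.comp (cont_ph.comp
            (by fun_prop : Continuous fun z : V × V => ((l, y, z.1) : ℝ × V × V)))
      · rw [norm_mul, norm_ph, norm_conj_ph, mul_one]
    refine h3.congr (Filter.Eventually.of_forall fun z => ?_)
    simp only [Function.uncurry]
    ring

end Pool.Agent.U571.BS
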