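import Pool.Agent.U571.BS.Tail

set_option autoImplicit false
set_option linter.unusedSectionVars false

namespace Pool.Agent.U571.BS

open MeasureTheory Complex Set
open scoped Real ENNReal RealInnerProductSpace ComplexConjugate

variable {V : Type*} [NormedAddCommGroup V] [InnerProductSpace ℝ V] [FiniteDimensional ℝ V]
  [MeasurableSpace V] [BorelSpace V]

/-- the final constant -/
noncomputable def C0 (p θ : ℝ) : ℝ := 2 * c1 p * (2 + θ) + √(2 * c2 p * θ)

lemma C0_nonneg {p θ : ℝ} (hθ : 0 ≤ θ) : 0 ≤ C0 p θ := by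
  unfold C0
  have := c1_pos p
  positivity

lemma N_small {f : V → ℂ} (hf : Integrable f) {M : ℝ} (hM : ∀ x, ‖f x‖ ≤ M) {ρ : ℝ}
    (hρ : ∀ x, f x ≠ 0 → ‖x‖ ≤ ρ) {ε : ℝ} (hε : 0 < ε) (h1 : ε * ρ ^ 2 ≤ 1 / 2) :
    Integrable (fun y => ‖f y‖ ^ 2 * Real.exp (ε * ‖y‖ ^ 2)) ∧
      ∫ y, ‖f y‖ ^ 2 * Real.exp (ε * ‖y‖ ^ 2) ≤ 2 * ∫ y, ‖f y‖ ^ 2 := by
  have i2 : Integrable (fun y => ‖f y‖ ^ 2) := by
    have h : Integrable (fun y => ‖f y‖ * ‖f y‖) := by
      refine hf.norm.mul_bdd (c := M) hf.norm.aestronglyMeasurable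
        (Filter.Eventually.of_forall fun y => ?_)
      rw [norm_norm]
      exact hM y
    exact h.congr (Filter.Eventually.of_forall fun y => (sq _).symm)
  have hle : ∀ y, ‖f y‖ ^ 2 * Real.exp (ε * ‖y‖ ^ 2) ≤ 2 * ‖f y‖ ^ 2 := by
    intro y
    by_cases h : f y = 0
    · rw [h]; simp
    · have h2 := hρ y h
      have h3 : ε * ‖y‖ ^ 2 ≤ 1 / 2 := by
        refine le_trans ?_ h1
        have : ‖y‖ ^ 2 ≤ ρ ^ 2 := pow_le_pow_left₀ (norm_nonneg _) h2 2
        exact mul_le_mul_of_nonneg_left this hε.le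
      have h4 : Real.exp (ε * ‖y‖ ^ 2) ≤ 2 := by
        refine (Real.exp_le_exp.2 h3).trans ?_
        have := Real.exp_one_lt_d9
        have h5 : Real.exp (1 / 2) ^ 2 = Real.exp 1 := by
          rw [← Real.exp_nat_mul]; congr 1; norm_num
        have h6 := Real.exp_pos (1 / 2)
        nlinarith
      have h7 : 0 ≤ ‖f y‖ ^ 2 := by positivity
      nlinarith
  have i3 : Integrable (fun y => ‖f y‖ ^ 2 * Real.exp (ε * ‖y‖ ^ 2)) := by
    refine (i2.const_mul 2).mono' ?_ (Filter.Eventually.of_forall fun y => ?_)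
    · refine i2.aestronglyMeasurable.mul ?_
      exact Continuous.aestronglyMeasurable (by fun_prop)
    · rw [Real.norm_eq_abs, abs_of_nonneg (by positivity)]
      exact hle y
  refine ⟨i3, ?_⟩
  rw [← integral_const_mul]
  exact integral_mono i3 (i2.const_mul 2) hle

/-- choice of `K`, real version -/
theorem opt {f : V → ℂ} (hf : Integrable f) {M : ℝ} (hM0 : 0 < M) (hM : ∀ x, ‖f x‖ ≤ M) {ρ : ℝ}
    (hρ : ∀ x, f x ≠ 0 → ‖x‖ ≤ ρ)
    {a : ℝ → ℝ} {c : ℝ → V} (ha : Measurable a)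
    (hc : Measurable c) (ha0 : ∀ l, 0 < a l) {A a0 : ℝ} {T : Set ℝ} (hT : MeasurableSet T)
    (hT' : volume T ≠ ∞) (hA : ∀ l ∈ T, a l ≤ A) (h00 : 0 < a0) (hA0 : ∀ l ∈ T, a0 ≤ a l)
    {p : ℝ} (hp : p = dn V / 2) {W N θ : ℝ} (hW : 0 < W) (hWT : ∫ l in T, a l ^ p ≤ W)
    (hN : 0 < N) (hNf : 2 * ∫ y, ‖f y‖ ^ 2 ≤ N) (hθ : 0 ≤ θ)
    (hJ : ∀ l, ∫⁻ m in T, ENNReal.ofReal (Jk p ((M ^ 2 * W / N) ^ (1 / (2 * p + 1))) (l - m)) ≤
      ENNReal.ofReal (θ * (M ^ 2 * W / N) ^ (1 / (2 * p + 1)))) :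
    ∫ l in T, El f (a l) (c l) l ≤ C0 p θ * (N * (M ^ 2 * W / N) ^ (1 / (2 * p + 1))) := by
  have hp0 : 0 ≤ p := by rw [hp]; have := dn_nonneg (V := V); positivity
  set K := (M ^ 2 * W / N) ^ (1 / (2 * p + 1)) with hK
  have hK0 : 0 < K := by rw [hK]; positivity
  -- choice of ε
  set ε := min a0 (1 / (2 * (ρ ^ 2 + 1))) with hε
  have hε0 : 0 < ε := lt_min h00 (by positivity)
  have hερ : ε * ρ ^ 2 ≤ 1 / 2 := by
    have h1 : ε ≤ 1 / (2 * (ρ ^ 2 + 1)) := min_le_right _ _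
    have h2 : ε * ρ ^ 2 ≤ 1 / (2 * (ρ ^ 2 + 1)) * ρ ^ 2 :=
      mul_le_mul_of_nonneg_right h1 (sq_nonneg _)
    refine h2.trans ?_
    rw [div_mul_eq_mul_div, div_le_iff₀ (by positivity)]
    nlinarith [sq_nonneg ρ]
  obtain ⟨hi, hint⟩ := N_small hf hM hρ hε0 hερ
  have h1 := main_K hf hM ha hc ha0 hT hT' hA hε0
    (fun l hl => (min_le_left _ _).trans (hA0 l hl)) hi hp hK0 hθ hJ (hint.trans hNf)
  refine h1.trans ?_
  have h2 : N * (2 * M ^ 2 * c2 p * K ^ (-(2 * p)) * (θ * K) * ∫ l in T, a l ^ p) ≤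
      (2 * c2 p * θ) * (N * K) ^ 2 := by
    have hc2 := c2_pos p
    have hKp : 0 < K ^ (-(2 * p)) := by positivity
    have e1 : M ^ 2 * W = N * (K ^ (2 * p) * K) := by
      have : K ^ (2 * p) * K = M ^ 2 * W / N := by
        rw [← Real.rpow_add_one hK0.ne', hK, ← Real.rpow_mul (by positivity),
          one_div_mul_cancel (by positivity), Real.rpow_one]
      rw [this]
      field_simp
    calc N * (2 * M ^ 2 * c2 p * K ^ (-(2 * p)) * (θ * K) * ∫ l in T, a l ^ p)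
        ≤ N * (2 * M ^ 2 * c2 p * K ^ (-(2 * p)) * (θ * K) * W) := by gcongr
      _ = 2 * c2 p * θ * N * K * K ^ (-(2 * p)) * (M ^ 2 * W) := by ring
      _ = 2 * c2 p * θ * (N * K) ^ 2 * (K ^ (-(2 * p)) * K ^ (2 * p)) := by rw [e1]; ring
      _ = (2 * c2 p * θ) * (N * K) ^ 2 := by
          rw [← Real.rpow_add hK0, neg_add_cancel, Real.rpow_zero, mul_one]
  have h3 : √(N * (2 * M ^ 2 * c2 p * K ^ (-(2 * p)) * (θ * K) * ∫ l in T, a l ^ p)) ≤
      √(2 * c2 p * θ) * (N * K) := by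
    refine (Real.sqrt_le_sqrt h2).trans (le_of_eq ?_)
    rw [Real.sqrt_mul (by have := c2_pos p; positivity), Real.sqrt_sq (by positivity)]
  calc _ ≤ N * (2 * c1 p * (2 + θ) * K) + √(2 * c2 p * θ) * (N * K) := by gcongr
    _ = C0 p θ * (N * K) := by unfold C0; ring

/-- mass in a ball -/
lemma ball_le {f : V → ℂ} (hf : Integrable f) {r : ℝ} (hr : 0 < r) (c : V) (l : ℝ) :
    ∫⁻ ξ in Metric.ball c r, ‖Fx f l ξ‖ₑ ^ 2 ≤ ENNReal.ofReal (2 * El f (r ^ 2) c l) := by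
  have hr2 : 0 < r ^ 2 := by positivity
  unfold El
  rw [← integral_const_mul, ofReal_integral_eq_lintegral_ofReal
    ((El_integrable hf hr2 c l).const_mul 2) (Filter.Eventually.of_forall fun ξ => by
      have := wt_pos (r ^ 2) c ξ
      simp only [Pi.zero_apply]
      positivity)]
  refine le_trans ?_ (lintegral_mono' (Measure.restrict_le_self (s := Metric.ball c r)) le_rfl)
  refine setLIntegral_mono' Metric.isOpen_ball.measurableSet fun ξ hξ => ?_
  rw [← ofReal_norm, ← ENNReal.ofReal_pow (norm_nonneg _)]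
  refine ENNReal.ofReal_le_ofReal ?_
  have h1 : 1 ≤ 2 * wt (r ^ 2) c ξ := by
    unfold wt
    rw [Metric.mem_ball, dist_eq_norm] at hξ
    have h2 : -(1 / 2 : ℝ) ≤ -(1 / (4 * r ^ 2)) * ‖ξ - c‖ ^ 2 := by
      have h3 : ‖ξ - c‖ ^ 2 ≤ r ^ 2 := pow_le_pow_left₀ (norm_nonneg _) hξ.le 2
      have h4 : 1 / (4 * r ^ 2) * ‖ξ - c‖ ^ 2 ≤ 1 / (4 * r ^ 2) * r ^ 2 :=
        mul_le_mul_of_nonneg_left h3 (by positivity)
      have h5 : 1 / (4 * r ^ 2) * r ^ 2 = 1 / 4 := by field_simp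
      rw [h5] at h4
      linarith
    have h3 := Real.exp_le_exp.2 h2
    have h4 : 1 / 2 ≤ Real.exp (-(1 / 2 : ℝ)) := by
      have := Real.add_one_le_exp (-(1 / 2 : ℝ))
      linarith
    linarith
  have h2 : 0 ≤ ‖Fx f l ξ‖ ^ 2 := by positivity
  nlinarith

/-- the bound for all measurable sets of times, Gaussian weights -/
theorem els_gen {f : V → ℂ} (hf : Integrable f) {M : ℝ} (hM0 : 0 < M) (hM : ∀ x, ‖f x‖ ≤ M)
    {ρ : ℝ} (hρ : ∀ x, f x ≠ 0 → ‖x‖ ≤ ρ)
    {r : ℝ → ℝ} {c : ℝ → V} (hr : Measurable r)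
    (hc : Measurable c) {T : Set ℝ} (hT : MeasurableSet T) (hr0 : ∀ l ∈ T, 0 < r l)
    {p : ℝ} (hp : p = dn V / 2) (hp1 : 0 < p) {W N θ : ℝ} (hW : 0 < W)
    (hWT : ∫⁻ l in T, ENNReal.ofReal (r l ^ (2 * p)) ≤ ENNReal.ofReal W)
    (hN : 0 < N) (hNf : 2 * ∫ y, ‖f y‖ ^ 2 ≤ N) (hθ : 0 ≤ θ)
    (hJ : ∀ S : Set ℝ, S ⊆ T → MeasurableSet S → volume S ≠ ∞ → ∀ l,
      ∫⁻ m in S, ENNReal.ofReal (Jk p ((M ^ 2 * W / N) ^ (1 / (2 * p + 1))) (l - m)) ≤
        ENNReal.ofReal (θ * (M ^ 2 * W / N) ^ (1 / (2 * p + 1)))) :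
    ∫⁻ l in T, ENNReal.ofReal (El f (r l ^ 2) (c l) l) ≤
      ENNReal.ofReal (C0 p θ * (N * (M ^ 2 * W / N) ^ (1 / (2 * p + 1)))) := by
  have hp0 : 0 < p := hp1
  set a : ℝ → ℝ := fun l => if 0 < r l then r l ^ 2 else 1 with ha
  have ma : Measurable a := Measurable.ite (measurableSet_lt measurable_const hr)
    (hr.pow_const 2) measurable_const
  have ha0 : ∀ l, 0 < a l := by
    intro l
    simp only [ha]
    split_ifs with h
    · positivity
    · norm_num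
  have haT : ∀ l ∈ T, a l = r l ^ 2 := fun l hl => by simp only [ha, if_pos (hr0 l hl)]
  have hap : ∀ l ∈ T, a l ^ p = r l ^ (2 * p) := fun l hl => by
    rw [haT l hl, ← Real.rpow_natCast, ← Real.rpow_mul (hr0 l hl).le]
    norm_cast
  set B : ℝ := C0 p θ * (N * (M ^ 2 * W / N) ^ (1 / (2 * p + 1))) with hB
  have hB0 : 0 ≤ B := by
    have := C0_nonneg (p := p) (θ := θ) hθ
    positivity
  -- exhaustion
  set S : ℕ → Set ℝ := fun k => T ∩ (Icc (-(k : ℝ)) k ∩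
    {l | 1 / ((k : ℝ) + 1) ≤ a l ∧ a l ≤ (k : ℝ) + 1}) with hS
  have mS : ∀ k, MeasurableSet (S k) := fun k => hT.inter (measurableSet_Icc.inter
    ((measurableSet_le measurable_const ma).inter (measurableSet_le ma measurable_const)))
  have monoS : Monotone S := by
    intro i j hij l hl
    obtain ⟨h1, h2, h3, h4⟩ := hl
    have hij' : (i : ℝ) ≤ j := by exact_mod_cast hij
    refine ⟨h1, ⟨by linarith [h2.1], by linarith [h2.2]⟩, ?_, by linarith⟩
    refine le_trans ?_ h3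
    exact div_le_div_of_nonneg_left (by norm_num) (by positivity) (by linarith)
  have unS : ⋃ k, S k = T := by
    ext l
    constructor
    · intro h
      obtain ⟨k, hk⟩ := mem_iUnion.1 h
      exact hk.1
    · intro h
      obtain ⟨k1, hk1⟩ := exists_nat_ge |l|
      obtain ⟨k2, hk2⟩ := exists_nat_ge (a l)
      obtain ⟨k3, hk3⟩ := exists_nat_ge (1 / a l)
      refine mem_iUnion.2 ⟨k1 + k2 + k3, h, ?_, ?_, ?_⟩
      · have h5 : |l| ≤ ((k1 + k2 + k3 : ℕ) : ℝ) := by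
          push_cast
          have : (0 : ℝ) ≤ k2 := by positivity
          have : (0 : ℝ) ≤ k3 := by positivity
          linarith
        exact abs_le.1 h5
      · rw [div_le_iff₀ (by positivity)]
        have h6 : 1 ≤ a l * k3 := by
          rw [div_le_iff₀ (ha0 l)] at hk3
          linarith
        have h7 : a l * (k3 : ℝ) ≤ a l * (((k1 + k2 + k3 : ℕ) : ℝ) + 1) := by
          refine mul_le_mul_of_nonneg_left ?_ (ha0 l).le
          push_cast
          have : (0 : ℝ) ≤ k2 := by positivity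
          have : (0 : ℝ) ≤ k1 := by positivity
          linarith
        linarith
      · push_cast
        have : (0 : ℝ) ≤ k1 := by positivity
        have : (0 : ℝ) ≤ k3 := by positivity
        linarith
  -- the bound on each piece
  have hk : ∀ k, ∫⁻ l in S k, ENNReal.ofReal (El f (a l) (c l) l) ≤
      ENNReal.ofReal B := by
    intro k
    have vS : volume (S k) ≠ ∞ := by
      refine ne_top_of_le_ne_top ?_ (measure_mono (fun l hl => hl.2.1) :
        volume (S k) ≤ volume (Icc (-(k : ℝ)) k))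
      rw [Real.volume_Icc]
      exact ENNReal.ofReal_ne_top
    have hA : ∀ l ∈ S k, a l ≤ (k : ℝ) + 1 := fun l hl => hl.2.2.2
    have hA0 : ∀ l ∈ S k, 1 / ((k : ℝ) + 1) ≤ a l := fun l hl => hl.2.2.1
    have : IsFiniteMeasure (volume.restrict (S k)) :=
      ⟨by rw [Measure.restrict_apply_univ]; exact vS.lt_top⟩
    have iW : Integrable (fun l => a l ^ p) (volume.restrict (S k)) := by
      refine Integrable.of_bound (ma.pow_const p).aestronglyMeasurable (((k : ℝ) + 1) ^ p)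
        ((ae_restrict_mem (mS k)).mono fun l hl => ?_)
      have := ha0 l
      rw [Real.norm_eq_abs, abs_of_nonneg (by positivity)]
      exact Real.rpow_le_rpow (ha0 l).le (hA l hl) hp0.le
    have hWk : ∫ l in S k, a l ^ p ≤ W := by
      have h1 : ENNReal.ofReal (∫ l in S k, a l ^ p) ≤ ENNReal.ofReal W := by
        rw [ofReal_integral_eq_lintegral_ofReal iW (Filter.Eventually.of_forall fun l => by
          have := ha0 l
          simp only [Pi.zero_apply]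
          positivity)]
        refine le_trans ?_ hWT
        calc ∫⁻ l in S k, ENNReal.ofReal (a l ^ p) =
            ∫⁻ l in S k, ENNReal.ofReal (r l ^ (2 * p)) :=
              setLIntegral_congr_fun (mS k) fun l hl => by rw [hap l hl.1]
          _ ≤ _ := lintegral_mono_set fun l hl => hl.1
      exact (ENNReal.ofReal_le_ofReal_iff hW.le).1 h1
    have h2 := opt hf hM0 hM hρ ma hc ha0 (mS k) vS hA (by positivity) hA0 hp hW hWk hN hNf
      hθ (hJ (S k) (fun l hl => hl.1) (mS k) vS)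
    have mE : Measurable (fun l => El f (a l) (c l) l) := (El_meas hf ma hc).measurable
    have iE : Integrable (fun l => El f (a l) (c l) l) (volume.restrict (S k)) := by
      refine Integrable.of_bound mE.aestronglyMeasurable
        ((4 * π * ((k : ℝ) + 1)) ^ (dn V / 2) * (∫ x, ‖f x‖) ^ 2)
        ((ae_restrict_mem (mS k)).mono fun l hl => ?_)
      rw [Real.norm_eq_abs, abs_of_nonneg (El_nonneg _ _ _ _)]
      refine (El_le f (ha0 l) (c l) l).trans ?_
      refine mul_le_mul_of_nonneg_right ?_ (by positivity)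
      rw [← hp]
      exact Real.rpow_le_rpow (by have := ha0 l; positivity)
        (mul_le_mul_of_nonneg_left (hA l hl) (by positivity)) hp0.le
    rw [← ofReal_integral_eq_lintegral_ofReal iE
      (Filter.Eventually.of_forall fun l => El_nonneg f (a l) (c l) l)]
    exact ENNReal.ofReal_le_ofReal h2
  have h3 : ∫⁻ l in T, ENNReal.ofReal (El f (r l ^ 2) (c l) l) =
      ∫⁻ l in T, ENNReal.ofReal (El f (a l) (c l) l) :=
    setLIntegral_congr_fun hT fun l hl => by rw [haT l hl]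
  rw [h3, ← unS, setLIntegral_iUnion_of_directed _ (monoS.directed_le)]
  exact iSup_le hk

/-- from Gaussian weights to balls -/
theorem els_to_balls {f : V → ℂ} (hf : Integrable f) {r : ℝ → ℝ} {c : ℝ → V}
    {T : Set ℝ} (hT : MeasurableSet T) (hr0 : ∀ l ∈ T, 0 < r l) :
    ∫⁻ l in T, ∫⁻ ξ in Metric.ball (c l) (r l), ‖Fx f l ξ‖ₑ ^ 2 ≤
      2 * ∫⁻ l in T, ENNReal.ofReal (El f (r l ^ 2) (c l) l) := by
  rw [← lintegral_const_mul' _ _ (by norm_num)]
  refine setLIntegral_mono' hT fun l hl => ?_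
  refine (ball_le hf (hr0 l hl) (c l) l).trans (le_of_eq ?_)
  rw [ENNReal.ofReal_mul (by norm_num), ENNReal.ofReal_ofNat]

/-- three or more dimensions -/
theorem els_high {f : V → ℂ} (hf : Integrable f) {M : ℝ} (hM0 : 0 < M) (hM : ∀ x, ‖f x‖ ≤ M)
    {ρ : ℝ} (hρ : ∀ x, f x ≠ 0 → ‖x‖ ≤ ρ)
    {r : ℝ → ℝ} {c : ℝ → V} (hr : Measurable r)
    (hc : Measurable c) {T : Set ℝ} (hT : MeasurableSet T) (hr0 : ∀ l ∈ T, 0 < r l)
    {p : ℝ} (hp : p = dn V / 2) (hp3 : 3 / 2 ≤ p) {W N : ℝ} (hW : 0 < W)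
    (hWT : ∫⁻ l in T, ENNReal.ofReal (r l ^ (2 * p)) ≤ ENNReal.ofReal W)
    (hN : 0 < N) (hNf : 2 * ∫ y, ‖f y‖ ^ 2 ≤ N) :
    ∫⁻ l in T, ENNReal.ofReal (El f (r l ^ 2) (c l) l) ≤
      ENNReal.ofReal (C0 p 4 * (N * (M ^ 2 * W / N) ^ (1 / (2 * p + 1)))) := by
  have hp0 : 0 < p := by linarith
  refine els_gen hf hM0 hM hρ hr hc hT hr0 hp hp0 hW hWT hN hNf (by norm_num)
    fun S _ _ _ l => ?_
  have hKpos : 0 < (M ^ 2 * W / N) ^ (1 / (2 * p + 1)) := by positivity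
  refine (tail_T (by linarith) hKpos S l).trans (ENNReal.ofReal_le_ofReal ?_)
  refine mul_le_mul_of_nonneg_right ?_ hKpos.le
  rw [div_le_iff₀ (by linarith)]
  linarith

/-- two or more dimensions, radii at least one -/
theorem els_low {f : V → ℂ} (hf : Integrable f) {M : ℝ} (hM0 : 0 < M) (hM : ∀ x, ‖f x‖ ≤ M)
    {ρ : ℝ} (hρ : ∀ x, f x ≠ 0 → ‖x‖ ≤ ρ)
    {r : ℝ → ℝ} {c : ℝ → V} (hr : Measurable r)
    (hc : Measurable c) {T : Set ℝ} (hT : MeasurableSet T) (hr0 : ∀ l ∈ T, 1 ≤ r l)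
    {p : ℝ} (hp : p = dn V / 2) (hp3 : 1 ≤ p) {W N : ℝ} (hW : 0 < W)
    (hWT : ∫⁻ l in T, ENNReal.ofReal (r l ^ (2 * p)) ≤ ENNReal.ofReal W)
    (hN : 0 < N) (hNf : 2 * ∫ y, ‖f y‖ ^ 2 ≤ N) :
    ∫⁻ l in T, ENNReal.ofReal (El f (r l ^ 2) (c l) l) ≤
      ENNReal.ofReal (C0 p (1 + 2 * Real.log (1 + W / (M ^ 2 * W / N) ^ (1 / (2 * p + 1)))) *
        (N * (M ^ 2 * W / N) ^ (1 / (2 * p + 1)))) := by
  have hp0 : 0 < p := by linarith
  set K := (M ^ 2 * W / N) ^ (1 / (2 * p + 1)) with hK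
  have hKpos : 0 < K := by rw [hK]; positivity
  have hlog : 0 ≤ Real.log (1 + W / K) := Real.log_nonneg (by
    have : 0 ≤ W / K := by positivity
    linarith)
  refine els_gen hf hM0 hM hρ hr hc hT (fun l hl => by linarith [hr0 l hl]) hp hp0 hW hWT hN hNf
    (by positivity) fun S hST mS hS l => ?_
  refine (tail_log hp3 hKpos hS l).trans (ENNReal.ofReal_le_ofReal ?_)
  refine mul_le_mul_of_nonneg_right ?_ hKpos.le
  have h1 : (volume S).toReal ≤ W := by
    have h2 : volume S ≤ ENNReal.ofReal W := by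
      refine le_trans ?_ hWT
      calc volume S = ∫⁻ l in S, 1 := by rw [setLIntegral_one]
        _ ≤ ∫⁻ l in S, ENNReal.ofReal (r l ^ (2 * p)) := by
            refine setLIntegral_mono' mS fun l hl => ?_
            rw [← ENNReal.ofReal_one]
            exact ENNReal.ofReal_le_ofReal (Real.one_le_rpow (hr0 l (hST hl)) (by positivity))
        _ ≤ _ := lintegral_mono_set hST
    exact ENNReal.toReal_le_of_le_ofReal hW.le h2
  have h3 : (volume S).toReal / K ≤ W / K := div_le_div_of_nonneg_right h1 hKpos.le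
  have h4 : 0 ≤ (volume S).toReal / K := by positivity
  have h5 := Real.log_le_log (by linarith : 0 < 1 + (volume S).toReal / K)
    (by linarith : 1 + (volume S).toReal / K ≤ 1 + W / K)
  linarith

end Pool.Agent.U571.BS
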