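import Pool.Agent.U571.BS.Small

/-!
# Power form of the estimates
-/

set_option autoImplicit false
set_option linter.unusedSectionVars false

namespace Pool.Agent.U571.BS

open MeasureTheory Complex Set
open scoped Real ENNReal RealInnerProductSpace ComplexConjugate

variable {V : Type*} [NormedAddCommGroup V] [InnerProductSpace ℝ V] [FiniteDimensional ℝ V]
  [MeasurableSpace V] [BorelSpace V]

/-- `C0` is at most linear -/
lemma C0_le {p θ : ℝ} (hθ : 1 ≤ θ) : C0 p θ ≤ (6 * c1 p + √(2 * c2 p)) * θ := by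
  unfold C0
  have h1 := c1_pos p
  have h2 := c2_pos p
  have h3 : √(2 * c2 p * θ) ≤ √(2 * c2 p) * θ := by
    rw [Real.sqrt_mul (by positivity)]
    refine mul_le_mul_of_nonneg_left ?_ (Real.sqrt_nonneg _)
    rw [Real.sqrt_le_left (by linarith)]
    nlinarith
  have h4 : 2 * c1 p * (2 + θ) ≤ 6 * c1 p * θ := by nlinarith
  linarith

/-- the logarithmic factor is absorbed -/
lemma log_absorb {α β N0 : ℝ} (hβα : β < α) (hβ : 0 ≤ β) (hN0 : 0 ≤ N0) :
    ∃ A : ℝ, 0 < A ∧ ∀ x W ν : ℝ, 1 ≤ x → 0 < ν → ν ≤ N0 → W = ν * x →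
      (1 + 2 * Real.log (1 + W / x ^ β)) * x ^ β ≤ A * x ^ α := by
  set ε := α - β with hε
  have hε0 : 0 < ε := by linarith
  refine ⟨1 + 2 * Real.log (1 + N0) + 2 / ε, ?_, ?_⟩
  · have : 0 ≤ Real.log (1 + N0) := Real.log_nonneg (by linarith)
    positivity
  · intro x W ν hx hν hνN hW
    have hx0 : 0 < x := by linarith
    have h1 : W / x ^ β ≤ N0 * x := by
      have h2 : 1 ≤ x ^ β := Real.one_le_rpow hx hβ
      rw [div_le_iff₀ (by positivity), hW]
      calc ν * x ≤ N0 * x := by gcongr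
        _ = N0 * x * 1 := by ring
        _ ≤ N0 * x * x ^ β := mul_le_mul_of_nonneg_left h2 (by positivity)
    have hW0 : 0 < W := by rw [hW]; positivity
    have h2 : Real.log (1 + W / x ^ β) ≤ Real.log (1 + N0) + x ^ ε / ε := by
      have h3 : 1 + W / x ^ β ≤ (1 + N0) * x := by nlinarith
      have h4 : 0 < W / x ^ β := by positivity
      refine (Real.log_le_log (by linarith) h3).trans ?_
      rw [Real.log_mul (by linarith) hx0.ne']
      have := Real.log_le_rpow_div hx0.le hε0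
      linarith
    have h5 : 1 ≤ x ^ ε := Real.one_le_rpow hx hε0.le
    have h6 : 0 ≤ Real.log (1 + N0) := Real.log_nonneg (by linarith)
    have h7 : 1 + 2 * Real.log (1 + W / x ^ β) ≤
        (1 + 2 * Real.log (1 + N0) + 2 / ε) * x ^ ε := by
      calc 1 + 2 * Real.log (1 + W / x ^ β) ≤ 1 + 2 * (Real.log (1 + N0) + x ^ ε / ε) := by
            linarith
        _ = (1 + 2 * Real.log (1 + N0)) * 1 + 2 / ε * x ^ ε := by ring
        _ ≤ (1 + 2 * Real.log (1 + N0)) * x ^ ε + 2 / ε * x ^ ε := by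
            have := mul_le_mul_of_nonneg_left h5
              (by positivity : 0 ≤ 1 + 2 * Real.log (1 + N0))
            linarith
        _ = _ := by ring
    calc _ ≤ (1 + 2 * Real.log (1 + N0) + 2 / ε) * x ^ ε * x ^ β :=
          mul_le_mul_of_nonneg_right h7 (by positivity)
      _ = (1 + 2 * Real.log (1 + N0) + 2 / ε) * (x ^ ε * x ^ β) := by ring
      _ = _ := by
          rw [← Real.rpow_add hx0, hε, sub_add_cancel]

/-- trivial bound -/
lemma els_trivial {f : V → ℂ} {r : ℝ → ℝ} {c : ℝ → V} {T : Set ℝ} (hT : MeasurableSet T)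
    (hr0 : ∀ l ∈ T, 0 < r l) {W : ℝ}
    (hWT : ∫⁻ l in T, ENNReal.ofReal (r l ^ dn V) ≤ ENNReal.ofReal W) :
    ∫⁻ l in T, ENNReal.ofReal (El f (r l ^ 2) (c l) l) ≤
      ENNReal.ofReal ((4 * π) ^ (dn V / 2) * (∫ x, ‖f x‖) ^ 2 * W) := by
  have h1 : ∀ l ∈ T, ENNReal.ofReal (El f (r l ^ 2) (c l) l) ≤
      ENNReal.ofReal ((4 * π) ^ (dn V / 2) * (∫ x, ‖f x‖) ^ 2) *
        ENNReal.ofReal (r l ^ dn V) := by
    intro l hl
    have hr := hr0 l hl
    rw [← ENNReal.ofReal_mul (by positivity)]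
    refine ENNReal.ofReal_le_ofReal ((El_le f (by positivity) (c l) l).trans (le_of_eq ?_))
    rw [Real.mul_rpow (by positivity) (by positivity), ← Real.rpow_natCast (r l) 2,
      ← Real.rpow_mul hr.le]
    have : ((2 : ℕ) : ℝ) * (dn V / 2) = dn V := by push_cast; ring
    rw [this]
    ring
  refine (setLIntegral_mono' hT h1).trans ?_
  rw [lintegral_const_mul' _ _ ENNReal.ofReal_ne_top]
  refine (mul_le_mul' le_rfl hWT).trans (le_of_eq ?_)
  rw [← ENNReal.ofReal_mul (by positivity)]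

/-- `L¹` against `L²` -/
lemma l1_sq_le {f : V → ℂ} (hf : Integrable f) {M : ℝ} (hM : ∀ x, ‖f x‖ ≤ M) {ρ : ℝ}
    (hρ : ∀ x, f x ≠ 0 → ‖x‖ ≤ ρ) :
    (∫ x, ‖f x‖) ^ 2 ≤ (volume (Metric.closedBall (0 : V) ρ)).toReal * ∫ x, ‖f x‖ ^ 2 := by
  have i2 : Integrable (fun y => ‖f y‖ ^ 2) := by
    have h : Integrable (fun y => ‖f y‖ * ‖f y‖) := by
      refine hf.norm.mul_bdd (c := M) hf.norm.aestronglyMeasurable
        (Filter.Eventually.of_forall fun y => ?_)
      rw [norm_norm]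
      exact hM y
    exact h.congr (Filter.Eventually.of_forall fun y => (sq _).symm)
  set B := Metric.closedBall (0 : V) ρ with hB
  have vB : volume B ≠ ∞ := (isCompact_closedBall _ _).measure_lt_top.ne
  have mB : MeasurableSet B := Metric.isClosed_closedBall.measurableSet
  have e1 : ∫ x, ‖f x‖ = ∫ x in B, ‖f x‖ := by
    rw [setIntegral_eq_integral_of_forall_compl_eq_zero]
    intro x hx
    by_contra h
    refine hx ?_
    rw [hB, mem_closedBall_zero_iff]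
    exact hρ x fun h' => h (by rw [h']; simp)
  have e2 : ∫ x, ‖f x‖ ^ 2 = ∫ x in B, ‖f x‖ ^ 2 := by
    rw [setIntegral_eq_integral_of_forall_compl_eq_zero]
    intro x hx
    by_contra h
    refine hx ?_
    rw [hB, mem_closedBall_zero_iff]
    exact hρ x fun h' => h (by rw [h']; simp)
  rw [e1, e2]
  set v := (volume B).toReal with hv
  set I := ∫ x in B, ‖f x‖ with hI
  have iI : Integrable (fun x => ‖f x‖) (volume.restrict B) := hf.norm.integrableOn
  have iI2 : Integrable (fun x => ‖f x‖ ^ 2) (volume.restrict B) := i2.integrableOn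
  have iC : Integrable (fun _ : V => (1 : ℝ)) (volume.restrict B) := integrableOn_const vB
  rcases eq_or_lt_of_le (ENNReal.toReal_nonneg : 0 ≤ (volume B).toReal) with h0 | h0
  · have hvz : volume B = 0 := by
      rcases (ENNReal.toReal_eq_zero_iff _).1 h0.symm with h | h
      · exact h
      · exact absurd h vB
    have : I = 0 := by
      rw [hI]
      exact setIntegral_measure_zero _ hvz
    rw [this]
    rw [← hv] at h0
    rw [← h0]
    simp
  · rw [← hv] at h0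
    have h : 0 ≤ ∫ x in B, (‖f x‖ - I / v) ^ 2 := integral_nonneg fun x => sq_nonneg _
    have h2 : ∫ x in B, (‖f x‖ - I / v) ^ 2 =
        (∫ x in B, ‖f x‖ ^ 2) - 2 * (I / v) * I + (I / v) ^ 2 * v := by
      have : ∀ x, (‖f x‖ - I / v) ^ 2 =
          (‖f x‖ ^ 2 - 2 * (I / v) * ‖f x‖) + (I / v) ^ 2 * 1 := fun x => by ring
      simp only [this]
      rw [integral_add, integral_sub, integral_const_mul, integral_const_mul]
      · congr 2
        rw [setIntegral_const, smul_eq_mul, mul_one]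
        rfl
      · exact iI2
      · exact iI.const_mul _
      · exact iI2.sub (iI.const_mul _)
      · exact iC.const_mul _
    rw [h2] at h
    have h3 : (∫ x in B, ‖f x‖ ^ 2) - 2 * (I / v) * I + (I / v) ^ 2 * v =
        (∫ x in B, ‖f x‖ ^ 2) - I ^ 2 / v := by
      field_simp
      ring
    rw [h3] at h
    have h4 : I ^ 2 / v ≤ ∫ x in B, ‖f x‖ ^ 2 := by linarith
    rw [div_le_iff₀ h0] at h4
    linarith

/-- constant of the trivial range -/
noncomputable def Ct (V : Type*) [NormedAddCommGroup V] [InnerProductSpace ℝ V]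
    [FiniteDimensional ℝ V] [MeasurableSpace V] [BorelSpace V] (ρ N0 : ℝ) : ℝ :=
  (4 * π) ^ (dn V / 2) * (volume (Metric.closedBall (0 : V) ρ)).toReal * N0

lemma els_small {f : V → ℂ} (hf : Integrable f) {M : ℝ} (hM0 : 0 < M) (hM : ∀ x, ‖f x‖ ≤ M)
    {ρ : ℝ} (hρ : ∀ x, f x ≠ 0 → ‖x‖ ≤ ρ)
    {r : ℝ → ℝ} {c : ℝ → V} {T : Set ℝ} (hT : MeasurableSet T)
    (hr0 : ∀ l ∈ T, 0 < r l) {W N N0 α : ℝ} (hW : 0 < W)
    (hWT : ∫⁻ l in T, ENNReal.ofReal (r l ^ dn V) ≤ ENNReal.ofReal W) (hN : 0 < N)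
    (hNf : 2 * ∫ y, ‖f y‖ ^ 2 ≤ N) (hNN : N ≤ N0 * M ^ 2) (hα1 : α ≤ 1)
    (hx : M ^ 2 * W / N ≤ 1) :
    ∫⁻ l in T, ENNReal.ofReal (El f (r l ^ 2) (c l) l) ≤
      ENNReal.ofReal (Ct V ρ N0 * (N * (M ^ 2 * W / N) ^ α)) := by
  refine (els_trivial hT hr0 hWT).trans (ENNReal.ofReal_le_ofReal ?_)
  set x := M ^ 2 * W / N with hxd
  have hx0 : 0 < x := by rw [hxd]; positivity
  set ω := (volume (Metric.closedBall (0 : V) ρ)).toReal with hω
  have hω0 : 0 ≤ ω := ENNReal.toReal_nonneg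
  have h1 := l1_sq_le hf hM hρ
  rw [← hω] at h1
  have h2 : (∫ x, ‖f x‖) ^ 2 ≤ ω * N := by
    refine h1.trans (mul_le_mul_of_nonneg_left ?_ hω0)
    have : 0 ≤ ∫ y, ‖f y‖ ^ 2 := integral_nonneg fun y => by positivity
    linarith
  have h3 : W ≤ N0 * x := by
    have h4 : W = N / M ^ 2 * x := by rw [hxd]; field_simp
    rw [h4]
    refine mul_le_mul_of_nonneg_right ?_ hx0.le
    rw [div_le_iff₀ (by positivity)]
    exact hNN
  have h5 : x ≤ x ^ α := by
    have := Real.rpow_le_rpow_of_exponent_ge hx0 hx hα1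
    rwa [Real.rpow_one] at this
  have hN00 : 0 ≤ N0 := by
    by_contra h
    push Not at h
    have : N0 * M ^ 2 < 0 := mul_neg_of_neg_of_pos h (by positivity)
    linarith
  unfold Ct
  rw [← hω]
  calc (4 * π) ^ (dn V / 2) * (∫ x, ‖f x‖) ^ 2 * W
      ≤ (4 * π) ^ (dn V / 2) * (ω * N) * (N0 * x) := by gcongr
    _ ≤ (4 * π) ^ (dn V / 2) * (ω * N) * (N0 * x ^ α) := by gcongr
    _ = _ := by ring

/-- **Power form, three or more dimensions.** -/
theorem els_pow_high (hn : 3 ≤ dn V) {α ρ N0 : ℝ} (hα : 1 / (dn V + 1) ≤ α) (hα1 : α ≤ 1)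
    (hN0 : 0 ≤ N0) :
    ∃ C : ℝ, 0 < C ∧ ∀ f : V → ℂ, Integrable f → ∀ M : ℝ, 0 < M → (∀ x, ‖f x‖ ≤ M) →
      (∀ x, f x ≠ 0 → ‖x‖ ≤ ρ) → ∀ (r : ℝ → ℝ) (c : ℝ → V), Measurable r → Measurable c →
      ∀ T : Set ℝ, MeasurableSet T → (∀ l ∈ T, 0 < r l) → ∀ W N : ℝ, 0 < W →
      ∫⁻ l in T, ENNReal.ofReal (r l ^ dn V) ≤ ENNReal.ofReal W → 0 < N →
      2 * ∫ y, ‖f y‖ ^ 2 ≤ N → N ≤ N0 * M ^ 2 →
      ∫⁻ l in T, ENNReal.ofReal (El f (r l ^ 2) (c l) l) ≤
        ENNReal.ofReal (C * (N * (M ^ 2 * W / N) ^ α)) := by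
  have hCt : 0 ≤ Ct V ρ N0 := by unfold Ct; positivity
  have hC0 : 0 ≤ C0 (dn V / 2) 4 := C0_nonneg (by norm_num)
  refine ⟨Ct V ρ N0 + C0 (dn V / 2) 4 + 1, by positivity, ?_⟩
  intro f hf M hM0 hM hρ r c hr hc T hT hr0 W N hW hWT hN hNf hNN
  rcases le_total (M ^ 2 * W / N) 1 with hx | hx
  · refine (els_small hf hM0 hM hρ hT hr0 hW hWT hN hNf hNN hα1 hx).trans
      (ENNReal.ofReal_le_ofReal ?_)
    refine mul_le_mul_of_nonneg_right (by linarith) (by positivity)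
  · have e1 : 2 * (dn V / 2) = dn V := by ring
    have h := els_high hf hM0 hM hρ hr hc hT hr0 (p := dn V / 2) rfl (by linarith) hW
      (by rw [e1]; exact hWT) hN hNf
    rw [e1] at h
    refine h.trans (ENNReal.ofReal_le_ofReal ?_)
    have h2 : (M ^ 2 * W / N) ^ (1 / (dn V + 1)) ≤ (M ^ 2 * W / N) ^ α :=
      Real.rpow_le_rpow_of_exponent_le hx hα
    calc _ ≤ C0 (dn V / 2) 4 * (N * (M ^ 2 * W / N) ^ α) := by gcongr
      _ ≤ _ := mul_le_mul_of_nonneg_right (by linarith) (by positivity)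

/-- **Power form, two or more dimensions, radii at least one.** -/
theorem els_pow_low (hn : 2 ≤ dn V) {α ρ N0 : ℝ} (hα : 1 / (dn V + 1) < α) (hα1 : α ≤ 1)
    (hN0 : 0 ≤ N0) :
    ∃ C : ℝ, 0 < C ∧ ∀ f : V → ℂ, Integrable f → ∀ M : ℝ, 0 < M → (∀ x, ‖f x‖ ≤ M) →
      (∀ x, f x ≠ 0 → ‖x‖ ≤ ρ) → ∀ (r : ℝ → ℝ) (c : ℝ → V), Measurable r → Measurable c →
      ∀ T : Set ℝ, MeasurableSet T → (∀ l ∈ T, 1 ≤ r l) → ∀ W N : ℝ, 0 < W →
      ∫⁻ l in T, ENNReal.ofReal (r l ^ dn V) ≤ ENNReal.ofReal W → 0 < N →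
      2 * ∫ y, ‖f y‖ ^ 2 ≤ N → N ≤ N0 * M ^ 2 →
      ∫⁻ l in T, ENNReal.ofReal (El f (r l ^ 2) (c l) l) ≤
        ENNReal.ofReal (C * (N * (M ^ 2 * W / N) ^ α)) := by
  have hCt : 0 ≤ Ct V ρ N0 := by unfold Ct; positivity
  obtain ⟨A, hA0, hA⟩ := log_absorb hα (by have := dn_nonneg (V := V); positivity) hN0
  have hc1 := c1_pos (dn V / 2)
  set D := 6 * c1 (dn V / 2) + √(2 * c2 (dn V / 2)) with hD
  have hD0 : 0 < D := by positivity
  refine ⟨Ct V ρ N0 + D * A, by positivity, ?_⟩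
  intro f hf M hM0 hM hρ r c hr hc T hT hr0 W N hW hWT hN hNf hNN
  rcases le_total (M ^ 2 * W / N) 1 with hx | hx
  · refine (els_small hf hM0 hM hρ hT (fun l hl => by linarith [hr0 l hl]) hW hWT hN hNf hNN hα1
      hx).trans (ENNReal.ofReal_le_ofReal ?_)
    refine mul_le_mul_of_nonneg_right (by nlinarith) (by positivity)
  · have e1 : 2 * (dn V / 2) = dn V := by ring
    have h := els_low hf hM0 hM hρ hr hc hT hr0 (p := dn V / 2) rfl (by linarith) hW
      (by rw [e1]; exact hWT) hN hNf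
    rw [e1] at h
    refine h.trans (ENNReal.ofReal_le_ofReal ?_)
    set x := M ^ 2 * W / N with hxd
    have hx0 : 0 < x := by linarith
    have hlog : 0 ≤ Real.log (1 + W / x ^ (1 / (dn V + 1))) := Real.log_nonneg (by
      have : 0 ≤ W / x ^ (1 / (dn V + 1)) := by positivity
      linarith)
    have h3 := hA x W (N / M ^ 2) hx (by positivity)
      (by rw [div_le_iff₀ (by positivity)]; exact hNN) (by rw [hxd]; field_simp)
    have h4 := C0_le (p := dn V / 2)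
      (by linarith : 1 ≤ 1 + 2 * Real.log (1 + W / x ^ (1 / (dn V + 1))))
    rw [← hD] at h4
    calc _ ≤ D * (1 + 2 * Real.log (1 + W / x ^ (1 / (dn V + 1)))) *
          (N * x ^ (1 / (dn V + 1))) := by gcongr
      _ = D * N * ((1 + 2 * Real.log (1 + W / x ^ (1 / (dn V + 1)))) *
          x ^ (1 / (dn V + 1))) := by ring
      _ ≤ D * N * (A * x ^ α) := by gcongr
      _ = D * A * (N * x ^ α) := by ring
      _ ≤ _ := mul_le_mul_of_nonneg_right (by linarith) (by positivity)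

end Pool.Agent.U571.BS
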