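import Pool.Agent.U571.BS.Sc

set_option autoImplicit false
set_option linter.unusedSectionVars false

namespace Pool.Agent.U571.BS

open MeasureTheory Complex Set
open scoped Real ENNReal RealInnerProductSpace ComplexConjugate

variable {V : Type*} [NormedAddCommGroup V] [InnerProductSpace ℝ V] [FiniteDimensional ℝ V]
  [MeasurableSpace V] [BorelSpace V]

lemma Pf_cont {f : V → ℂ} (hf : Integrable f) {a : ℝ} (ha : 0 < a) (c : V) (l : ℝ) :
    Continuous (Pf f a c l) := by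
  unfold Pf
  refine continuous_of_dominated (bound := fun ξ => ‖(wt a c ξ : ℂ) * Fx f l ξ‖) ?_ ?_
    (wF_integrable hf ha c l).norm ?_
  · intro y
    exact (wF_integrable hf ha c l).aestronglyMeasurable.mul
      (Complex.continuous_conj.comp (cont_ph_y l y)).aestronglyMeasurable
  · intro y
    refine Filter.Eventually.of_forall fun ξ => ?_
    rw [norm_mul, norm_conj_ph, mul_one]
  · refine Filter.Eventually.of_forall fun ξ => ?_
    exact continuous_const.mul (Complex.continuous_conj.comp (cont_ph_l l ξ))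

lemma Qn_integrable {f : V → ℂ} (hf : Integrable f) {a : ℝ} (ha : 0 < a) (c : V) (l : ℝ) {ε : ℝ}
    (hε : 0 < ε) : Integrable (fun y => ‖Pf f a c l y‖ ^ 2 * Real.exp (-ε * ‖y‖ ^ 2)) := by
  have h : Integrable (fun y : V => Real.exp (-ε * ‖y‖ ^ 2) * ‖Pf f a c l y‖ ^ 2) := by
    refine (gint_integrable hε).mul_bdd
      (c := ((4 * π * a) ^ (dn V / 2) * ∫ x, ‖f x‖) ^ 2)
      ((Pf_cont hf ha c l).norm.pow 2).aestronglyMeasurable
      (Filter.Eventually.of_forall fun y => ?_)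
    rw [norm_pow, norm_norm]
    exact pow_le_pow_left₀ (norm_nonneg _) (Pf_bound f ha c l y) 2
  exact h.congr (Filter.Eventually.of_forall fun y => mul_comm _ _)

/-- bound of the pairing for all times by the masses -/
lemma Sp_near {f : V → ℂ} (hf : Integrable f) {a b : ℝ} (ha : 0 < a) (hb : 0 < b) (c d : V)
    (l m : ℝ) {ε : ℝ} (hε : 0 < ε) :
    ‖Sp f a c l b d m ε‖ ≤ (2 * π) ^ (dn V) * ((El f a c l + El f b d m) / 2) := by
  have h1 : ‖Sp f a c l b d m ε‖ ≤ (Qn f a c l ε + Qn f b d m ε) / 2 := by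
    unfold Sp
    refine (norm_integral_le_integral_norm _).trans ?_
    unfold Qn
    rw [← integral_add (Qn_integrable hf ha c l hε) (Qn_integrable hf hb d m hε),
      ← integral_div]
    refine integral_mono_of_nonneg (Filter.Eventually.of_forall fun y => norm_nonneg _)
      (((Qn_integrable hf ha c l hε).add (Qn_integrable hf hb d m hε)).div_const 2)
      (Filter.Eventually.of_forall fun y => ?_)
    simp only [norm_mul, RCLike.norm_conj, Complex.norm_real, Real.norm_eq_abs, Real.abs_exp]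
    have h2 := two_mul_le_add_sq ‖Pf f a c l y‖ ‖Pf f b d m y‖
    have h3 := Real.exp_pos (-ε * ‖y‖ ^ 2)
    nlinarith
  have h2 := Qn_le hf ha c l hε
  have h3 := Qn_le hf hb d m hε
  linarith

/-- the doubled kernel -/
noncomputable def Kk (a : ℝ) (c : V) (l b : ℝ) (d : V) (m ε : ℝ) (x z : V) : ℂ :=
  ∫ y, kr a c l x y * conj (kr b d m z y) * (Real.exp (-ε * ‖y‖ ^ 2) : ℂ)

lemma quad_id {a b : ℝ} (x z : V) (h : a + b ≠ 0) :
    a * ‖x‖ ^ 2 + b * ‖z‖ ^ 2 - ‖a • x + b • z‖ ^ 2 / (a + b) = a * b / (a + b) * ‖x - z‖ ^ 2 := by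
  rw [norm_add_sq_real, norm_sub_sq_real, norm_smul, norm_smul, real_inner_smul_left,
    real_inner_smul_right, mul_pow, mul_pow, Real.norm_eq_abs, Real.norm_eq_abs, sq_abs, sq_abs]
  field_simp
  ring

lemma kr_mul (a : ℝ) (c : V) (l b : ℝ) (d : V) (m ε : ℝ) (x z y : V)
    (hs : a + b + ε ≠ 0) :
    kr a c l x (y + (a + b + ε)⁻¹ • (a • x + b • z)) *
      conj (kr b d m z (y + (a + b + ε)⁻¹ • (a • x + b • z))) *
      (Real.exp (-ε * ‖y + (a + b + ε)⁻¹ • (a • x + b • z)‖ ^ 2) : ℂ) =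
    ((((4 * π * a) ^ (dn V / 2) * (4 * π * b) ^ (dn V / 2) *
      Real.exp (‖a • x + b • z‖ ^ 2 / (a + b + ε) - a * ‖x‖ ^ 2 - b * ‖z‖ ^ 2) : ℝ) : ℂ) *
      cexp (((⟪x, c⟫ + l * ‖x‖ ^ 2 - ⟪z, d⟫ - m * ‖z‖ ^ 2 +
        ⟪(a + b + ε)⁻¹ • (a • x + b • z), d - c⟫ -
          (l - m) * ‖(a + b + ε)⁻¹ • (a • x + b • z)‖ ^ 2 : ℝ) : ℂ) * I)) *
      cexp (-(((a + b + ε : ℝ) : ℂ) + ((l - m : ℝ) : ℂ) * I) * ‖y‖ ^ 2 +
        I * ⟪(d - c) - (2 * (l - m)) • ((a + b + ε)⁻¹ • (a • x + b • z)), y⟫) := by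
  set q : V := (a + b + ε)⁻¹ • (a • x + b • z) with hq
  have hq2 : a • x + b • z = (a + b + ε) • q := by
    rw [hq, smul_smul, mul_inv_cancel₀ hs, one_smul]
  clear_value q
  unfold kr
  rw [hq2]
  have e1 : ∀ t : ℝ, conj (cexp ((t : ℂ) * I)) = cexp (((-t : ℝ) : ℂ) * I) := by
    intro t
    rw [← Complex.exp_conj, map_mul, Complex.conj_I, Complex.conj_ofReal]
    congr 1
    push_cast
    ring
  simp only [map_mul, Complex.conj_ofReal, e1]
  have hin : a * ⟪x, y⟫ + b * ⟪z, y⟫ = (a + b + ε) * ⟪q, y⟫ := by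
    rw [← real_inner_smul_left, ← real_inner_smul_left, ← inner_add_left, hq2,
      real_inner_smul_left]
  have hin2 : a * ⟪x, q⟫ + b * ⟪z, q⟫ = (a + b + ε) * ‖q‖ ^ 2 := by
    rw [← real_inner_smul_left, ← real_inner_smul_left, ← inner_add_left, hq2,
      real_inner_smul_left, real_inner_self_eq_norm_sq]
  -- real exponents
  have hreal : -a * ‖x - (y + q)‖ ^ 2 + (-b * ‖z - (y + q)‖ ^ 2) + (-ε * ‖y + q‖ ^ 2) =
      (‖(a + b + ε) • q‖ ^ 2 / (a + b + ε) - a * ‖x‖ ^ 2 - b * ‖z‖ ^ 2) +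
        (-(a + b + ε) * ‖y‖ ^ 2) := by
    have : ‖(a + b + ε) • q‖ ^ 2 / (a + b + ε) = (a + b + ε) * ‖q‖ ^ 2 := by
      rw [norm_smul, mul_pow, Real.norm_eq_abs, sq_abs]
      field_simp
    rw [this, norm_sub_sq_real x, norm_sub_sq_real z, norm_add_sq_real,
      inner_add_right, inner_add_right, real_inner_comm q y]
    linear_combination 2 * hin + 2 * hin2
  have himag : (⟪x - (y + q), c⟫ + l * (‖x‖ ^ 2 - ‖y + q‖ ^ 2)) +
      (-(⟪z - (y + q), d⟫ + m * (‖z‖ ^ 2 - ‖y + q‖ ^ 2))) =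
      (⟪x, c⟫ + l * ‖x‖ ^ 2 - ⟪z, d⟫ - m * ‖z‖ ^ 2 + ⟪q, d - c⟫ - (l - m) * ‖q‖ ^ 2) +
        (-(l - m) * ‖y‖ ^ 2 + ⟪(d - c) - (2 * (l - m)) • q, y⟫) := by
    rw [norm_add_sq_real, inner_sub_left x, inner_sub_left z, inner_add_left, inner_add_left,
      inner_sub_right q, inner_sub_left (d - c), inner_sub_left d, real_inner_smul_left,
      real_inner_comm y d, real_inner_comm y c, real_inner_comm y q]
    ring
  calc _ = (((4 * π * a) ^ (dn V / 2) * (4 * π * b) ^ (dn V / 2) : ℝ) : ℂ) *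
        (cexp ((((-a * ‖x - (y + q)‖ ^ 2 + (-b * ‖z - (y + q)‖ ^ 2) +
          (-ε * ‖y + q‖ ^ 2) : ℝ) : ℂ)) +
        (((⟪x - (y + q), c⟫ + l * (‖x‖ ^ 2 - ‖y + q‖ ^ 2)) +
      (-(⟪z - (y + q), d⟫ + m * (‖z‖ ^ 2 - ‖y + q‖ ^ 2))) : ℝ) : ℂ) * I)) := by
        push_cast
        simp only [Complex.exp_add, add_mul]
        ring
    _ = _ := by
        rw [hreal, himag]
        push_cast
        simp only [Complex.exp_add, add_mul, neg_add]
        have e3 : cexp (-((a : ℂ) + b + ε) * ‖y‖ ^ 2) * cexp ((-((l : ℂ) - m) * ‖y‖ ^ 2) * I) =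
            cexp (-((a : ℂ) + b + ε) * ‖y‖ ^ 2) * cexp (-(((l : ℂ) - m) * I) * ‖y‖ ^ 2) := by
          congr 2
          ring
        ring_nf

lemma norm_Kk {a b : ℝ} (ha : 0 < a) (hb : 0 < b) (c d : V) (l m : ℝ) {ε : ℝ} (hε : 0 < ε)
    (x z : V) :
    ‖Kk a c l b d m ε x z‖ ≤ (4 * π * a) ^ (dn V / 2) * (4 * π * b) ^ (dn V / 2) *
      Gm V (a + b + ε) (l - m) * Real.exp (-(a * b / (a + b)) * ‖x - z‖ ^ 2) *
      Real.exp (-((a + b + ε) / (4 * ((a + b + ε) ^ 2 + (l - m) ^ 2))) *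
        ‖(d - c) - (2 * (l - m)) • ((a + b + ε)⁻¹ • (a • x + b • z))‖ ^ 2) := by
  have hs : 0 < a + b + ε := by positivity
  unfold Kk
  rw [← integral_add_right_eq_self (fun y => kr a c l x y * conj (kr b d m z y) *
    (Real.exp (-ε * ‖y‖ ^ 2) : ℂ)) ((a + b + ε)⁻¹ • (a • x + b • z))]
  simp only [kr_mul a c l b d m ε x z _ hs.ne']
  rw [integral_const_mul, norm_mul, norm_gauss hs, norm_mul, Complex.norm_exp_ofReal_mul_I,
    mul_one, Complex.norm_real, Real.norm_eq_abs, abs_of_nonneg (by positivity)]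
  have h1 : Real.exp (‖a • x + b • z‖ ^ 2 / (a + b + ε) - a * ‖x‖ ^ 2 - b * ‖z‖ ^ 2) ≤
      Real.exp (-(a * b / (a + b)) * ‖x - z‖ ^ 2) := by
    rw [Real.exp_le_exp]
    have h2 := quad_id (a := a) (b := b) x z (by positivity)
    have h3 : ‖a • x + b • z‖ ^ 2 / (a + b + ε) ≤ ‖a • x + b • z‖ ^ 2 / (a + b) :=
      div_le_div_of_nonneg_left (by positivity) (by positivity) (by linarith)
    linarith
  have h4 := Gm_nonneg (V := V) (a + b + ε) (l - m)
  calc _ = (4 * π * a) ^ (dn V / 2) * (4 * π * b) ^ (dn V / 2) *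
      Gm V (a + b + ε) (l - m) *
      Real.exp (‖a • x + b • z‖ ^ 2 / (a + b + ε) - a * ‖x‖ ^ 2 - b * ‖z‖ ^ 2) *
      Real.exp (-((a + b + ε) / (4 * ((a + b + ε) ^ 2 + (l - m) ^ 2))) *
        ‖(d - c) - (2 * (l - m)) • ((a + b + ε)⁻¹ • (a • x + b • z))‖ ^ 2) := by ring
    _ ≤ _ := by gcongr

lemma kr_bound {a : ℝ} (ha : 0 < a) (c : V) (l : ℝ) (x y : V) :
    ‖kr a c l x y‖ ≤ (4 * π * a) ^ (dn V / 2) := by
  unfold kr
  rw [norm_mul, norm_mul, Complex.norm_exp_ofReal_mul_I, Complex.norm_real, Complex.norm_real,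
    Real.norm_eq_abs, Real.norm_eq_abs, Real.abs_exp, abs_of_nonneg (by positivity), mul_one]
  refine mul_le_of_le_one_right (by positivity) ?_
  rw [Real.exp_le_one_iff]
  have : 0 ≤ a * ‖x - y‖ ^ 2 := by positivity
  linarith

lemma cont_kr {X : Type*} [TopologicalSpace X] (a : ℝ) (c : V) (l : ℝ) {p q : X → V}
    (hp : Continuous p) (hq : Continuous q) : Continuous (fun z => kr a c l (p z) (q z)) := by
  unfold kr
  fun_prop

lemma Sp_eq {f : V → ℂ} (hf : Integrable f) {a b : ℝ} (ha : 0 < a) (hb : 0 < b) (c d : V)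
    (l m : ℝ) {ε : ℝ} (hε : 0 < ε) :
    Sp f a c l b d m ε = ∫ z : V × V, f z.1 * conj (f z.2) * Kk a c l b d m ε z.1 z.2 := by
  unfold Sp Kk
  have h1 : ∀ y, Pf f a c l y * conj (Pf f b d m y) * (Real.exp (-ε * ‖y‖ ^ 2) : ℂ) =
      ∫ z : V × V, f z.1 * conj (f z.2) *
        (kr a c l z.1 y * conj (kr b d m z.2 y) * (Real.exp (-ε * ‖y‖ ^ 2) : ℂ)) := by
    intro y
    rw [Pf_eq hf ha, Pf_eq hf hb, ← integral_conj]
    rw [← integral_prod_mul (μ := (volume : Measure V)) (ν := (volume : Measure V))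
      (fun x => f x * kr a c l x y) (fun z => conj (f z * kr b d m z y)), ← integral_mul_const]
    refine integral_congr_ae (Filter.Eventually.of_forall fun z => ?_)
    simp only [map_mul]
    ring
  simp only [h1]
  rw [integral_integral_swap]
  · refine integral_congr_ae (Filter.Eventually.of_forall fun z => ?_)
    simp only
    rw [integral_const_mul]
  · have h2 : Integrable (fun z : V × V => f z.1 * conj (f z.2)) :=
      Integrable.mul_prod (f := f) (g := fun η => conj (f η)) hf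
        (Complex.conjCLE.toContinuousLinearMap.integrable_comp hf)
    have h3 : Integrable (fun w : V × (V × V) => (Real.exp (-ε * ‖w.1‖ ^ 2) : ℂ) *
        (f w.2.1 * conj (f w.2.2))) :=
      Integrable.mul_prod (f := fun y : V => (Real.exp (-ε * ‖y‖ ^ 2) : ℂ))
        (gint_integrable hε).ofReal h2
    have hk1 : Continuous (fun w : V × (V × V) => kr a c l w.2.1 w.1) :=
      cont_kr a c l (continuous_fst.comp continuous_snd) continuous_fst
    have hk2 : Continuous (fun w : V × (V × V) => conj (kr b d m w.2.2 w.1)) :=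
      Complex.continuous_conj.comp
        (cont_kr b d m (continuous_snd.comp continuous_snd) continuous_fst)
    have hk3 : ∀ w : V × (V × V), ‖kr a c l w.2.1 w.1 * conj (kr b d m w.2.2 w.1)‖ ≤
        (4 * π * a) ^ (dn V / 2) * (4 * π * b) ^ (dn V / 2) := by
      intro w
      rw [norm_mul, RCLike.norm_conj]
      exact mul_le_mul (kr_bound ha _ _ _ _) (kr_bound hb _ _ _ _) (norm_nonneg _)
        (by positivity)
    have h4 : Integrable (fun w : V × (V × V) => (Real.exp (-ε * ‖w.1‖ ^ 2) : ℂ) *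
        (f w.2.1 * conj (f w.2.2)) *
        (kr a c l w.2.1 w.1 * conj (kr b d m w.2.2 w.1))) :=
      h3.mul_bdd (hk1.mul hk2).aestronglyMeasurable (Filter.Eventually.of_forall hk3)
    refine h4.congr (Filter.Eventually.of_forall fun z => ?_)
    simp only [Function.uncurry]
    ring

/-- **Decay of the pairing for bounded functions.** -/
lemma Sp_bdd {f : V → ℂ} (hf : Integrable f) {M : ℝ} (hM : ∀ x, ‖f x‖ ≤ M) {a b : ℝ}
    (ha : 0 < a) (hb : 0 < b) (c d : V) {l m : ℝ} (hlm : l ≠ m) {ε : ℝ} (hε : 0 < ε)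
    (hεs : ε ≤ a + b) :
    ‖Sp f a c l b d m ε‖ ≤ M ^ 2 *
      (32 * π ^ 5 * (2 * (a + b) + |l - m|) / (l - m) ^ 2) ^ (dn V / 2) := by
  have hM0 : 0 ≤ M := (norm_nonneg _).trans (hM 0)
  have hd : 0 ≤ dn V / 2 := by have := dn_nonneg (V := V); positivity
  have ht : l - m ≠ 0 := sub_ne_zero.2 hlm
  have ht2 : 0 < (l - m) ^ 2 := by positivity
  set s := a + b with hs
  set g := a + b + ε with hg
  set t := l - m with htd
  have hs0 : 0 < s := by positivity
  have hg0 : 0 < g := by positivity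
  set κ := g / (4 * (g ^ 2 + t ^ 2)) with hκ
  have hκ0 : 0 < κ := by positivity
  set A := (4 * π * a) ^ (dn V / 2) * (4 * π * b) ^ (dn V / 2) * Gm V g t with hA
  have hA0 : 0 ≤ A := mul_nonneg (by positivity) (Gm_nonneg _ _)
  -- the bound for the kernel
  set B : V → V → ℝ := fun x z => A * Real.exp (-(a * b / s) * ‖x - z‖ ^ 2) *
      Real.exp (-κ * ‖(d - c) - (2 * t) • (g⁻¹ • (a • x + b • z))‖ ^ 2) with hB
  have hB0 : ∀ x z, 0 ≤ B x z := fun x z => by
    simp only [hB]; positivity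
  have hBc : Continuous (fun w : V × V => B w.1 w.2) := by
    simp only [hB]; fun_prop
  have h1 : ‖Sp f a c l b d m ε‖ₑ ≤ ∫⁻ x, ∫⁻ z, ENNReal.ofReal (M ^ 2) *
      ENNReal.ofReal (B x z) := by
    rw [Sp_eq hf ha hb c d l m hε]
    refine (enorm_integral_le_lintegral_enorm _).trans ?_
    rw [Measure.volume_eq_prod]
    refine (lintegral_mono (g := fun w : V × V => ENNReal.ofReal (M ^ 2) *
      ENNReal.ofReal (B w.1 w.2)) fun w => ?_).trans ?_
    · rw [enorm_mul, enorm_mul, ← ofReal_norm, ← ofReal_norm, ← ofReal_norm, RCLike.norm_conj,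
        ← ENNReal.ofReal_mul (norm_nonneg _)]
      refine mul_le_mul' (ENNReal.ofReal_le_ofReal ?_) (ENNReal.ofReal_le_ofReal ?_)
      · rw [sq]
        exact mul_le_mul (hM _) (hM _) (norm_nonneg _) hM0
      · exact norm_Kk ha hb c d l m hε w.1 w.2
    · rw [lintegral_prod]
      exact (hBc.measurable.ennreal_ofReal.const_mul _).aemeasurable
  -- substitution
  have h2 : ∫⁻ x, ∫⁻ z, ENNReal.ofReal (M ^ 2) * ENNReal.ofReal (B x z) =
      ∫⁻ u, ∫⁻ x, ENNReal.ofReal (M ^ 2) * ENNReal.ofReal (B x (x - u)) := by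
    rw [lintegral_lintegral_swap (f := fun u x => ENNReal.ofReal (M ^ 2) *
      ENNReal.ofReal (B x (x - u)))]
    · refine lintegral_congr fun x => ?_
      exact (lintegral_sub_left_eq_self (fun z => ENNReal.ofReal (M ^ 2) *
        ENNReal.ofReal (B x z)) x).symm
    · have hB2 : Continuous (fun w : V × V => B w.2 (w.2 - w.1)) :=
        hBc.comp (by fun_prop : Continuous fun w : V × V => ((w.2, w.2 - w.1) : V × V))
      exact (hB2.measurable.ennreal_ofReal.const_mul _).aemeasurable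
  -- inner integral
  have hβ : 2 * t * s / g ≠ 0 := by positivity
  have h3 : ∀ u : V, ∫⁻ x, ENNReal.ofReal (M ^ 2) * ENNReal.ofReal (B x (x - u)) =
      ENNReal.ofReal (M ^ 2 * (A * (π / (κ * (2 * t * s / g) ^ 2)) ^ (dn V / 2)) *
        Real.exp (-(a * b / s) * ‖u‖ ^ 2)) := by
    intro u
    set v : V := (2 * t * s / g)⁻¹ • ((d - c) + (2 * t / g) • (b • u)) with hv
    have e1 : ∀ x : V, B x (x - u) = A * Real.exp (-(a * b / s) * ‖u‖ ^ 2) *
        Real.exp (-(κ * (2 * t * s / g) ^ 2) * ‖x - v‖ ^ 2) := by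
      intro x
      simp only [hB]
      have e2 : x - (x - u) = u := by abel
      have e3 : (d - c) - (2 * t) • (g⁻¹ • (a • x + b • (x - u))) =
          (-(2 * t * s / g)) • (x - v) := by
        rw [neg_smul, smul_sub (2 * t * s / g) x v, hv, smul_smul (2 * t * s / g),
          mul_inv_cancel₀ hβ, one_smul, hs]
        module
      rw [e2, e3, norm_smul, mul_pow, norm_neg, Real.norm_eq_abs, sq_abs]
      congr 2
      ring
    have e4 : ∀ x : V, ENNReal.ofReal (M ^ 2) * ENNReal.ofReal (B x (x - u)) =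
        ENNReal.ofReal (M ^ 2 * (A * Real.exp (-(a * b / s) * ‖u‖ ^ 2)) *
          Real.exp (-(κ * (2 * t * s / g) ^ 2) * ‖x - v‖ ^ 2)) := by
      intro x
      rw [← ENNReal.ofReal_mul (by positivity), e1 x]
      congr 1
      ring
    simp only [e4]
    rw [← ofReal_integral_eq_lintegral_ofReal]
    · rw [integral_const_mul, gint_shift (by positivity) v]
      congr 1
      ring
    · exact (gint_shift_integrable (by positivity) v).const_mul _
    · exact Filter.Eventually.of_forall fun x => by simp only [Pi.zero_apply]; positivity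
  have h4 : ‖Sp f a c l b d m ε‖ₑ ≤ ENNReal.ofReal (M ^ 2 *
      (A * (π / (κ * (2 * t * s / g) ^ 2)) ^ (dn V / 2)) * (π / (a * b / s)) ^ (dn V / 2)) := by
    refine h1.trans ?_
    rw [h2]
    simp only [h3]
    rw [← ofReal_integral_eq_lintegral_ofReal]
    · rw [integral_const_mul, gint (by positivity)]
    · exact (gint_integrable (by positivity)).const_mul _
    · exact Filter.Eventually.of_forall fun x => by simp only [Pi.zero_apply]; positivity
  rw [← ofReal_norm] at h4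
  have h5 := (ENNReal.ofReal_le_ofReal_iff (by positivity)).1 h4
  refine h5.trans ?_
  rw [mul_assoc]
  refine mul_le_mul_of_nonneg_left ?_ (by positivity)
  rw [hA]
  unfold Gm
  rw [← Real.mul_rpow (by positivity) (by positivity),
    ← Real.mul_rpow (by positivity) (by positivity),
    ← Real.mul_rpow (by positivity) (by positivity),
    ← Real.mul_rpow (by positivity) (by positivity)]
  refine Real.rpow_le_rpow (by positivity) ?_ hd
  set R := √(g ^ 2 + t ^ 2) with hR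
  have hR0 : 0 < R := Real.sqrt_pos.2 (by positivity)
  have hR2 : R ^ 2 = g ^ 2 + t ^ 2 := Real.sq_sqrt (by positivity)
  have hRle : R ≤ g + |t| := by
    rw [hR, Real.sqrt_le_left (by positivity)]
    have := abs_nonneg t
    nlinarith [sq_abs t]
  have e5 : 4 * π * a * (4 * π * b) * (π / R) * (π / (κ * (2 * t * s / g) ^ 2)) *
      (π / (a * b / s)) = 16 * π ^ 5 * R * g / (t ^ 2 * s) := by
    rw [hκ, ← hR2]
    field_simp
    ring
  rw [e5]
  have hgs : g ≤ 2 * s := by rw [hg, hs]; linarith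
  rw [div_le_div_iff₀ (by positivity) (by positivity)]
  have h6 : R * g ≤ (2 * s + |t|) * (2 * s) := by
    refine mul_le_mul (hRle.trans (by linarith)) hgs hg0.le (by positivity)
  have h7 : 0 ≤ 16 * π ^ 5 * t ^ 2 := by positivity
  calc 16 * π ^ 5 * R * g * t ^ 2 = 16 * π ^ 5 * t ^ 2 * (R * g) := by ring
    _ ≤ 16 * π ^ 5 * t ^ 2 * ((2 * s + |t|) * (2 * s)) := mul_le_mul_of_nonneg_left h6 h7
    _ = 32 * π ^ 5 * (2 * s + |t|) * (t ^ 2 * s) := by ring

end Pool.Agent.U571.BS
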