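import Pool.Agent.U571.BS.Ops

set_option autoImplicit false
set_option linter.unusedSectionVars false

namespace Pool.Agent.U571.BS

open MeasureTheory Complex Set
open scoped Real ENNReal RealInnerProductSpace ComplexConjugate

variable {V : Type*} [NormedAddCommGroup V] [InnerProductSpace ℝ V] [FiniteDimensional ℝ V]
  [MeasurableSpace V] [BorelSpace V]

/-- the regularised pairing -/
noncomputable def Sp (f : V → ℂ) (a : ℝ) (c : V) (l b : ℝ) (d : V) (m ε : ℝ) : ℂ :=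
  ∫ y, Pf f a c l y * conj (Pf f b d m y) * (Real.exp (-ε * ‖y‖ ^ 2) : ℂ)

/-- the size of a Gaussian integral -/
noncomputable def Gm (V : Type*) [NormedAddCommGroup V] [InnerProductSpace ℝ V] (s t : ℝ) : ℝ :=
  (π / √(s ^ 2 + t ^ 2)) ^ (dn V / 2)

lemma Gm_nonneg (s t : ℝ) : 0 ≤ Gm V s t := by
  unfold Gm; positivity

lemma norm_gauss {s : ℝ} (hs : 0 < s) (t : ℝ) (u : V) :
    ‖∫ y : V, cexp (-((s : ℂ) + t * I) * ‖y‖ ^ 2 + I * ⟪u, y⟫)‖ =
      Gm V s t * Real.exp (-(s / (4 * (s ^ 2 + t ^ 2))) * ‖u‖ ^ 2) := by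
  have hre : 0 < ((s : ℂ) + t * I).re := by simpa using hs
  rw [GaussianFourier.integral_cexp_neg_mul_sq_norm_add hre I u]
  have hn : ‖((s : ℂ) + t * I)‖ = √(s ^ 2 + t ^ 2) := Complex.norm_add_mul_I s t
  rw [norm_mul, Complex.norm_exp]
  have h1 : ‖((π : ℂ) / ((s : ℂ) + t * I)) ^ ((Module.finrank ℝ V : ℂ) / 2)‖ = Gm V s t := by
    have h2 : ((Module.finrank ℝ V : ℂ) / 2) = ((dn V / 2 : ℝ) : ℂ) := by
      unfold dn; push_cast; ring
    rw [h2, Complex.norm_cpow_real, norm_div, hn, Complex.norm_real, Real.norm_eq_abs,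
      abs_of_pos Real.pi_pos]
    rfl
  rw [h1]
  congr 2
  rw [Complex.I_sq]
  have h3 : (-1 : ℂ) * (‖u‖ : ℂ) ^ 2 / (4 * ((s : ℂ) + t * I)) =
      ((-(‖u‖ ^ 2 / 4) : ℝ) : ℂ) * ((s : ℂ) + t * I)⁻¹ := by
    rw [mul_comm (4 : ℂ), ← div_div]
    push_cast
    rw [div_eq_mul_inv, div_eq_mul_inv]
    ring
  rw [h3, Complex.re_ofReal_mul, Complex.inv_re]
  have h4 : Complex.normSq ((s : ℂ) + t * I) = s ^ 2 + t ^ 2 := Complex.normSq_add_mul_I s t
  rw [h4]
  have h5 : ((s : ℂ) + t * I).re = s := by simp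
  rw [h5]
  field_simp

lemma ph_mul (l m : ℝ) (y ξ η : V) (ε : ℝ) :
    conj (ph l y ξ) * ph m y η * (Real.exp (-ε * ‖y‖ ^ 2) : ℂ) =
      cexp (-((ε : ℂ) + ((l - m : ℝ) : ℂ) * I) * ‖y‖ ^ 2 + I * ⟪η - ξ, y⟫) := by
  rw [conj_ph]
  unfold ph
  rw [Complex.ofReal_exp, ← Complex.exp_add, ← Complex.exp_add]
  congr 1
  rw [inner_sub_left, real_inner_comm y η, real_inner_comm y ξ]
  push_cast
  ring

/-- representation of the pairing on the Fourier side -/
lemma Sp_rep {f : V → ℂ} (hf : Integrable f) {a b : ℝ} (ha : 0 < a) (hb : 0 < b) (c d : V)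
    (l m : ℝ) {ε : ℝ} (hε : 0 < ε) :
    Sp f a c l b d m ε = ∫ z : V × V, ((wt a c z.1 : ℂ) * Fx f l z.1) *
      conj ((wt b d z.2 : ℂ) * Fx f m z.2) *
        ∫ y : V, cexp (-((ε : ℂ) + ((l - m : ℝ) : ℂ) * I) * ‖y‖ ^ 2 + I * ⟪z.2 - z.1, y⟫) := by
  unfold Sp Pf
  have h1 : ∀ y, (∫ ξ, (wt a c ξ : ℂ) * Fx f l ξ * conj (ph l y ξ)) *
      conj (∫ ξ, (wt b d ξ : ℂ) * Fx f m ξ * conj (ph m y ξ)) * (Real.exp (-ε * ‖y‖ ^ 2) : ℂ) =
      ∫ z : V × V, ((wt a c z.1 : ℂ) * Fx f l z.1) * conj ((wt b d z.2 : ℂ) * Fx f m z.2) *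
        (conj (ph l y z.1) * ph m y z.2 * (Real.exp (-ε * ‖y‖ ^ 2) : ℂ)) := by
    intro y
    rw [← integral_conj]
    rw [← integral_prod_mul (μ := (volume : Measure V)) (ν := (volume : Measure V))
      (fun ξ => (wt a c ξ : ℂ) * Fx f l ξ * conj (ph l y ξ))
      (fun ξ => conj ((wt b d ξ : ℂ) * Fx f m ξ * conj (ph m y ξ))), ← integral_mul_const]
    refine integral_congr_ae (Filter.Eventually.of_forall fun z => ?_)
    simp only [map_mul, Complex.conj_conj]
    ring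
  simp only [h1]
  rw [integral_integral_swap]
  · refine integral_congr_ae (Filter.Eventually.of_forall fun z => ?_)
    simp only
    rw [integral_const_mul]
    congr 1
    refine integral_congr_ae (Filter.Eventually.of_forall fun y => ?_)
    exact ph_mul l m y z.1 z.2 ε
  · have h2 : Integrable (fun z : V × V => ((wt a c z.1 : ℂ) * Fx f l z.1) *
        conj ((wt b d z.2 : ℂ) * Fx f m z.2)) :=
      Integrable.mul_prod (f := fun ξ => (wt a c ξ : ℂ) * Fx f l ξ)
        (g := fun η => conj ((wt b d η : ℂ) * Fx f m η)) (wF_integrable hf ha c l)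
        (Complex.conjCLE.toContinuousLinearMap.integrable_comp (wF_integrable hf hb d m))
    have h3 : Integrable (fun w : V × (V × V) => (Real.exp (-ε * ‖w.1‖ ^ 2) : ℂ) *
        (((wt a c w.2.1 : ℂ) * Fx f l w.2.1) * conj ((wt b d w.2.2 : ℂ) * Fx f m w.2.2))) :=
      Integrable.mul_prod (f := fun y : V => (Real.exp (-ε * ‖y‖ ^ 2) : ℂ))
        (gint_integrable hε).ofReal h2
    have h4 : Integrable (fun w : V × (V × V) => (Real.exp (-ε * ‖w.1‖ ^ 2) : ℂ) *
        (((wt a c w.2.1 : ℂ) * Fx f l w.2.1) * conj ((wt b d w.2.2 : ℂ) * Fx f m w.2.2)) *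
        (conj (ph l w.1 w.2.1) * ph m w.1 w.2.2)) := by
      refine h3.mul_bdd (c := 1) ?_ (Filter.Eventually.of_forall fun z => ?_)
      · refine Continuous.aestronglyMeasurable ?_
        refine Continuous.mul ?_ ?_
        · exact Complex.continuous_conj.comp (cont_ph.comp
            (by fun_prop : Continuous fun w : V × (V × V) => ((l, w.1, w.2.1) : ℝ × V × V)))
        · exact (cont_ph.comp
            (by fun_prop : Continuous fun w : V × (V × V) => ((m, w.1, w.2.2) : ℝ × V × V)))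
      · rw [norm_mul, norm_ph, norm_conj_ph, mul_one]
    refine h4.congr (Filter.Eventually.of_forall fun z => ?_)
    simp only [Function.uncurry]
    ring

/-- bound of the pairing by a positive double integral -/
lemma Sp_enorm_le {f : V → ℂ} (hf : Integrable f) {a b : ℝ} (ha : 0 < a) (hb : 0 < b) (c d : V)
    (l m : ℝ) {ε : ℝ} (hε : 0 < ε) :
    ‖Sp f a c l b d m ε‖ₑ ≤ ∫⁻ ξ, ∫⁻ η, ‖(wt a c ξ : ℂ) * Fx f l ξ‖ₑ *
      ‖(wt b d η : ℂ) * Fx f m η‖ₑ * ENNReal.ofReal (Gm V ε (l - m) *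
        Real.exp (-(ε / (4 * (ε ^ 2 + (l - m) ^ 2))) * ‖η - ξ‖ ^ 2)) := by
  rw [Sp_rep hf ha hb c d l m hε]
  refine (enorm_integral_le_lintegral_enorm _).trans (le_of_eq ?_)
  rw [Measure.volume_eq_prod, lintegral_prod]
  · refine lintegral_congr fun ξ => lintegral_congr fun η => ?_
    simp only [enorm_mul]
    congr 1
    · congr 1
      rw [← enorm_mul, ← ofReal_norm, RCLike.norm_conj, ofReal_norm]
    · rw [← norm_gauss hε (l - m) (η - ξ), ofReal_norm]
  · refine AEMeasurable.enorm ?_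
    refine Measurable.aemeasurable ?_
    refine Measurable.mul ?_ ?_
    · refine Measurable.mul ?_ ?_
      · exact (((Complex.continuous_ofReal.comp (cont_wt a c)).mul (cont_Fx hf l)).comp
          continuous_fst).measurable
      · exact (Complex.continuous_conj.comp (((Complex.continuous_ofReal.comp
          (cont_wt b d)).mul (cont_Fx hf m)).comp continuous_snd)).measurable
    · refine (StronglyMeasurable.integral_prod_right (f := fun (z : V × V) (y : V) =>
        cexp (-((ε : ℂ) + ((l - m : ℝ) : ℂ) * I) * ‖y‖ ^ 2 + I * ⟪z.2 - z.1, y⟫)) ?_).measurable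
      refine Continuous.stronglyMeasurable ?_
      unfold Function.uncurry
      fun_prop

end Pool.Agent.U571.BS
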