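import Pool.Agent.U571.BS.Sb

set_option autoImplicit false
set_option linter.unusedSectionVars false

namespace Pool.Agent.U571.BS

open MeasureTheory Complex Set
open scoped Real ENNReal RealInnerProductSpace ComplexConjugate

variable {V : Type*} [NormedAddCommGroup V] [InnerProductSpace ℝ V] [FiniteDimensional ℝ V]
  [MeasurableSpace V] [BorelSpace V]

lemma dn_nonneg : 0 ≤ dn V := by unfold dn; positivity

/-- Cauchy-Schwarz for the weight -/
lemma cs_wt {f : V → ℂ} (hf : Integrable f) {a : ℝ} (ha : 0 < a) (c : V) (l : ℝ) :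
    (∫ ξ, wt a c ξ * ‖Fx f l ξ‖) ^ 2 ≤ (4 * π * a) ^ (dn V / 2) * El f a c l := by
  set A := (4 * π * a) ^ (dn V / 2) with hA
  have hA0 : 0 < A := by rw [hA]; positivity
  set J := ∫ ξ, wt a c ξ * ‖Fx f l ξ‖ with hJ
  have i1 : Integrable (fun ξ => wt a c ξ * ‖Fx f l ξ‖) := by
    refine Integrable.mul_bdd (c := ∫ x, ‖f x‖) (wt_integrable ha c)
      (cont_Fx hf l).norm.aestronglyMeasurable (Filter.Eventually.of_forall fun ξ => ?_)
    rw [norm_norm]
    exact Fx_bound f l ξ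
  have h : 0 ≤ ∫ ξ, wt a c ξ * (‖Fx f l ξ‖ - J / A) ^ 2 :=
    integral_nonneg fun ξ => mul_nonneg (wt_pos a c ξ).le (sq_nonneg _)
  have h2 : ∫ ξ, wt a c ξ * (‖Fx f l ξ‖ - J / A) ^ 2 =
      El f a c l - 2 * (J / A) * J + (J / A) ^ 2 * A := by
    have : ∀ ξ, wt a c ξ * (‖Fx f l ξ‖ - J / A) ^ 2 =
        (wt a c ξ * ‖Fx f l ξ‖ ^ 2 - 2 * (J / A) * (wt a c ξ * ‖Fx f l ξ‖)) +
          (J / A) ^ 2 * wt a c ξ := fun ξ => by ring
    simp only [this]
    rw [integral_add, integral_sub, integral_const_mul, integral_const_mul, wt_int ha c]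
    · rfl
    · exact El_integrable hf ha c l
    · exact i1.const_mul _
    · exact (El_integrable hf ha c l).sub (i1.const_mul _)
    · exact (wt_integrable ha c).const_mul _
  rw [h2] at h
  have h3 : El f a c l - 2 * (J / A) * J + (J / A) ^ 2 * A = El f a c l - J ^ 2 / A := by
    field_simp
    ring
  rw [h3] at h
  have h4 : J ^ 2 / A ≤ El f a c l := by linarith
  rw [div_le_iff₀ hA0] at h4
  linarith

lemma wF_lint {f : V → ℂ} (hf : Integrable f) {a : ℝ} (ha : 0 < a) (c : V) (l : ℝ) :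
    ∫⁻ ξ, ‖(wt a c ξ : ℂ) * Fx f l ξ‖ₑ = ENNReal.ofReal (∫ ξ, wt a c ξ * ‖Fx f l ξ‖) := by
  rw [← ofReal_integral_norm_eq_lintegral_enorm (wF_integrable hf ha c l)]
  congr 1
  refine integral_congr_ae (Filter.Eventually.of_forall fun ξ => ?_)
  simp only [norm_mul, Complex.norm_real, Real.norm_eq_abs, abs_of_pos (wt_pos a c ξ)]

lemma Gm_le {s t : ℝ} (ht : t ≠ 0) : Gm V s t ≤ (π / |t|) ^ (dn V / 2) := by
  unfold Gm
  refine Real.rpow_le_rpow (by positivity) ?_ (by have := dn_nonneg (V := V); positivity)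
  refine div_le_div_of_nonneg_left Real.pi_pos.le (abs_pos.2 ht) ?_
  rw [← Real.sqrt_sq_eq_abs]
  exact Real.sqrt_le_sqrt (by nlinarith [sq_nonneg s])

/-- bound of the pairing for far times by the masses -/
lemma Sp_far {f : V → ℂ} (hf : Integrable f) {a b K : ℝ} (ha : 0 < a) (hb : 0 < b)
    (haK : a ≤ K) (hbK : b ≤ K) (c d : V) {l m : ℝ} (hlm : l ≠ m) {ε : ℝ} (hε : 0 < ε) :
    ‖Sp f a c l b d m ε‖ ≤ (4 * π ^ 2 * K / |l - m|) ^ (dn V / 2) *
      ((El f a c l + El f b d m) / 2) := by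
  have hd : 0 ≤ dn V / 2 := by have := dn_nonneg (V := V); positivity
  have ht : l - m ≠ 0 := sub_ne_zero.2 hlm
  have hK : 0 < K := lt_of_lt_of_le ha haK
  set J1 := ∫ ξ, wt a c ξ * ‖Fx f l ξ‖ with hJ1
  set J2 := ∫ ξ, wt b d ξ * ‖Fx f m ξ‖ with hJ2
  have hJ1n : 0 ≤ J1 := integral_nonneg fun ξ => mul_nonneg (wt_pos _ _ _).le (norm_nonneg _)
  have hJ2n : 0 ≤ J2 := integral_nonneg fun ξ => mul_nonneg (wt_pos _ _ _).le (norm_nonneg _)
  have h1 : ‖Sp f a c l b d m ε‖ₑ ≤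
      ENNReal.ofReal ((π / |l - m|) ^ (dn V / 2) * J1 * J2) := by
    refine (Sp_enorm_le hf ha hb c d l m hε).trans ?_
    have h2 : ∀ ξ η : V, ‖(wt a c ξ : ℂ) * Fx f l ξ‖ₑ *
        ‖(wt b d η : ℂ) * Fx f m η‖ₑ * ENNReal.ofReal (Gm V ε (l - m) *
        Real.exp (-(ε / (4 * (ε ^ 2 + (l - m) ^ 2))) * ‖η - ξ‖ ^ 2)) ≤
        ‖(wt a c ξ : ℂ) * Fx f l ξ‖ₑ * (ENNReal.ofReal ((π / |l - m|) ^ (dn V / 2)) *
          ‖(wt b d η : ℂ) * Fx f m η‖ₑ) := by
      intro ξ η
      rw [mul_assoc]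
      refine mul_le_mul' le_rfl ?_
      rw [mul_comm]
      refine mul_le_mul' (ENNReal.ofReal_le_ofReal ?_) le_rfl
      calc Gm V ε (l - m) * Real.exp (-(ε / (4 * (ε ^ 2 + (l - m) ^ 2))) * ‖η - ξ‖ ^ 2)
          ≤ (π / |l - m|) ^ (dn V / 2) * 1 := by
            refine mul_le_mul (Gm_le ht) ?_ (Real.exp_pos _).le (by positivity)
            rw [Real.exp_le_one_iff]
            have : 0 ≤ (ε / (4 * (ε ^ 2 + (l - m) ^ 2))) * ‖η - ξ‖ ^ 2 := by positivity
            linarith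
        _ = _ := mul_one _
    refine (lintegral_mono fun ξ => lintegral_mono fun η => h2 ξ η).trans (le_of_eq ?_)
    have m1 : Measurable fun η => ‖(wt b d η : ℂ) * Fx f m η‖ₑ :=
      (((Complex.continuous_ofReal.comp (cont_wt b d)).mul (cont_Fx hf m))).measurable.enorm
    have m0 : Measurable fun η => ‖(wt a c η : ℂ) * Fx f l η‖ₑ :=
      (((Complex.continuous_ofReal.comp (cont_wt a c)).mul (cont_Fx hf l))).measurable.enorm
    have h3 : ∀ ξ : V, ∫⁻ η, ‖(wt a c ξ : ℂ) * Fx f l ξ‖ₑ *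
        (ENNReal.ofReal ((π / |l - m|) ^ (dn V / 2)) * ‖(wt b d η : ℂ) * Fx f m η‖ₑ) =
        ‖(wt a c ξ : ℂ) * Fx f l ξ‖ₑ *
          (ENNReal.ofReal ((π / |l - m|) ^ (dn V / 2)) * ENNReal.ofReal J2) := by
      intro ξ
      rw [lintegral_const_mul _ (m1.const_mul _), lintegral_const_mul _ m1,
        wF_lint hf hb d m]
    simp only [h3]
    rw [lintegral_mul_const _ m0, wF_lint hf ha c l, ← ENNReal.ofReal_mul (by positivity),
      ← ENNReal.ofReal_mul hJ1n]
    congr 1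
    ring
  have h4 : ‖Sp f a c l b d m ε‖ ≤ (π / |l - m|) ^ (dn V / 2) * J1 * J2 := by
    rw [← ofReal_norm] at h1
    exact (ENNReal.ofReal_le_ofReal_iff (by positivity)).1 h1
  have h5 : J1 ^ 2 ≤ (4 * π * K) ^ (dn V / 2) * El f a c l := by
    refine (cs_wt hf ha c l).trans ?_
    refine mul_le_mul_of_nonneg_right ?_ (El_nonneg _ _ _ _)
    exact Real.rpow_le_rpow (by positivity) (by gcongr) hd
  have h6 : J2 ^ 2 ≤ (4 * π * K) ^ (dn V / 2) * El f b d m := by
    refine (cs_wt hf hb d m).trans ?_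
    refine mul_le_mul_of_nonneg_right ?_ (El_nonneg _ _ _ _)
    exact Real.rpow_le_rpow (by positivity) (by gcongr) hd
  have h7 : J1 * J2 ≤ (4 * π * K) ^ (dn V / 2) * ((El f a c l + El f b d m) / 2) := by
    nlinarith [sq_nonneg (J1 - J2)]
  have h8 : (4 * π ^ 2 * K / |l - m|) ^ (dn V / 2) =
      (π / |l - m|) ^ (dn V / 2) * (4 * π * K) ^ (dn V / 2) := by
    rw [← Real.mul_rpow (by positivity) (by positivity)]
    congr 1
    ring
  rw [h8, mul_assoc]
  refine h4.trans ?_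
  rw [mul_assoc]
  exact mul_le_mul_of_nonneg_left h7 (by positivity)

/-- the regularised square norm -/
noncomputable def Qn (f : V → ℂ) (a : ℝ) (c : V) (l ε : ℝ) : ℝ :=
  ∫ y, ‖Pf f a c l y‖ ^ 2 * Real.exp (-ε * ‖y‖ ^ 2)

lemma Sp_self (f : V → ℂ) (a : ℝ) (c : V) (l ε : ℝ) :
    Sp f a c l a c l ε = (Qn f a c l ε : ℂ) := by
  unfold Sp Qn
  have h9 : ((∫ y, ‖Pf f a c l y‖ ^ 2 * Real.exp (-ε * ‖y‖ ^ 2) : ℝ) : ℂ) =
      ∫ y, ((‖Pf f a c l y‖ ^ 2 * Real.exp (-ε * ‖y‖ ^ 2) : ℝ) : ℂ) :=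
    (integral_ofReal (𝕜 := ℂ) (f := fun y => ‖Pf f a c l y‖ ^ 2 * Real.exp (-ε * ‖y‖ ^ 2))
      (μ := volume)).symm
  rw [h9]
  refine integral_congr_ae (Filter.Eventually.of_forall fun y => ?_)
  simp only
  rw [Complex.mul_conj, Complex.normSq_eq_norm_sq]
  push_cast
  ring

lemma Qn_le {f : V → ℂ} (hf : Integrable f) {a : ℝ} (ha : 0 < a) (c : V) (l : ℝ) {ε : ℝ}
    (hε : 0 < ε) : Qn f a c l ε ≤ (2 * π) ^ (dn V) * El f a c l := by
  have hd : 0 ≤ dn V / 2 := by have := dn_nonneg (V := V); positivity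
  have hQ0 : 0 ≤ Qn f a c l ε :=
    integral_nonneg fun y => mul_nonneg (by positivity) (Real.exp_pos _).le
  have hE0 := El_nonneg f a c l
  set g : V → ℂ := fun ξ => (wt a c ξ : ℂ) * Fx f l ξ with hg
  have mg : Measurable g := ((Complex.continuous_ofReal.comp (cont_wt a c)).mul
    (cont_Fx hf l)).measurable
  set G : V → ℝ := fun u => Gm V ε 0 * Real.exp (-(1 / (4 * ε)) * ‖u‖ ^ 2) with hG
  have mG : Measurable G := by
    have : Continuous G := by rw [hG]; fun_prop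
    exact this.measurable
  have G0 : ∀ u, 0 ≤ G u := fun u => mul_nonneg (Gm_nonneg _ _) (Real.exp_pos _).le
  have Gint : ∫⁻ u, ENNReal.ofReal (G u) = ENNReal.ofReal ((2 * π) ^ (dn V)) := by
    rw [← ofReal_integral_eq_lintegral_ofReal _ (Filter.Eventually.of_forall G0)]
    · congr 1
      rw [hG]
      simp only
      rw [integral_const_mul, gint (by positivity)]
      unfold Gm
      rw [← Real.mul_rpow (by positivity) (by positivity)]
      have : π / √(ε ^ 2 + 0 ^ 2) * (π / (1 / (4 * ε))) = (2 * π) ^ (2 : ℝ) := by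
        rw [zero_pow two_ne_zero, add_zero, Real.sqrt_sq hε.le, Real.rpow_two]
        field_simp
        ring
      rw [this, ← Real.rpow_mul (by positivity)]
      congr 1
      ring
    · exact (gint_integrable (by positivity)).const_mul _
  have key : ENNReal.ofReal (Qn f a c l ε) ≤ ENNReal.ofReal ((2 * π) ^ (dn V) * El f a c l) := by
    have h1 := Sp_enorm_le hf ha ha c c l l hε
    rw [Sp_self] at h1
    have h2 : ‖((Qn f a c l ε : ℝ) : ℂ)‖ₑ = ENNReal.ofReal (Qn f a c l ε) := by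
      rw [← ofReal_norm, Complex.norm_real, Real.norm_eq_abs, abs_of_nonneg hQ0]
    rw [h2] at h1
    refine h1.trans ?_
    have h3 : ∀ ξ η : V, ‖(wt a c ξ : ℂ) * Fx f l ξ‖ₑ *
        ‖(wt a c η : ℂ) * Fx f l η‖ₑ * ENNReal.ofReal (Gm V ε (l - l) *
        Real.exp (-(ε / (4 * (ε ^ 2 + (l - l) ^ 2))) * ‖η - ξ‖ ^ 2)) ≤
        ENNReal.ofReal (‖g ξ‖ ^ 2 / 2) * ENNReal.ofReal (G (η - ξ)) +
          ENNReal.ofReal (‖g η‖ ^ 2 / 2) * ENNReal.ofReal (G (η - ξ)) := by
      intro ξ η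
      rw [← add_mul, ← ENNReal.ofReal_add (by positivity) (by positivity), ← ofReal_norm,
        ← ofReal_norm, ← ENNReal.ofReal_mul (norm_nonneg _)]
      have e1 : Gm V ε (l - l) *
        Real.exp (-(ε / (4 * (ε ^ 2 + (l - l) ^ 2))) * ‖η - ξ‖ ^ 2) = G (η - ξ) := by
        rw [hG]
        simp only [sub_self]
        congr 3
        field_simp
        ring
      rw [e1]
      gcongr
      have := two_mul_le_add_sq ‖g ξ‖ ‖g η‖
      have e2 : ‖(wt a c ξ : ℂ) * Fx f l ξ‖ * ‖(wt a c η : ℂ) * Fx f l η‖ = ‖g ξ‖ * ‖g η‖ := rfl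
      rw [e2]
      linarith
    refine (lintegral_mono fun ξ => lintegral_mono fun η => h3 ξ η).trans ?_
    have mm1 : Measurable fun ξ => ENNReal.ofReal (‖g ξ‖ ^ 2 / 2) :=
      ((mg.norm.pow_const 2).div_const 2).ennreal_ofReal
    have hsum : ∫⁻ ξ, ENNReal.ofReal (‖g ξ‖ ^ 2 / 2) ≤ ENNReal.ofReal (El f a c l / 2) := by
      unfold El
      rw [← integral_div, ofReal_integral_eq_lintegral_ofReal
        ((El_integrable hf ha c l).div_const 2) (Filter.Eventually.of_forall fun ξ => by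
          have := wt_pos a c ξ
          simp only [Pi.zero_apply]
          positivity)]
      refine lintegral_mono fun ξ => ENNReal.ofReal_le_ofReal ?_
      have e3 : ‖g ξ‖ = wt a c ξ * ‖Fx f l ξ‖ := by
        rw [hg]
        simp only [norm_mul, Complex.norm_real, Real.norm_eq_abs, abs_of_pos (wt_pos a c ξ)]
      rw [e3, mul_pow]
      have h5 := wt_le ha c ξ
      have h6 := wt_pos a c ξ
      have h7 : wt a c ξ ^ 2 ≤ wt a c ξ := by nlinarith
      have := mul_le_mul_of_nonneg_right h7 (sq_nonneg ‖Fx f l ξ‖)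
      linarith
    have hfirst : ∫⁻ ξ, ∫⁻ η, ENNReal.ofReal (‖g ξ‖ ^ 2 / 2) * ENNReal.ofReal (G (η - ξ)) ≤
        ENNReal.ofReal (El f a c l / 2) * ENNReal.ofReal ((2 * π) ^ (dn V)) := by
      have : ∀ ξ : V, ∫⁻ η, ENNReal.ofReal (‖g ξ‖ ^ 2 / 2) * ENNReal.ofReal (G (η - ξ)) =
          ENNReal.ofReal (‖g ξ‖ ^ 2 / 2) * ENNReal.ofReal ((2 * π) ^ (dn V)) := by
        intro ξ
        rw [lintegral_const_mul _ (by
          exact (mG.comp (measurable_id.sub_const ξ)).ennreal_ofReal)]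
        rw [lintegral_sub_right_eq_self (fun η => ENNReal.ofReal (G η)) ξ, Gint]
      simp only [this]
      rw [lintegral_mul_const _ mm1]
      gcongr
    have hsecond : ∫⁻ ξ, ∫⁻ η, ENNReal.ofReal (‖g η‖ ^ 2 / 2) * ENNReal.ofReal (G (η - ξ)) ≤
        ENNReal.ofReal (El f a c l / 2) * ENNReal.ofReal ((2 * π) ^ (dn V)) := by
      rw [lintegral_lintegral_swap]
      · have : ∀ η : V, ∫⁻ ξ, ENNReal.ofReal (‖g η‖ ^ 2 / 2) * ENNReal.ofReal (G (η - ξ)) =
            ENNReal.ofReal (‖g η‖ ^ 2 / 2) * ENNReal.ofReal ((2 * π) ^ (dn V)) := by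
          intro η
          rw [lintegral_const_mul _ (by
            exact (mG.comp (measurable_const.sub measurable_id)).ennreal_ofReal)]
          rw [lintegral_sub_left_eq_self (fun η => ENNReal.ofReal (G η)) η, Gint]
        simp only [this]
        rw [lintegral_mul_const _ mm1]
        gcongr
      · refine Measurable.aemeasurable ?_
        refine Measurable.mul (mm1.comp measurable_snd) ?_
        exact (mG.comp (measurable_snd.sub measurable_fst)).ennreal_ofReal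
    have hadd : ∫⁻ ξ, ∫⁻ η, (ENNReal.ofReal (‖g ξ‖ ^ 2 / 2) * ENNReal.ofReal (G (η - ξ)) +
          ENNReal.ofReal (‖g η‖ ^ 2 / 2) * ENNReal.ofReal (G (η - ξ))) =
        (∫⁻ ξ, ∫⁻ η, ENNReal.ofReal (‖g ξ‖ ^ 2 / 2) * ENNReal.ofReal (G (η - ξ))) +
          ∫⁻ ξ, ∫⁻ η, ENNReal.ofReal (‖g η‖ ^ 2 / 2) * ENNReal.ofReal (G (η - ξ)) := by
      rw [← lintegral_add_left]
      · refine lintegral_congr fun ξ => ?_
        rw [lintegral_add_left]
        exact ((mG.comp (measurable_id.sub_const ξ)).ennreal_ofReal).const_mul _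
      · refine Measurable.lintegral_prod_right ?_
        exact (mm1.comp measurable_fst).mul
          (mG.comp (measurable_snd.sub measurable_fst)).ennreal_ofReal
    rw [hadd]
    refine (add_le_add hfirst hsecond).trans (le_of_eq ?_)
    rw [← ENNReal.ofReal_mul (by positivity), ← ENNReal.ofReal_add (by positivity)
      (by positivity)]
    congr 1
    ring
  exact (ENNReal.ofReal_le_ofReal_iff (by positivity)).1 key

end Pool.Agent.U571.BS
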