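import Pool.Agent.U571.BS.Asm

set_option autoImplicit false
set_option linter.unusedSectionVars false

namespace Pool.Agent.U571.BS

open MeasureTheory Complex Set
open scoped Real ENNReal RealInnerProductSpace ComplexConjugate

variable {V : Type*} [NormedAddCommGroup V] [InnerProductSpace ℝ V] [FiniteDimensional ℝ V]
  [MeasurableSpace V] [BorelSpace V]

/-- the tail kernel -/
noncomputable def Jk (p K t : ℝ) : ℝ := if |t| ≤ K then 0 else (K / |t|) ^ p

lemma Jk_nonneg {p K : ℝ} (hK : 0 < K) (t : ℝ) : 0 ≤ Jk p K t := by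
  unfold Jk
  split_ifs
  · exact le_rfl
  · positivity

lemma Jk_neg (p K t : ℝ) : Jk p K (-t) = Jk p K t := by
  unfold Jk; rw [abs_neg]

lemma Jk_meas (p K : ℝ) : Measurable (Jk p K) := by
  unfold Jk
  refine Measurable.ite ?_ measurable_const ?_
  · exact measurableSet_le measurable_id.abs measurable_const
  · exact (measurable_id.abs.const_div K).pow_const p

/-- the near kernel -/
noncomputable def Nk (K t : ℝ) : ℝ := if |t| ≤ K then 1 else 0

lemma Nk_nonneg (K t : ℝ) : 0 ≤ Nk K t := by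
  unfold Nk; split_ifs <;> norm_num

lemma Nk_meas (K : ℝ) : Measurable (Nk K) := by
  unfold Nk
  exact Measurable.ite (measurableSet_le measurable_id.abs measurable_const)
    measurable_const measurable_const

/-- first constant -/
noncomputable def c1 (p : ℝ) : ℝ := (2 * π) ^ (2 * p) / 2

/-- second constant -/
noncomputable def c2 (p : ℝ) : ℝ := (96 * π ^ 5) ^ p * (2 ^ p + 1)

lemma c1_pos (p : ℝ) : 0 < c1 p := by unfold c1; positivity

lemma c2_pos (p : ℝ) : 0 < c2 p := by unfold c2; positivity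

lemma three_rpow {x y z p : ℝ} (hx : 0 ≤ x) (hy : 0 ≤ y) (hz : 0 ≤ z) (hp : 0 ≤ p) :
    (x + y + z) ^ p ≤ 3 ^ p * (x ^ p + y ^ p + z ^ p) := by
  have hm : x + y + z ≤ 3 * max x (max y z) := by
    have h1 := le_max_left x (max y z)
    have h2 := (le_max_left y z).trans (le_max_right x (max y z))
    have h3 := (le_max_right y z).trans (le_max_right x (max y z))
    linarith
  have hm0 : 0 ≤ max x (max y z) := hx.trans (le_max_left _ _)
  refine (Real.rpow_le_rpow (by positivity) hm hp).trans ?_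
  rw [Real.mul_rpow (by norm_num) hm0]
  refine mul_le_mul_of_nonneg_left ?_ (by positivity)
  have e1 : 0 ≤ x ^ p := by positivity
  have e2 : 0 ≤ y ^ p := by positivity
  have e3 : 0 ≤ z ^ p := by positivity
  rcases max_choice x (max y z) with h | h
  · rw [h]; linarith
  · rw [h]
    rcases max_choice y z with h' | h'
    · rw [h']; linarith
    · rw [h']; linarith

/-- all bounds for the pairing together -/
lemma Sp_all {f : V → ℂ} (hf : Integrable f) {M : ℝ} (hM : ∀ x, ‖f x‖ ≤ M) {a b : ℝ}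
    (ha : 0 < a) (hb : 0 < b) (c d : V) (l m : ℝ) {ε : ℝ} (hε : 0 < ε) (hεs : ε ≤ a + b)
    {K : ℝ} (hK : 0 < K) {p : ℝ} (hp : p = dn V / 2) :
    ‖Sp f a c l b d m ε‖ ≤ c1 p * (El f a c l + El f b d m) * (Nk K (l - m) + Jk p K (l - m)) +
      M ^ 2 * c2 p * K ^ (-(2 * p)) * (a ^ p + b ^ p) * Jk p K (l - m) := by
  have hp0 : 0 ≤ p := by rw [hp]; have := dn_nonneg (V := V); positivity
  have hE1 := El_nonneg f a c l
  have hE2 := El_nonneg f b d m
  have hJ := Jk_nonneg (p := p) hK (l - m)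
  have hc1 := c1_pos p
  have hc2 := c2_pos p
  have hdn : dn V = 2 * p := by rw [hp]; ring
  by_cases h : |l - m| ≤ K
  · have hJ0 : Jk p K (l - m) = 0 := by unfold Jk; rw [if_pos h]
    have hN1 : Nk K (l - m) = 1 := by unfold Nk; rw [if_pos h]
    rw [hJ0, hN1]
    have h1 := Sp_near hf ha hb c d l m hε
    rw [hdn] at h1
    unfold c1
    linarith
  · have hKt : K < |l - m| := not_le.1 h
    have ht0 : 0 < |l - m| := hK.trans hKt
    have hlm : l ≠ m := by
      intro h2
      rw [h2, sub_self, abs_zero] at ht0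
      exact lt_irrefl _ ht0
    have hJ0 : Jk p K (l - m) = (K / |l - m|) ^ p := by unfold Jk; rw [if_neg h]
    have hN1 : Nk K (l - m) = 0 := by unfold Nk; rw [if_neg h]
    rw [hN1, zero_add]
    have hpos2 : 0 ≤ M ^ 2 * c2 p * K ^ (-(2 * p)) * (a ^ p + b ^ p) * Jk p K (l - m) := by
      have : 0 < K ^ (-(2 * p)) := by positivity
      positivity
    have hpos1 : 0 ≤ c1 p * (El f a c l + El f b d m) * Jk p K (l - m) := by positivity
    by_cases hab : a ≤ K ∧ b ≤ K
    · have h1 := Sp_far hf ha hb hab.1 hab.2 c d hlm hε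
      have e1 : (4 * π ^ 2 * K / |l - m|) ^ (dn V / 2) * ((El f a c l + El f b d m) / 2) =
          c1 p * (El f a c l + El f b d m) * Jk p K (l - m) := by
        rw [hJ0, ← hp]
        unfold c1
        have : 4 * π ^ 2 * K / |l - m| = (2 * π) ^ (2 : ℝ) * (K / |l - m|) := by
          rw [Real.rpow_two]; ring
        rw [this, Real.mul_rpow (by positivity) (by positivity), ← Real.rpow_mul (by positivity)]
        ring
      rw [e1] at h1
      linarith
    · have h1 := Sp_bdd hf hM ha hb c d hlm hε hεs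
      refine h1.trans ?_
      rw [← hp]
      have hM2 : 0 ≤ M ^ 2 := sq_nonneg M
      refine le_trans ?_ (le_add_of_nonneg_left hpos1)
      have key : (32 * π ^ 5 * (2 * (a + b) + |l - m|) / (l - m) ^ 2) ^ p ≤
          c2 p * K ^ (-(2 * p)) * (a ^ p + b ^ p) * Jk p K (l - m) := by
        set t := |l - m| with ht
        have et : (l - m) ^ 2 = t ^ 2 := by rw [ht, sq_abs]
        rw [et, hJ0]
        have e2 : 32 * π ^ 5 * (2 * (a + b) + t) / t ^ 2 =
            (32 * π ^ 5) * ((2 * a + 2 * b + t) * (t ^ 2)⁻¹) := by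
          rw [div_eq_mul_inv]; ring
        rw [e2, Real.mul_rpow (x := 32 * π ^ 5) (by positivity) (by positivity),
          Real.mul_rpow (x := 2 * a + 2 * b + t) (by positivity) (by positivity)]
        have h3 := three_rpow (p := p) (by positivity : 0 ≤ 2 * a) (by positivity : 0 ≤ 2 * b)
          ht0.le hp0
        rw [Real.mul_rpow (by norm_num) ha.le, Real.mul_rpow (by norm_num) hb.le] at h3
        -- t ^ p is controlled
        set u := K / t with hu
        have hu0 : 0 < u := by positivity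
        have hu1 : u ≤ 1 := by rw [hu, div_le_one ht0]; exact hKt.le
        have htK : t = K / u := by rw [hu]; field_simp
        have e3 : (t ^ 2)⁻¹ ^ p = K ^ (-(2 * p)) * (u ^ p) * (u ^ p) := by
          rw [htK, Real.rpow_neg hK.le, Real.inv_rpow (by positivity), div_pow,
            Real.div_rpow (by positivity) (by positivity), ← Real.rpow_natCast,
            ← Real.rpow_natCast, ← Real.rpow_mul hK.le, ← Real.rpow_mul hu0.le]
          have : u ^ (((2 : ℕ) : ℝ) * p) = u ^ p * u ^ p := by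
            rw [← Real.rpow_add hu0]; congr 1; push_cast; ring
          rw [this]
          push_cast
          field_simp
        have hup : u ^ p ≤ 1 := Real.rpow_le_one hu0.le hu1 hp0
        have hup0 : 0 < u ^ p := by positivity
        have e4 : t ^ p * u ^ p = K ^ p := by
          rw [← Real.mul_rpow ht0.le hu0.le]
          congr 1
          rw [hu]; field_simp
        have hKab : K ^ p ≤ a ^ p + b ^ p := by
          have q1 : 0 ≤ a ^ p := by positivity
          have q2 : 0 ≤ b ^ p := by positivity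
          rw [not_and_or, not_le, not_le] at hab
          rcases hab with h4 | h4
          · have := Real.rpow_le_rpow hK.le h4.le hp0
            linarith
          · have := Real.rpow_le_rpow hK.le h4.le hp0
            linarith
        rw [e3]
        have e5 : (32 * π ^ 5) ^ p * ((2 * a + 2 * b + t) ^ p *
            (K ^ (-(2 * p)) * u ^ p * u ^ p)) ≤
            (32 * π ^ 5) ^ p * ((3 ^ p * (2 ^ p * a ^ p + 2 ^ p * b ^ p + t ^ p)) *
            (K ^ (-(2 * p)) * u ^ p * u ^ p)) := by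
          have : 0 < K ^ (-(2 * p)) := by positivity
          gcongr
        refine e5.trans ?_
        have e6 : (96 * π ^ 5 : ℝ) ^ p = (32 * π ^ 5) ^ p * 3 ^ p := by
          rw [← Real.mul_rpow (by positivity) (by norm_num)]
          congr 1
          ring
        unfold c2
        rw [e6]
        have e7 : (2 ^ p * a ^ p + 2 ^ p * b ^ p + t ^ p) * u ^ p ≤
            (2 ^ p + 1) * (a ^ p + b ^ p) := by
          have q1 : 0 ≤ a ^ p := by positivity
          have q2 : 0 ≤ b ^ p := by positivity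
          have q3 : 0 ≤ (2 : ℝ) ^ p * (a ^ p + b ^ p) := by positivity
          have q4 : (2 : ℝ) ^ p * (a ^ p + b ^ p) * u ^ p ≤ 2 ^ p * (a ^ p + b ^ p) :=
            mul_le_of_le_one_right q3 hup
          calc (2 ^ p * a ^ p + 2 ^ p * b ^ p + t ^ p) * u ^ p =
              (2 : ℝ) ^ p * (a ^ p + b ^ p) * u ^ p + t ^ p * u ^ p := by ring
            _ ≤ 2 ^ p * (a ^ p + b ^ p) + (a ^ p + b ^ p) := by
                rw [e4]; exact add_le_add q4 hKab
            _ = _ := by ring
        have q5 : 0 ≤ (32 * π ^ 5) ^ p * 3 ^ p * K ^ (-(2 * p)) * u ^ p := by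
          have : 0 < K ^ (-(2 * p)) := by positivity
          positivity
        calc (32 * π ^ 5) ^ p * ((3 ^ p * (2 ^ p * a ^ p + 2 ^ p * b ^ p + t ^ p)) *
            (K ^ (-(2 * p)) * u ^ p * u ^ p)) =
            ((32 * π ^ 5) ^ p * 3 ^ p * K ^ (-(2 * p)) * u ^ p) *
              ((2 ^ p * a ^ p + 2 ^ p * b ^ p + t ^ p) * u ^ p) := by ring
          _ ≤ ((32 * π ^ 5) ^ p * 3 ^ p * K ^ (-(2 * p)) * u ^ p) *
              ((2 ^ p + 1) * (a ^ p + b ^ p)) := mul_le_mul_of_nonneg_left e7 q5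
          _ = _ := by ring
      calc M ^ 2 * (32 * π ^ 5 * (2 * (a + b) + |l - m|) / (l - m) ^ 2) ^ p
          ≤ M ^ 2 * (c2 p * K ^ (-(2 * p)) * (a ^ p + b ^ p) * Jk p K (l - m)) :=
            mul_le_mul_of_nonneg_left key hM2
        _ = _ := by ring

lemma near_int (K : ℝ) (l : ℝ) (T : Set ℝ) :
    ∫⁻ m in T, ENNReal.ofReal (Nk K (l - m)) ≤ ENNReal.ofReal (2 * K) := by
  refine (lintegral_mono' (Measure.restrict_le_self) le_rfl).trans ?_
  have h1 : ∀ m : ℝ, ENNReal.ofReal (Nk K (l - m)) =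
      (Icc (l - K) (l + K)).indicator (fun _ => (1 : ℝ≥0∞)) m := by
    intro m
    unfold Nk
    by_cases h : |l - m| ≤ K
    · rw [if_pos h, indicator_of_mem, ENNReal.ofReal_one]
      rw [abs_le] at h
      exact ⟨by linarith, by linarith⟩
    · rw [if_neg h, indicator_of_notMem, ENNReal.ofReal_zero]
      intro h2
      apply h
      rw [abs_le]
      exact ⟨by linarith [h2.2], by linarith [h2.1]⟩
  simp only [h1]
  rw [lintegral_indicator measurableSet_Icc, setLIntegral_one, Real.volume_Icc]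
  refine le_of_eq ?_
  congr 1
  ring

lemma quad_solve {X p q : ℝ} (hp : 0 ≤ p) (hq : 0 ≤ q) (h : X ^ 2 ≤ p * X + q) :
    X ≤ p + √q := by
  by_contra hc
  rw [not_le] at hc
  have h1 := Real.sqrt_nonneg q
  have h2 := Real.sq_sqrt hq
  nlinarith

/-- **Main inequality with a free parameter `K`.** -/
theorem main_K {f : V → ℂ} (hf : Integrable f) {M : ℝ} (hM : ∀ x, ‖f x‖ ≤ M)
    {a : ℝ → ℝ} {c : ℝ → V} (ha : Measurable a)
    (hc : Measurable c) (ha0 : ∀ l, 0 < a l) {A : ℝ} {T : Set ℝ} (hT : MeasurableSet T)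
    (hT' : volume T ≠ ∞) (hA : ∀ l ∈ T, a l ≤ A) {ε : ℝ} (hε : 0 < ε)
    (hεa : ∀ l ∈ T, ε ≤ a l)
    (hN : Integrable (fun y => ‖f y‖ ^ 2 * Real.exp (ε * ‖y‖ ^ 2)))
    {p : ℝ} (hp : p = dn V / 2) {K θ : ℝ} (hK : 0 < K) (hθ : 0 ≤ θ)
    (hJ : ∀ l, ∫⁻ m in T, ENNReal.ofReal (Jk p K (l - m)) ≤ ENNReal.ofReal (θ * K))
    {N : ℝ} (hNN : ∫ y, ‖f y‖ ^ 2 * Real.exp (ε * ‖y‖ ^ 2) ≤ N) :
    ∫ l in T, El f (a l) (c l) l ≤ N * (2 * c1 p * (2 + θ) * K) +
      √(N * (2 * M ^ 2 * c2 p * K ^ (-(2 * p)) * (θ * K) * ∫ l in T, a l ^ p)) := by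
  have hp0 : 0 ≤ p := by rw [hp]; have := dn_nonneg (V := V); positivity
  have hN0 : 0 ≤ N := (integral_nonneg fun y => mul_nonneg (by positivity)
    (Real.exp_pos _).le).trans hNN
  set ν : Measure ℝ := volume.restrict T with hν
  have : IsFiniteMeasure ν := ⟨by rw [hν, Measure.restrict_apply_univ]; exact hT'.lt_top⟩
  have hmem : ∀ᵐ l ∂ν, l ∈ T := ae_restrict_mem hT
  set E : ℝ → ℝ := fun l => El f (a l) (c l) l with hE
  have hE0 : ∀ l, 0 ≤ E l := fun l => El_nonneg _ _ _ _
  have mE : Measurable E := (El_meas hf ha hc).measurable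
  have iE : Integrable E ν := by
    refine Integrable.of_bound mE.aestronglyMeasurable
      ((4 * π * A) ^ (dn V / 2) * (∫ x, ‖f x‖) ^ 2) (hmem.mono fun l hl => ?_)
    rw [Real.norm_eq_abs, abs_of_nonneg (hE0 l)]
    refine (El_le f (ha0 l) (c l) l).trans ?_
    refine mul_le_mul_of_nonneg_right ?_ (by positivity)
    rw [← hp]
    exact Real.rpow_le_rpow (by have := ha0 l; positivity)
      (mul_le_mul_of_nonneg_left (hA l hl) (by positivity)) hp0
  set W : ℝ → ℝ := fun l => a l ^ p with hW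
  have hW0 : ∀ l, 0 ≤ W l := fun l => by have := ha0 l; simp only [hW]; positivity
  have mW : Measurable W := ha.pow_const p
  have iW : Integrable W ν := by
    refine Integrable.of_bound mW.aestronglyMeasurable (A ^ p) (hmem.mono fun l hl => ?_)
    rw [Real.norm_eq_abs, abs_of_nonneg (hW0 l)]
    exact Real.rpow_le_rpow (ha0 l).le (hA l hl) hp0
  set X : ℝ := ∫ l, E l ∂ν with hX
  have hX0 : 0 ≤ X := integral_nonneg hE0
  set Y : ℝ := ∫ l, W l ∂ν with hY
  have hY0 : 0 ≤ Y := integral_nonneg hW0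
  have eX : ∫⁻ l, ENNReal.ofReal (E l) ∂ν = ENNReal.ofReal X :=
    (ofReal_integral_eq_lintegral_ofReal iE (Filter.Eventually.of_forall hE0)).symm
  have eY : ∫⁻ l, ENNReal.ofReal (W l) ∂ν = ENNReal.ofReal Y :=
    (ofReal_integral_eq_lintegral_ofReal iW (Filter.Eventually.of_forall hW0)).symm
  have h1 := ttstar hf ha hc ha0 hT hT' hA hε hN
  -- kernels
  set k1 : ℝ → ℝ := fun t => Nk K t + Jk p K t with hk1
  have k10 : ∀ t, 0 ≤ k1 t := fun t => add_nonneg (Nk_nonneg _ _) (Jk_nonneg hK _)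
  have mk1 : Measurable k1 := (Nk_meas K).add (Jk_meas p K)
  have k1neg : ∀ t, k1 (-t) = k1 t := fun t => by
    simp only [hk1, Jk_neg]; unfold Nk; rw [abs_neg]
  have k1int : ∀ l, ∫⁻ m, ENNReal.ofReal (k1 (l - m)) ∂ν ≤ ENNReal.ofReal ((2 + θ) * K) := by
    intro l
    have : ∀ m, ENNReal.ofReal (k1 (l - m)) =
        ENNReal.ofReal (Nk K (l - m)) + ENNReal.ofReal (Jk p K (l - m)) := fun m =>
      ENNReal.ofReal_add (Nk_nonneg _ _) (Jk_nonneg hK _)
    simp only [this]
    have mN : Measurable fun m => ENNReal.ofReal (Nk K (l - m)) :=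
      ((Nk_meas K).comp (measurable_const.sub measurable_id)).ennreal_ofReal
    rw [lintegral_add_left mN]
    refine (add_le_add (near_int K l T) (hJ l)).trans (le_of_eq ?_)
    rw [← ENNReal.ofReal_add (by positivity) (by positivity)]
    congr 1
    ring
  -- general double integral estimate
  have gen : ∀ (g k : ℝ → ℝ) (κ : ℝ), Measurable g → Measurable k → (∀ t, 0 ≤ k t) →
      (∀ t, k (-t) = k t) → (∀ l, 0 ≤ g l) →
      (∀ l, ∫⁻ m, ENNReal.ofReal (k (l - m)) ∂ν ≤ ENNReal.ofReal κ) →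
      ∫⁻ l, ∫⁻ m, ENNReal.ofReal ((g l + g m) * k (l - m)) ∂ν ∂ν ≤
        2 * ((∫⁻ l, ENNReal.ofReal (g l) ∂ν) * ENNReal.ofReal κ) := by
    intro g k κ mg mk k0 kneg g0 hk
    have mk' : Measurable (fun w : ℝ × ℝ => ENNReal.ofReal (k (w.1 - w.2))) :=
      (mk.comp (measurable_fst.sub measurable_snd)).ennreal_ofReal
    have e1 : ∀ l m, ENNReal.ofReal ((g l + g m) * k (l - m)) =
        ENNReal.ofReal (g l) * ENNReal.ofReal (k (l - m)) +
          ENNReal.ofReal (g m) * ENNReal.ofReal (k (l - m)) := by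
      intro l m
      rw [add_mul, ENNReal.ofReal_add (mul_nonneg (g0 l) (k0 _)) (mul_nonneg (g0 m) (k0 _)),
        ENNReal.ofReal_mul (g0 l), ENNReal.ofReal_mul (g0 m)]
    simp only [e1]
    have mk1' : ∀ l, Measurable fun m => ENNReal.ofReal (k (l - m)) := fun l =>
      (mk.comp (measurable_const.sub measurable_id)).ennreal_ofReal
    have e2 : ∀ l, ∫⁻ m, (ENNReal.ofReal (g l) * ENNReal.ofReal (k (l - m)) +
          ENNReal.ofReal (g m) * ENNReal.ofReal (k (l - m))) ∂ν =
        (∫⁻ m, ENNReal.ofReal (g l) * ENNReal.ofReal (k (l - m)) ∂ν) +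
          ∫⁻ m, ENNReal.ofReal (g m) * ENNReal.ofReal (k (l - m)) ∂ν := fun l =>
      lintegral_add_left ((mk1' l).const_mul _) _
    simp only [e2]
    rw [lintegral_add_left]
    swap
    · exact Measurable.lintegral_prod_right
        ((mg.ennreal_ofReal.comp measurable_fst).mul mk')
    have b1 : ∫⁻ l, ∫⁻ m, ENNReal.ofReal (g l) * ENNReal.ofReal (k (l - m)) ∂ν ∂ν ≤
        (∫⁻ l, ENNReal.ofReal (g l) ∂ν) * ENNReal.ofReal κ := by
      rw [← lintegral_mul_const _ mg.ennreal_ofReal]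
      refine lintegral_mono fun l => ?_
      rw [lintegral_const_mul _ (mk1' l)]
      exact mul_le_mul' le_rfl (hk l)
    have b2 : ∫⁻ l, ∫⁻ m, ENNReal.ofReal (g m) * ENNReal.ofReal (k (l - m)) ∂ν ∂ν ≤
        (∫⁻ l, ENNReal.ofReal (g l) ∂ν) * ENNReal.ofReal κ := by
      rw [lintegral_lintegral_swap]
      · rw [← lintegral_mul_const _ mg.ennreal_ofReal]
        refine lintegral_mono fun m => ?_
        have e3 : ∀ l, ENNReal.ofReal (k (l - m)) = ENNReal.ofReal (k (m - l)) := by
          intro l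
          rw [← kneg, neg_sub]
        simp only [e3]
        rw [lintegral_const_mul _ (mk1' m)]
        exact mul_le_mul' le_rfl (hk m)
      · exact ((mg.ennreal_ofReal.comp measurable_snd).mul mk').aemeasurable
    rw [two_mul]
    exact add_le_add b1 b2
  -- the estimate of the double integral of the pairing
  set C2 : ℝ := M ^ 2 * c2 p * K ^ (-(2 * p)) with hC2
  have hC20 : 0 ≤ C2 := by
    have := c2_pos p
    have : 0 < K ^ (-(2 * p)) := by positivity
    positivity
  have hc10 := (c1_pos p).le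
  have h2 : ∫⁻ l, ∫⁻ m, ‖Sp f (a l) (c l) l (a m) (c m) m ε‖ₑ ∂ν ∂ν ≤
      ENNReal.ofReal (2 * c1 p * X * ((2 + θ) * K) + 2 * C2 * Y * (θ * K)) := by
    have h3 : ∫⁻ l, ∫⁻ m, ‖Sp f (a l) (c l) l (a m) (c m) m ε‖ₑ ∂ν ∂ν ≤
        ∫⁻ l, ∫⁻ m, (ENNReal.ofReal (c1 p) * ENNReal.ofReal ((E l + E m) * k1 (l - m)) +
          ENNReal.ofReal C2 * ENNReal.ofReal ((W l + W m) * Jk p K (l - m))) ∂ν ∂ν := by
      refine lintegral_mono_ae (hmem.mono fun l hl => lintegral_mono_ae
        (hmem.mono fun m hm => ?_))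
      have h4 := Sp_all hf hM (ha0 l) (ha0 m) (c l) (c m) l m hε
        (by have := hεa l hl; have := (ha0 m).le; linarith) hK hp
      rw [← ofReal_norm, ← ENNReal.ofReal_mul hc10, ← ENNReal.ofReal_mul hC20,
        ← ENNReal.ofReal_add]
      · refine ENNReal.ofReal_le_ofReal (h4.trans (le_of_eq ?_))
        simp only [hk1, hC2, hE, hW]
        ring
      · exact mul_nonneg hc10 (mul_nonneg (add_nonneg (hE0 l) (hE0 m)) (k10 _))
      · exact mul_nonneg hC20 (mul_nonneg (add_nonneg (hW0 l) (hW0 m)) (Jk_nonneg hK _))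
    refine h3.trans ?_
    have mA : Measurable (fun w : ℝ × ℝ => ENNReal.ofReal (c1 p) *
        ENNReal.ofReal ((E w.1 + E w.2) * k1 (w.1 - w.2))) :=
      ((((mE.comp measurable_fst).add (mE.comp measurable_snd)).mul
        (mk1.comp (measurable_fst.sub measurable_snd))).ennreal_ofReal).const_mul _
    have mB : Measurable (fun w : ℝ × ℝ => ENNReal.ofReal C2 *
        ENNReal.ofReal ((W w.1 + W w.2) * Jk p K (w.1 - w.2))) :=
      ((((mW.comp measurable_fst).add (mW.comp measurable_snd)).mul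
        ((Jk_meas p K).comp (measurable_fst.sub measurable_snd))).ennreal_ofReal).const_mul _
    have e2 : ∀ l, ∫⁻ m, (ENNReal.ofReal (c1 p) * ENNReal.ofReal ((E l + E m) * k1 (l - m)) +
          ENNReal.ofReal C2 * ENNReal.ofReal ((W l + W m) * Jk p K (l - m))) ∂ν =
        (∫⁻ m, ENNReal.ofReal (c1 p) * ENNReal.ofReal ((E l + E m) * k1 (l - m)) ∂ν) +
        ∫⁻ m, ENNReal.ofReal C2 * ENNReal.ofReal ((W l + W m) * Jk p K (l - m)) ∂ν := fun l =>
      lintegral_add_left (mA.comp measurable_prodMk_left) _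
    simp only [e2]
    rw [lintegral_add_left mA.lintegral_prod_right']
    have e3 : ∫⁻ l, ∫⁻ m, ENNReal.ofReal (c1 p) *
        ENNReal.ofReal ((E l + E m) * k1 (l - m)) ∂ν ∂ν ≤
        ENNReal.ofReal (2 * c1 p * X * ((2 + θ) * K)) := by
      have e4 : ∀ l, ∫⁻ m, ENNReal.ofReal (c1 p) *
          ENNReal.ofReal ((E l + E m) * k1 (l - m)) ∂ν = ENNReal.ofReal (c1 p) *
          ∫⁻ m, ENNReal.ofReal ((E l + E m) * k1 (l - m)) ∂ν := fun l =>
        lintegral_const_mul' _ _ ENNReal.ofReal_ne_top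
      simp only [e4]
      rw [lintegral_const_mul' _ _ ENNReal.ofReal_ne_top]
      refine (mul_le_mul' le_rfl (gen E k1 ((2 + θ) * K) mE mk1 k10 k1neg hE0 k1int)).trans
        (le_of_eq ?_)
      rw [eX, ← ENNReal.ofReal_mul hX0, ← ENNReal.ofReal_ofNat 2,
        ← ENNReal.ofReal_mul (by norm_num), ← ENNReal.ofReal_mul hc10]
      congr 1
      ring
    have e5 : ∫⁻ l, ∫⁻ m, ENNReal.ofReal C2 *
        ENNReal.ofReal ((W l + W m) * Jk p K (l - m)) ∂ν ∂ν ≤
        ENNReal.ofReal (2 * C2 * Y * (θ * K)) := by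
      have e4 : ∀ l, ∫⁻ m, ENNReal.ofReal C2 *
          ENNReal.ofReal ((W l + W m) * Jk p K (l - m)) ∂ν = ENNReal.ofReal C2 *
          ∫⁻ m, ENNReal.ofReal ((W l + W m) * Jk p K (l - m)) ∂ν := fun l =>
        lintegral_const_mul' _ _ ENNReal.ofReal_ne_top
      simp only [e4]
      rw [lintegral_const_mul' _ _ ENNReal.ofReal_ne_top]
      refine (mul_le_mul' le_rfl (gen W (Jk p K) (θ * K) mW (Jk_meas p K)
        (fun t => Jk_nonneg hK t) (Jk_neg p K) hW0 hJ)).trans (le_of_eq ?_)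
      rw [eY, ← ENNReal.ofReal_mul hY0, ← ENNReal.ofReal_ofNat 2,
        ← ENNReal.ofReal_mul (by norm_num), ← ENNReal.ofReal_mul hC20]
      congr 1
      ring
    refine (add_le_add e3 e5).trans (le_of_eq ?_)
    rw [← ENNReal.ofReal_add (by positivity) (by positivity)]
  have h5 : X ^ 2 ≤ N * (2 * c1 p * X * ((2 + θ) * K) + 2 * C2 * Y * (θ * K)) := by
    have h6 : ENNReal.ofReal (X ^ 2) ≤
        ENNReal.ofReal (N * (2 * c1 p * X * ((2 + θ) * K) + 2 * C2 * Y * (θ * K))) := by
      refine h1.trans ?_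
      rw [ENNReal.ofReal_mul hN0]
      exact mul_le_mul' (ENNReal.ofReal_le_ofReal hNN) h2
    exact (ENNReal.ofReal_le_ofReal_iff (by positivity)).1 h6
  have h7 := quad_solve (X := X) (p := N * (2 * c1 p * (2 + θ) * K))
    (q := N * (2 * M ^ 2 * c2 p * K ^ (-(2 * p)) * (θ * K) * Y)) (by positivity)
    (by
      have : 0 < K ^ (-(2 * p)) := by positivity
      have := c2_pos p
      positivity)
    (by
      refine h5.trans (le_of_eq ?_)
      rw [hC2]
      ring)
  exact h7

end Pool.Agent.U571.BS
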