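import Pool.Agent.U571.BS.Opt

/-!
# Locally constant property: balls of radius at most one
-/

set_option autoImplicit false
set_option linter.unusedSectionVars false

namespace Pool.Agent.U571.BS

open MeasureTheory Complex Set
open scoped Real ENNReal RealInnerProductSpace ComplexConjugate

variable {V : Type*} [NormedAddCommGroup V] [InnerProductSpace ℝ V] [FiniteDimensional ℝ V]
  [MeasurableSpace V] [BorelSpace V]

/-- the modified density -/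
noncomputable def ft (f : V → ℂ) (x : V) : ℂ := f x * (Real.exp (1 / 2 * ‖x‖ ^ 2) : ℂ)

lemma Pf_bound2 (f : V → ℂ) (a : ℝ) (c : V) (l : ℝ) (y : V) :
    ‖Pf f a c l y‖ ≤ ∫ ξ, wt a c ξ * ‖Fx f l ξ‖ := by
  unfold Pf
  refine (norm_integral_le_integral_norm _).trans (le_of_eq ?_)
  refine integral_congr_ae (Filter.Eventually.of_forall fun ξ => ?_)
  simp only
  rw [norm_mul, norm_mul, norm_conj_ph, mul_one, Complex.norm_real, Real.norm_eq_abs,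
    abs_of_pos (wt_pos a c ξ)]

lemma Fx_sq_le {f : V → ℂ} (hf : Integrable (ft f)) (c : V) (l : ℝ) :
    ‖Fx f l c‖ ^ 2 * (2 * π) ^ (dn V / 2) ≤ El (ft f) (1 / 2) c l := by
  have ha : (0 : ℝ) < 1 / 2 := by norm_num
  have h1 : Pf (ft f) (1 / 2) c l 0 = (((4 * π * (1 / 2)) ^ (dn V / 2) : ℝ) : ℂ) * Fx f l c := by
    rw [Pf_eq hf ha c l 0]
    unfold Fx
    rw [← integral_const_mul]
    refine integral_congr_ae (Filter.Eventually.of_forall fun x => ?_)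
    simp only [ft, kr, ph, sub_zero, norm_zero]
    have h2 : (Real.exp (1 / 2 * ‖x‖ ^ 2) : ℂ) * (Real.exp (-(1 / 2) * ‖x‖ ^ 2) : ℂ) = 1 := by
      rw [← Complex.ofReal_mul, ← Real.exp_add]
      have : 1 / 2 * ‖x‖ ^ 2 + -(1 / 2) * ‖x‖ ^ 2 = 0 := by ring
      rw [this, Real.exp_zero, Complex.ofReal_one]
    have h3 : (⟪x, c⟫ + l * (‖x‖ ^ 2 - 0 ^ 2) : ℝ) = ⟪x, c⟫ + l * ‖x‖ ^ 2 := by ring
    rw [h3]
    linear_combination (f x * (((4 * π * (1 / 2)) ^ (dn V / 2) : ℝ) : ℂ) *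
      cexp (((⟪x, c⟫ + l * ‖x‖ ^ 2 : ℝ) : ℂ) * I)) * h2
  have h2 := Pf_bound2 (ft f) (1 / 2) c l 0
  have h3 := cs_wt hf ha c l
  have e1 : 4 * π * (1 / 2) = 2 * π := by ring
  rw [e1] at h1 h3
  have hA : 0 < (2 * π) ^ (dn V / 2) := by positivity
  rw [h1, norm_mul, Complex.norm_real, Real.norm_eq_abs, abs_of_pos hA] at h2
  have h4 : ((2 * π) ^ (dn V / 2) * ‖Fx f l c‖) ^ 2 ≤
      (2 * π) ^ (dn V / 2) * El (ft f) (1 / 2) c l :=
    (pow_le_pow_left₀ (by positivity) h2 2).trans h3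
  have h5 : (2 * π) ^ (dn V / 2) * (‖Fx f l c‖ ^ 2 * (2 * π) ^ (dn V / 2)) ≤
      (2 * π) ^ (dn V / 2) * El (ft f) (1 / 2) c l := by
    calc _ = ((2 * π) ^ (dn V / 2) * ‖Fx f l c‖) ^ 2 := by ring
      _ ≤ _ := h4
  exact le_of_mul_le_mul_left h5 hA

lemma wt_half {ξ c : V} (h : ‖ξ - c‖ ≤ 1) (η : V) :
    wt (1 / 2) ξ η ≤ 2 * wt 1 c η := by
  unfold wt
  have h1 : ‖η - c‖ ^ 2 ≤ 2 * ‖η - ξ‖ ^ 2 + 2 * 1 := by
    have h2 : ‖η - c‖ ≤ ‖η - ξ‖ + ‖ξ - c‖ := by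
      have := norm_add_le (η - ξ) (ξ - c)
      simpa using this
    have h3 : ‖η - c‖ ^ 2 ≤ (‖η - ξ‖ + ‖ξ - c‖) ^ 2 :=
      pow_le_pow_left₀ (norm_nonneg _) h2 2
    have h4 : ‖ξ - c‖ ^ 2 ≤ 1 ^ 2 := pow_le_pow_left₀ (norm_nonneg _) h 2
    nlinarith [sq_nonneg (‖η - ξ‖ - ‖ξ - c‖)]
  have h2 : -(1 / (4 * (1 / 2 : ℝ))) * ‖η - ξ‖ ^ 2 ≤ 1 / 2 + -(1 / (4 * 1)) * ‖η - c‖ ^ 2 := by
    norm_num
    linarith
  refine (Real.exp_le_exp.2 h2).trans ?_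
  rw [Real.exp_add]
  have h3 : Real.exp (1 / 2) ≤ 2 := by
    have := Real.exp_one_lt_d9
    have h5 : Real.exp (1 / 2) ^ 2 = Real.exp 1 := by
      rw [← Real.exp_nat_mul]; congr 1; norm_num
    have h6 := Real.exp_pos (1 / 2)
    nlinarith
  exact mul_le_mul_of_nonneg_right h3 (Real.exp_pos _).le

lemma El_half {f : V → ℂ} (hf : Integrable f) {ξ c : V} (h : ‖ξ - c‖ ≤ 1) (l : ℝ) :
    El f (1 / 2) ξ l ≤ 2 * El f 1 c l := by
  unfold El
  rw [← integral_const_mul]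
  refine integral_mono (El_integrable hf (by norm_num) ξ l)
    ((El_integrable hf (by norm_num) c l).const_mul 2) fun η => ?_
  have := mul_le_mul_of_nonneg_right (wt_half h η) (sq_nonneg ‖Fx f l η‖)
  simpa only [mul_assoc] using this

lemma one_le_pi_rpow : 1 ≤ (2 * π) ^ (dn V / 2) := by
  refine Real.one_le_rpow ?_ (by have := dn_nonneg (V := V); positivity)
  have := Real.pi_gt_three
  linarith

/-- small balls -/
lemma ball_small {f : V → ℂ} (hf : Integrable (ft f)) {r : ℝ} (hr1 : r ≤ 1) (c : V)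
    (l : ℝ) : ∫⁻ ξ in Metric.ball c r, ‖Fx f l ξ‖ₑ ^ 2 ≤
      volume (Metric.ball c r) * ENNReal.ofReal (2 * El (ft f) 1 c l) := by
  calc ∫⁻ ξ in Metric.ball c r, ‖Fx f l ξ‖ₑ ^ 2
      ≤ ∫⁻ ξ in Metric.ball c r, ENNReal.ofReal (2 * El (ft f) 1 c l) := by
        refine setLIntegral_mono' Metric.isOpen_ball.measurableSet fun ξ hξ => ?_
        rw [← ofReal_norm, ← ENNReal.ofReal_pow (norm_nonneg _)]
        refine ENNReal.ofReal_le_ofReal ?_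
        rw [Metric.mem_ball, dist_eq_norm] at hξ
        have h1 := Fx_sq_le hf ξ l
        have h2 := El_half hf (hξ.le.trans hr1) l
        have h3 : ‖Fx f l ξ‖ ^ 2 * 1 ≤ ‖Fx f l ξ‖ ^ 2 * (2 * π) ^ (dn V / 2) :=
          mul_le_mul_of_nonneg_left one_le_pi_rpow (sq_nonneg _)
        linarith
    _ = _ := by rw [setLIntegral_const, mul_comm]

end Pool.Agent.U571.BS
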