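import Pool.Agent.U571.BS.Conc

/-!
# Strong type estimates
-/

set_option autoImplicit false
set_option linter.unusedSectionVars false

namespace Pool.Agent.U571.BS

open MeasureTheory Complex Set
open scoped Real ENNReal RealInnerProductSpace ComplexConjugate

variable {V : Type*} [NormedAddCommGroup V] [InnerProductSpace ℝ V] [FiniteDimensional ℝ V]
  [MeasurableSpace V] [BorelSpace V]

/-- weighted Cauchy-Schwarz for sums -/
lemma cs_tsum (w a : ℕ → ℝ≥0∞) (hw : ∀ k, w k ≠ 0) (hw' : ∀ k, w k ≠ ∞) :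
    (∑' k, a k) ^ 2 ≤ (∑' k, w k) * ∑' k, (w k)⁻¹ * a k ^ 2 := by
  have h := ENNReal.lintegral_mul_le_Lp_mul_Lq (Measure.count (α := ℕ)) Real.HolderConjugate.two_two
    (f := fun k => w k ^ (1 / 2 : ℝ)) (g := fun k => (w k)⁻¹ ^ (1 / 2 : ℝ) * a k)
    (measurable_of_countable _).aemeasurable (measurable_of_countable _).aemeasurable
  simp only [lintegral_count, Pi.mul_apply] at h
  have e1 : ∀ k, w k ^ (1 / 2 : ℝ) * ((w k)⁻¹ ^ (1 / 2 : ℝ) * a k) = a k := by
    intro k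
    rw [← mul_assoc, ← ENNReal.mul_rpow_of_nonneg _ _ (by norm_num),
      ENNReal.mul_inv_cancel (hw k) (hw' k), ENNReal.one_rpow, one_mul]
  have e2 : ∀ k, (w k ^ (1 / 2 : ℝ)) ^ (2 : ℝ) = w k := by
    intro k
    rw [← ENNReal.rpow_mul]
    norm_num
  have e3 : ∀ k, ((w k)⁻¹ ^ (1 / 2 : ℝ) * a k) ^ (2 : ℝ) = (w k)⁻¹ * a k ^ 2 := by
    intro k
    rw [ENNReal.mul_rpow_of_nonneg _ _ (by norm_num), ← ENNReal.rpow_mul]
    norm_num
  simp only [e1, e2, e3] at h
  have h2 := ENNReal.rpow_le_rpow h (by norm_num : (0 : ℝ) ≤ 2)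
  rw [ENNReal.mul_rpow_of_nonneg _ _ (by norm_num), ← ENNReal.rpow_mul, ← ENNReal.rpow_mul] at h2
  norm_num at h2
  exact h2

/-- trivial bound for the extension operator -/
lemma FU_le (U : Set V) (f : V → ℂ) (l : ℝ) (ξ : V) :
    ‖FU U f l ξ‖ₑ ≤ eLpNorm f 1 (volume.restrict U) := by
  unfold FU
  refine (enorm_integral_le_lintegral_enorm _).trans ?_
  rw [eLpNorm_one_eq_lintegral_enorm]
  refine lintegral_mono fun x => ?_
  rw [enorm_mul, ← ofReal_norm (ph l x ξ), norm_ph]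
  simp

lemma FU_congr {U : Set V} {f g : V → ℂ} (h : f =ᵐ[volume.restrict U] g) (l : ℝ) (ξ : V) :
    FU U f l ξ = FU U g l ξ := by
  unfold FU
  exact integral_congr_ae (h.mono fun x hx => by simp only [hx])

/-- measurability of the extension -/
lemma FU_meas {U : Set V} (hU : MeasurableSet U) {f : V → ℂ}
    (hf : Integrable f (volume.restrict U)) :
    Continuous (fun z : ℝ × V => FU U f z.1 z.2) := by
  have h1 : Integrable (U.indicator f) := (integrable_indicator_iff hU).2 hf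
  have h2 : ∀ z : ℝ × V, FU U f z.1 z.2 = Fx (U.indicator f) z.1 z.2 := by
    intro z
    unfold FU Fx
    rw [← integral_indicator hU]
    refine integral_congr_ae (Filter.Eventually.of_forall fun x => ?_)
    by_cases hx : x ∈ U
    · simp only [indicator_of_mem hx]
    · simp only [indicator_of_notMem hx, zero_mul]
  simp only [h2]
  exact Fx_cont h1

/-- **Strong type.** -/
theorem strong {q : ℝ} (ρ : ℝ) (hn : 2 ≤ dn V) (hq : 1 / (dn V + 1) < 1 - 2 / q) (hq0 : 0 < q) :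
    ∃ C : ℝ≥0∞, C ≠ ∞ ∧ ∀ U : Set V, MeasurableSet U → U ⊆ Metric.closedBall 0 ρ →
      ∀ f : V → ℂ, MemLp f (ENNReal.ofReal q) (volume.restrict U) →
      SliceBound (fun l ξ => ‖FU U f l ξ‖ₑ ^ 2)
        (C * eLpNorm f (ENNReal.ofReal q) (volume.restrict U) ^ 2) (1 - 2 / q) := by
  set α := 1 - 2 / q with hα
  have hn1 : 0 < 1 / (dn V + 1) := by positivity
  have hαpos : 0 < α := hn1.trans hq
  have hα1 : α < 1 := by
    have : 0 < 2 / q := by positivity
    linarith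
  have hq2 : 2 < q := by
    have h1 : 2 / q < 1 := by linarith
    rwa [div_lt_one hq0] at h1
  set α0 := (1 / (dn V + 1) + α) / 2 with hα0
  have ha1 : 1 / (dn V + 1) < α0 := by linarith
  have ha2 : α0 < α := by linarith
  have hα0pos : 0 < α0 := by linarith
  obtain ⟨C, hC, HC⟩ := main_U (V := V) (α := α0) ρ (Or.inl ⟨hn, ha1, by linarith⟩)
  -- constants
  set δ : ℝ := (q * (1 - α0) - 2) / 2 with hδ
  have hδ0 : 0 < δ := by
    have h1 : q * (1 - α) = 2 := by rw [hα]; field_simp; ring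
    have h2 : q * (1 - α) < q * (1 - α0) := by
      refine mul_lt_mul_of_pos_left ?_ hq0
      linarith
    have : 2 < q * (1 - α0) := by linarith
    rw [hδ]
    linarith
  set ω := volume (Metric.closedBall (0 : V) ρ) with hω
  have hωt : ω ≠ ∞ := (isCompact_closedBall _ _).measure_lt_top.ne
  set t : ℝ≥0∞ := 2 ^ (-δ) with ht
  have ht1 : t < 1 := ENNReal.rpow_lt_one_of_one_lt_of_neg (by norm_num) (by linarith)
  have ht0 : t ≠ 0 := by
    rw [ht, Ne, ENNReal.rpow_eq_zero_iff]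
    norm_num
  have htt : t ≠ ∞ := ht1.ne_top
  set w : ℕ → ℝ≥0∞ := fun k => t ^ k with hw
  have hw0 : ∀ k, w k ≠ 0 := fun k => pow_ne_zero _ ht0
  have hwt : ∀ k, w k ≠ ∞ := fun k => ENNReal.pow_ne_top htt
  have hsum : ∑' k, w k ≠ ∞ := by
    rw [hw, ENNReal.tsum_geometric]
    rw [Ne, ENNReal.inv_eq_top, tsub_eq_zero_iff_le, not_le]
    exact ht1
  set S := ∑' k, w k with hS
  refine ⟨ENNReal.ofReal C * 4 * (1 + ω) ^ (1 - α0) * S ^ 2 + (1 + ω) ^ 2, ?_, ?_⟩
  · refine ENNReal.add_ne_top.2 ⟨?_, ENNReal.pow_ne_top (ENNReal.add_ne_top.2 ⟨by simp, hωt⟩)⟩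
    refine ENNReal.mul_ne_top (ENNReal.mul_ne_top (ENNReal.mul_ne_top ENNReal.ofReal_ne_top
      (by norm_num)) ?_) (ENNReal.pow_ne_top hsum)
    exact ENNReal.rpow_ne_top_of_nonneg (by linarith) (ENNReal.add_ne_top.2 ⟨by simp, hωt⟩)
  intro U hU hUρ f' hf'
  have hvU : volume U ≤ ω := measure_mono hUρ
  have hvUt : volume U ≠ ∞ := ne_top_of_le_ne_top hωt hvU
  have : IsFiniteMeasure (volume.restrict U) :=
    ⟨by rw [Measure.restrict_apply_univ]; exact hvUt.lt_top⟩
  -- measurable representative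
  obtain ⟨f, mf, hff⟩ := hf'.1
  have hf : MemLp f (ENNReal.ofReal q) (volume.restrict U) := (memLp_congr_ae hff).1 hf'
  have hΛe : eLpNorm f' (ENNReal.ofReal q) (volume.restrict U) =
      eLpNorm f (ENNReal.ofReal q) (volume.restrict U) := eLpNorm_congr_ae hff
  rw [hΛe]
  simp only [FU_congr hff]
  set Λ := eLpNorm f (ENNReal.ofReal q) (volume.restrict U) with hΛ
  have hΛt : Λ ≠ ∞ := hf.2.ne
  have hfm : Measurable f := mf.measurable
  have hq1 : (1 : ℝ≥0∞) ≤ ENNReal.ofReal q := by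
    rw [← ENNReal.ofReal_one]
    exact ENNReal.ofReal_le_ofReal (by linarith)
  have hqne : ENNReal.ofReal q ≠ 0 := by
    rw [Ne, ENNReal.ofReal_eq_zero, not_le]
    exact hq0
  have hqR : (ENNReal.ofReal q).toReal = q := ENNReal.toReal_ofReal hq0.le
  have hfi : Integrable f (volume.restrict U) := hf.integrable hq1
  -- the `L¹` bound
  have hL1 : eLpNorm f 1 (volume.restrict U) ≤ (1 + ω) * Λ := by
    refine (eLpNorm_le_eLpNorm_mul_rpow_measure_univ hq1 hf.1).trans ?_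
    rw [Measure.restrict_apply_univ, mul_comm]
    refine mul_le_mul' ?_ le_rfl
    rw [ENNReal.toReal_one, hqR, div_one]
    have h1 : (0 : ℝ) ≤ 1 - 1 / q := by
      have : 1 / q ≤ 1 := by rw [div_le_one hq0]; linarith
      linarith
    have h2 : (1 : ℝ) - 1 / q ≤ 1 := by
      have : 0 < 1 / q := by positivity
      linarith
    calc volume U ^ (1 - 1 / q) ≤ (1 + ω) ^ (1 - 1 / q) :=
          ENNReal.rpow_le_rpow (hvU.trans le_add_self) h1
      _ ≤ (1 + ω) ^ (1 : ℝ) := ENNReal.rpow_le_rpow_of_exponent_le le_self_add h2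
      _ = 1 + ω := ENNReal.rpow_one _
  intro T c r hT hc hr
  -- trivial bound
  have htriv : ∫⁻ l in T, ∫⁻ ξ in Metric.ball (c l) (r l), ‖FU U f l ξ‖ₑ ^ 2 ≤
      vb T c r * ((1 + ω) ^ 2 * Λ ^ 2) := by
    calc _ ≤ ∫⁻ l in T, ∫⁻ ξ in Metric.ball (c l) (r l), (1 + ω) ^ 2 * Λ ^ 2 := by
          refine lintegral_mono fun l => lintegral_mono fun ξ => ?_
          have h1 := (FU_le U f l ξ).trans hL1
          calc ‖FU U f l ξ‖ₑ ^ 2 ≤ ((1 + ω) * Λ) ^ 2 := by gcongr
            _ = _ := by ring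
      _ = ∫⁻ l in T, ((1 + ω) ^ 2 * Λ ^ 2) * volume (Metric.ball (c l) (r l)) := by
          refine lintegral_congr fun l => ?_
          rw [setLIntegral_const]
      _ = _ := by
          rw [lintegral_const_mul', mul_comm]
          · rfl
          · exact ENNReal.mul_ne_top (ENNReal.pow_ne_top (ENNReal.add_ne_top.2 ⟨by simp, hωt⟩))
              (ENNReal.pow_ne_top hΛt)
  rcases le_total (vb T c r) 1 with hv | hv
  · refine htriv.trans ?_
    have h1 : vb T c r ≤ vb T c r ^ α := by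
      have := ENNReal.rpow_le_rpow_of_exponent_ge hv hα1.le
      rwa [ENNReal.rpow_one] at this
    calc vb T c r * ((1 + ω) ^ 2 * Λ ^ 2) ≤ vb T c r ^ α * ((1 + ω) ^ 2 * Λ ^ 2) := by gcongr
      _ = (1 + ω) ^ 2 * Λ ^ 2 * vb T c r ^ α := by ring
      _ ≤ _ := by
          gcongr
          exact le_add_self
  -- the case `Λ = 0`
  rcases eq_or_ne Λ 0 with hΛ0 | hΛ0
  · have hF0 : ∀ l ξ, ‖FU U f l ξ‖ₑ = 0 := by
      intro l ξ
      have := (FU_le U f l ξ).trans hL1
      rw [hΛ0, mul_zero] at this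
      exact le_zero_iff.1 this
    simp only [hF0, ne_eq, OfNat.ofNat_ne_zero, not_false_eq_true, zero_pow, lintegral_zero]
    exact zero_le
  -- level sets
  set L : ℕ → Set V := fun k => U ∩ {x | ‖f x‖ₑ < 2 ^ (k + 1) * Λ} with hL
  have mL : ∀ k, MeasurableSet (L k) := fun k =>
    hU.inter (measurableSet_lt hfm.enorm measurable_const)
  have monoL : Monotone L := by
    intro i j hij x hx
    have hx2 : ‖f x‖ₑ < 2 ^ (i + 1) * Λ := hx.2
    refine ⟨hx.1, ?_⟩
    change ‖f x‖ₑ < 2 ^ (j + 1) * Λ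
    refine lt_of_lt_of_le hx2 ?_
    gcongr
    norm_num
  have unL : ⋃ k, L k = U := by
    ext x
    constructor
    · intro h
      obtain ⟨k, hk⟩ := mem_iUnion.1 h
      exact hk.1
    · intro h
      have h1 : ‖f x‖ₑ / Λ ≠ ∞ := ENNReal.div_ne_top enorm_ne_top hΛ0
      obtain ⟨k, hk⟩ := ENNReal.exists_nat_gt h1
      refine mem_iUnion.2 ⟨k, h, ?_⟩
      change ‖f x‖ₑ < 2 ^ (k + 1) * Λ
      rw [ENNReal.div_lt_iff (Or.inl hΛ0) (Or.inl hΛt)] at hk
      refine lt_of_lt_of_le hk ?_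
      gcongr
      have : k ≤ 2 ^ (k + 1) := (Nat.lt_two_pow_self (n := k + 1)).le.trans' (Nat.le_succ k)
      exact_mod_cast this
  set P : ℕ → Set V := disjointed L with hP
  have mP : ∀ k, MeasurableSet (P k) := MeasurableSet.disjointed mL
  have dP : Pairwise (Function.onFun Disjoint P) := disjoint_disjointed L
  have unP : ⋃ k, P k = U := by rw [hP, iUnion_disjointed, unL]
  have hPL : ∀ k, P k ⊆ L k := fun k => disjointed_le L k
  have hPU : ∀ k, P k ⊆ U := fun k => (hPL k).trans inter_subset_left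
  have hPlow : ∀ k, ∀ x ∈ P (k + 1), 2 ^ (k + 1) * Λ ≤ ‖f x‖ₑ := by
    intro k x hx
    have hs : P (k + 1) = L (k + 1) \ L k := by
      have := Monotone.disjointed_succ monoL (not_isMax k)
      simpa only [Order.succ_eq_add_one] using this
    have h1 : x ∉ L k := by
      rw [hs] at hx
      exact hx.2
    by_contra h2
    exact h1 ⟨hPU (k + 1) hx, not_le.1 h2⟩
  -- sum representation
  have hrep : ∀ l ξ, ‖FU U f l ξ‖ₑ ≤ ∑' k, ‖FU (P k) f l ξ‖ₑ := by
    intro l ξ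
    have hi : IntegrableOn (fun x => f x * ph l x ξ) (⋃ k, P k) := by
      rw [unP]
      refine hfi.mul_bdd (c := 1) ?_ (Filter.Eventually.of_forall fun x => (norm_ph l x ξ).le)
      exact (cont_ph_l l ξ).aestronglyMeasurable
    have h1 := hasSum_integral_iUnion mP dP hi
    rw [unP] at h1
    have h2 : FU U f l ξ = ∑' k, FU (P k) f l ξ := h1.tsum_eq.symm
    rw [h2]
    exact enorm_tsum_le_tsum_enorm
  -- measure of the level sets
  have hPm : ∀ k, volume (P k) ≤ (1 + ω) * (2 ^ (-q)) ^ k := by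
    intro k
    rcases Nat.eq_zero_or_pos k with h | h
    · rw [h, pow_zero, mul_one]
      exact (measure_mono (hPU 0)).trans (hvU.trans le_add_self)
    · obtain ⟨j, rfl⟩ : ∃ j, k = j + 1 := ⟨k - 1, by omega⟩
      have h1 := mul_meas_ge_le_pow_eLpNorm' (μ := volume.restrict U) hqne ENNReal.ofReal_ne_top
        hf.1 (2 ^ (j + 1) * Λ)
      rw [hqR, ← hΛ] at h1
      have h2 : volume (P (j + 1)) ≤ (volume.restrict U) {x | 2 ^ (j + 1) * Λ ≤ ‖f x‖ₑ} := by
        rw [Measure.restrict_apply (measurableSet_le measurable_const hfm.enorm)]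
        exact measure_mono fun x hx => ⟨hPlow j x hx, hPU _ hx⟩
      have h3 : (2 ^ (j + 1) * Λ) ^ q * volume (P (j + 1)) ≤ Λ ^ q :=
        (mul_le_mul' le_rfl h2).trans h1
      rw [ENNReal.mul_rpow_of_nonneg _ _ hq0.le] at h3
      have hΛq0 : Λ ^ q ≠ 0 := by
        rw [Ne, ENNReal.rpow_eq_zero_iff]
        rintro (⟨h, _⟩ | ⟨h, _⟩)
        · exact hΛ0 h
        · exact hΛt h
      have hΛqt : Λ ^ q ≠ ∞ := ENNReal.rpow_ne_top_of_nonneg hq0.le hΛt
      have h4 : ((2 : ℝ≥0∞) ^ (j + 1)) ^ q * volume (P (j + 1)) ≤ 1 := by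
        have : Λ ^ q * (((2 : ℝ≥0∞) ^ (j + 1)) ^ q * volume (P (j + 1))) ≤ Λ ^ q * 1 := by
          calc _ = (2 ^ (j + 1)) ^ q * Λ ^ q * volume (P (j + 1)) := by ring
            _ ≤ Λ ^ q * 1 := by rw [mul_one]; exact h3
        rwa [ENNReal.mul_le_mul_iff_right hΛq0 hΛqt] at this
      have e1 : ((2 : ℝ≥0∞) ^ (j + 1)) ^ q = (2 ^ q) ^ (j + 1) := by
        rw [← ENNReal.rpow_natCast, ← ENNReal.rpow_mul, mul_comm, ENNReal.rpow_mul,
          ENNReal.rpow_natCast]
      have h20 : (2 : ℝ≥0∞) ^ q ≠ 0 := by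
        rw [Ne, ENNReal.rpow_eq_zero_iff]; norm_num
      have h2t : (2 : ℝ≥0∞) ^ q ≠ ∞ := ENNReal.rpow_ne_top_of_nonneg hq0.le (by norm_num)
      have e2 : ((2 : ℝ≥0∞) ^ (-q)) ^ (j + 1) * (2 ^ q) ^ (j + 1) = 1 := by
        rw [← mul_pow, ← ENNReal.rpow_add _ _ (by norm_num) (by norm_num), neg_add_cancel,
          ENNReal.rpow_zero, one_pow]
      calc volume (P (j + 1)) = ((2 : ℝ≥0∞) ^ (-q)) ^ (j + 1) * (2 ^ q) ^ (j + 1) *
            volume (P (j + 1)) := by rw [e2, one_mul]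
        _ = ((2 : ℝ≥0∞) ^ (-q)) ^ (j + 1) * (((2 : ℝ≥0∞) ^ (j + 1)) ^ q * volume (P (j + 1))) := by
            rw [e1]; ring
        _ ≤ ((2 : ℝ≥0∞) ^ (-q)) ^ (j + 1) * 1 := by gcongr
        _ = 1 * ((2 : ℝ≥0∞) ^ (-q)) ^ (j + 1) := by ring
        _ ≤ _ := by
            gcongr
            exact le_self_add
  -- the bound on each piece
  set D := ENNReal.ofReal C * 4 * (1 + ω) ^ (1 - α0) * Λ ^ 2 * vb T c r ^ α0 with hD
  have hpiece : ∀ k, ∫⁻ l in T, ∫⁻ ξ in Metric.ball (c l) (r l), ‖FU (P k) f l ξ‖ₑ ^ 2 ≤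
      D * w k ^ 2 := by
    intro k
    have hb : ∀ᵐ x ∂(volume.restrict (P k)), ‖f x‖ₑ ≤ 2 ^ (k + 1) * Λ := by
      filter_upwards [ae_restrict_mem (mP k)] with x hx
      exact (hPL k hx).2.le
    have hinf : eLpNorm f ∞ (volume.restrict (P k)) ≤ 2 ^ (k + 1) * Λ := by
      rw [eLpNorm_exponent_top]
      exact eLpNormEssSup_le_of_ae_enorm_bound hb
    have hbt : (2 : ℝ≥0∞) ^ (k + 1) * Λ ≠ ∞ :=
      ENNReal.mul_ne_top (ENNReal.pow_ne_top (by norm_num)) hΛt
    have hmem : MemLp f ∞ (volume.restrict (P k)) :=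
      ⟨hfm.aestronglyMeasurable, lt_of_le_of_lt hinf hbt.lt_top⟩
    have hL2 : eLpNorm f 2 (volume.restrict (P k)) ≤
        (2 ^ (k + 1) * Λ) * volume (P k) ^ (1 / 2 : ℝ) := by
      have := eLpNorm_le_of_ae_enorm_bound (p := 2) hb
      rw [smul_eq_mul, Measure.restrict_apply_univ] at this
      simpa using this
    refine (HC (P k) (mP k) ((hPU k).trans hUρ) f hmem T c r hT hc hr).trans ?_
    have e1 : (1 : ℝ) - α0 ≥ 0 := by linarith
    calc ENNReal.ofReal C * vb T c r ^ α0 * eLpNorm f ∞ (volume.restrict (P k)) ^ (2 * α0) *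
          eLpNorm f 2 (volume.restrict (P k)) ^ (2 * (1 - α0))
        ≤ ENNReal.ofReal C * vb T c r ^ α0 * (2 ^ (k + 1) * Λ) ^ (2 * α0) *
          ((2 ^ (k + 1) * Λ) * volume (P k) ^ (1 / 2 : ℝ)) ^ (2 * (1 - α0)) := by
          gcongr
      _ = ENNReal.ofReal C * vb T c r ^ α0 * (2 ^ (k + 1) * Λ) ^ 2 *
          volume (P k) ^ (1 - α0) := by
          rw [ENNReal.mul_rpow_of_nonneg _ (volume (P k) ^ (1 / 2 : ℝ)) (by linarith),
            ← ENNReal.rpow_mul (volume (P k))]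
          have e2 : (1 / 2 : ℝ) * (2 * (1 - α0)) = 1 - α0 := by ring
          rw [e2]
          have e3 : (2 ^ (k + 1) * Λ) ^ (2 * α0) * (2 ^ (k + 1) * Λ) ^ (2 * (1 - α0)) =
              (2 ^ (k + 1) * Λ) ^ 2 := by
            rw [← ENNReal.rpow_add_of_nonneg _ _ (by linarith) (by linarith)]
            have : 2 * α0 + 2 * (1 - α0) = ((2 : ℕ) : ℝ) := by push_cast; ring
            rw [this, ENNReal.rpow_natCast]
          rw [← e3]
          ring
      _ ≤ ENNReal.ofReal C * vb T c r ^ α0 * (2 ^ (k + 1) * Λ) ^ 2 *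
          ((1 + ω) * (2 ^ (-q)) ^ k) ^ (1 - α0) := by
          gcongr
          exact hPm k
      _ = D * (((2 : ℝ≥0∞) ^ k) ^ 2 * ((2 ^ (-q)) ^ k) ^ (1 - α0)) := by
          rw [ENNReal.mul_rpow_of_nonneg _ _ e1, hD]
          ring
      _ = D * w k ^ 2 := by
          congr 1
          rw [hw]
          simp only
          rw [ht]
          rw [← ENNReal.rpow_natCast (2 : ℝ≥0∞) k, ← ENNReal.rpow_natCast (2 ^ ((k : ℕ) : ℝ)) 2,
            ← ENNReal.rpow_natCast ((2 : ℝ≥0∞) ^ (-q)) k,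
            ← ENNReal.rpow_natCast ((2 : ℝ≥0∞) ^ (-δ)) k,
            ← ENNReal.rpow_natCast (((2 : ℝ≥0∞) ^ (-δ)) ^ (k : ℝ)) 2,
            ← ENNReal.rpow_mul, ← ENNReal.rpow_mul, ← ENNReal.rpow_mul, ← ENNReal.rpow_mul,
            ← ENNReal.rpow_mul, ← ENNReal.rpow_add _ _ (by norm_num) (by norm_num)]
          congr 1
          rw [hδ]
          push_cast
          ring
  -- measurability of the pieces
  have hmeasP : ∀ k, Measurable (fun z : ℝ × V => ‖FU (P k) f z.1 z.2‖ₑ ^ 2) := by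
    intro k
    have hi : Integrable f (volume.restrict (P k)) := hfi.mono_measure
      (Measure.restrict_mono (hPU k) le_rfl)
    exact ((FU_meas (mP k) hi).measurable.enorm).pow_const 2
  have hmeasI : ∀ k, Measurable (fun l => ∫⁻ ξ in Metric.ball (c l) (r l),
      ‖FU (P k) f l ξ‖ₑ ^ 2) := by
    intro k
    have h1 : ∀ l, ∫⁻ ξ in Metric.ball (c l) (r l), ‖FU (P k) f l ξ‖ₑ ^ 2 =
        ∫⁻ ξ, indicator {z : ℝ × V | dist z.2 (c z.1) < r z.1}
          (fun z => ‖FU (P k) f z.1 z.2‖ₑ ^ 2) (l, ξ) := by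
      intro l
      rw [← lintegral_indicator Metric.isOpen_ball.measurableSet]
      refine lintegral_congr fun ξ => ?_
      by_cases hξ : ξ ∈ Metric.ball (c l) (r l)
      · rw [indicator_of_mem hξ, indicator_of_mem
          (show (l, ξ) ∈ {z : ℝ × V | dist z.2 (c z.1) < r z.1} from hξ)]
      · rw [indicator_of_notMem hξ, indicator_of_notMem
          (show (l, ξ) ∉ {z : ℝ × V | dist z.2 (c z.1) < r z.1} from hξ)]
    simp only [h1]
    refine Measurable.lintegral_prod_right' (f := indicator {z : ℝ × V | dist z.2 (c z.1) < r z.1}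
      (fun z => ‖FU (P k) f z.1 z.2‖ₑ ^ 2)) ?_
    exact (hmeasP k).indicator (measurableSet_lt
      (measurable_snd.dist (hc.comp measurable_fst)) (hr.comp measurable_fst))
  have hfin : ∫⁻ l in T, ∫⁻ ξ in Metric.ball (c l) (r l), ‖FU U f l ξ‖ₑ ^ 2 ≤ S * (D * S) := by
    calc _ ≤ ∫⁻ l in T, ∫⁻ ξ in Metric.ball (c l) (r l),
          S * ∑' k, (w k)⁻¹ * ‖FU (P k) f l ξ‖ₑ ^ 2 := by
          refine lintegral_mono fun l => lintegral_mono fun ξ => ?_
          refine le_trans ?_ (cs_tsum w (fun k => ‖FU (P k) f l ξ‖ₑ) hw0 hwt)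
          gcongr
          exact hrep l ξ
      _ = S * ∑' k, (w k)⁻¹ * ∫⁻ l in T, ∫⁻ ξ in Metric.ball (c l) (r l),
          ‖FU (P k) f l ξ‖ₑ ^ 2 := by
          have h1 : ∀ l, ∫⁻ ξ in Metric.ball (c l) (r l),
              S * ∑' k, (w k)⁻¹ * ‖FU (P k) f l ξ‖ₑ ^ 2 =
              S * ∑' k, (w k)⁻¹ * ∫⁻ ξ in Metric.ball (c l) (r l), ‖FU (P k) f l ξ‖ₑ ^ 2 := by
            intro l
            rw [lintegral_const_mul' _ _ hsum, lintegral_tsum]
            · congr 1
              refine tsum_congr fun k => ?_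
              rw [lintegral_const_mul' _ _ (ENNReal.inv_ne_top.2 (hw0 k))]
            · intro k
              exact (((hmeasP k).comp (measurable_prodMk_left (x := l))).const_mul _).aemeasurable
          simp only [h1]
          rw [lintegral_const_mul' _ _ hsum, lintegral_tsum]
          · congr 1
            refine tsum_congr fun k => ?_
            rw [lintegral_const_mul' _ _ (ENNReal.inv_ne_top.2 (hw0 k))]
          · intro k
            exact ((hmeasI k).const_mul _).aemeasurable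
      _ ≤ S * ∑' k, (w k)⁻¹ * (D * w k ^ 2) := by
          refine mul_le_mul' le_rfl (ENNReal.tsum_le_tsum fun k => ?_)
          exact mul_le_mul' le_rfl (hpiece k)
      _ = S * (D * S) := by
          congr 1
          rw [hS, ← ENNReal.tsum_mul_left]
          refine tsum_congr fun k => ?_
          calc (w k)⁻¹ * (D * w k ^ 2) = D * w k * (w k * (w k)⁻¹) := by ring
            _ = D * w k := by rw [ENNReal.mul_inv_cancel (hw0 k) (hwt k), mul_one]
  refine hfin.trans ?_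
  have h5 : vb T c r ^ α0 ≤ vb T c r ^ α :=
    ENNReal.rpow_le_rpow_of_exponent_le hv ha2.le
  calc S * (D * S) = (ENNReal.ofReal C * 4 * (1 + ω) ^ (1 - α0) * S ^ 2) * Λ ^ 2 *
        vb T c r ^ α0 := by rw [hD]; ring
    _ ≤ (ENNReal.ofReal C * 4 * (1 + ω) ^ (1 - α0) * S ^ 2) * Λ ^ 2 * vb T c r ^ α := by gcongr
    _ ≤ _ := by
        gcongr
        exact le_self_add

end Pool.Agent.U571.BS
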