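import Pool.Agent.U571.BS.Sch

set_option autoImplicit false
set_option linter.unusedSectionVars false

namespace Pool.Agent.U571.BS

open MeasureTheory Complex Set
open scoped Real ENNReal

lemma tail_one {p K : ℝ} (hp : 1 < p) (hK : 0 < K) :
    ∫⁻ t, ENNReal.ofReal (Jk p K t) = ENNReal.ofReal (2 / (p - 1) * K) := by
  set h : ℝ → ℝ≥0∞ := (Ioi K).indicator (fun t => ENNReal.ofReal ((K / t) ^ p)) with hh
  have mh : Measurable h :=
    (((measurable_id.const_div K).pow_const p).ennreal_ofReal).indicator measurableSet_Ioi
  have e1 : ∀ t, ENNReal.ofReal (Jk p K t) = h t + h (0 - t) := by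
    intro t
    unfold Jk
    rw [hh]
    by_cases h1 : |t| ≤ K
    · rw [if_pos h1, ENNReal.ofReal_zero, indicator_of_notMem, indicator_of_notMem, add_zero]
      · rw [mem_Ioi, not_lt]; rw [abs_le] at h1; linarith
      · rw [mem_Ioi, not_lt]; rw [abs_le] at h1; linarith
    · rw [if_neg h1]
      rw [not_le, lt_abs] at h1
      rcases h1 with h1 | h1
      · rw [indicator_of_mem (mem_Ioi.2 h1), indicator_of_notMem (by
          rw [mem_Ioi, not_lt]; linarith), add_zero, abs_of_pos (hK.trans h1)]
      · rw [indicator_of_notMem (by rw [mem_Ioi, not_lt]; linarith), indicator_of_mem (by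
          rw [mem_Ioi]; linarith), zero_add, abs_of_neg (by linarith), zero_sub]
  simp only [e1]
  rw [lintegral_add_left mh, lintegral_sub_left_eq_self h 0]
  have e2 : ∫⁻ t, h t = ENNReal.ofReal (K / (p - 1)) := by
    rw [hh, lintegral_indicator measurableSet_Ioi]
    have e3 : ∀ t ∈ Ioi K, (K / t) ^ p = K ^ p * t ^ (-p) := by
      intro t ht
      rw [Real.div_rpow hK.le (hK.trans ht).le, Real.rpow_neg (hK.trans ht).le]
      rfl
    have e4 : ∫⁻ t in Ioi K, ENNReal.ofReal ((K / t) ^ p) =
        ∫⁻ t in Ioi K, ENNReal.ofReal (K ^ p * t ^ (-p)) :=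
      setLIntegral_congr_fun measurableSet_Ioi fun t ht => by rw [e3 t ht]
    rw [e4, ← ofReal_integral_eq_lintegral_ofReal]
    · rw [integral_const_mul, integral_Ioi_rpow_of_lt (by linarith) hK]
      congr 1
      have : K ^ (-p + 1) = K * (K ^ p)⁻¹ := by
        rw [Real.rpow_add hK, Real.rpow_one, Real.rpow_neg hK.le]; ring
      rw [this]
      have h2 : K ^ p ≠ 0 := by positivity
      have h3 : -p + 1 ≠ 0 := by linarith
      have h4 : p - 1 ≠ 0 := by linarith
      field_simp
      ring
    · exact (integrableOn_Ioi_rpow_of_lt (by linarith) hK).const_mul _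
    · filter_upwards [ae_restrict_mem measurableSet_Ioi] with t ht
      have : 0 < t := hK.trans ht
      simp only [Pi.zero_apply]
      positivity
  rw [e2, ← ENNReal.ofReal_add (by have := sub_pos.2 hp; positivity)
    (by have := sub_pos.2 hp; positivity)]
  congr 1
  ring

lemma tail_T {p K : ℝ} (hp : 1 < p) (hK : 0 < K) (T : Set ℝ) (l : ℝ) :
    ∫⁻ m in T, ENNReal.ofReal (Jk p K (l - m)) ≤ ENNReal.ofReal (2 / (p - 1) * K) := by
  refine (lintegral_mono' Measure.restrict_le_self le_rfl).trans (le_of_eq ?_)
  rw [lintegral_sub_left_eq_self (fun t => ENNReal.ofReal (Jk p K t)) l, tail_one hp hK]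

lemma tail_log {p K : ℝ} (hp : 1 ≤ p) (hK : 0 < K) {T : Set ℝ} (hT : volume T ≠ ∞) (l : ℝ) :
    ∫⁻ m in T, ENNReal.ofReal (Jk p K (l - m)) ≤
      ENNReal.ofReal ((1 + 2 * Real.log (1 + (volume T).toReal / K)) * K) := by
  set L := (volume T).toReal with hL
  have hL0 : 0 ≤ L := ENNReal.toReal_nonneg
  set h : ℝ → ℝ≥0∞ := (Ioc K (K + L)).indicator (fun t => ENNReal.ofReal (K / t)) with hh
  have mh : Measurable h :=
    ((measurable_id.const_div K).ennreal_ofReal).indicator measurableSet_Ioc
  have e1 : ∀ t, ENNReal.ofReal (Jk p K t) ≤ h t + h (0 - t) + ENNReal.ofReal (K / (K + L)) := by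
    intro t
    unfold Jk
    by_cases h1 : |t| ≤ K
    · rw [if_pos h1, ENNReal.ofReal_zero]; exact bot_le
    · rw [if_neg h1]
      rw [not_le] at h1
      have ht0 : 0 < |t| := hK.trans h1
      have h2 : (K / |t|) ^ p ≤ K / |t| := by
        have h3 : K / |t| ≤ 1 := by rw [div_le_one ht0]; exact h1.le
        calc (K / |t|) ^ p ≤ (K / |t|) ^ (1 : ℝ) :=
              Real.rpow_le_rpow_of_exponent_ge (by positivity) h3 hp
          _ = _ := Real.rpow_one _
      refine (ENNReal.ofReal_le_ofReal h2).trans ?_
      by_cases h4 : |t| ≤ K + L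
      · refine le_trans ?_ le_self_add
        rw [hh]
        rcases le_total 0 t with h5 | h5
        · rw [abs_of_nonneg h5] at h1 h4 ⊢
          rw [indicator_of_mem (show t ∈ Ioc K (K + L) from ⟨h1, h4⟩)]
          exact le_self_add
        · rw [abs_of_nonpos h5] at h1 h4 ⊢
          rw [indicator_of_mem (show 0 - t ∈ Ioc K (K + L) from
            ⟨by linarith, by linarith⟩), zero_sub]
          exact le_add_self
      · refine le_trans (ENNReal.ofReal_le_ofReal ?_) le_add_self
        exact div_le_div_of_nonneg_left hK.le (by positivity) (not_le.1 h4).le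
  have e5 : ∫⁻ t, h t ≤ ENNReal.ofReal (K * Real.log (1 + L / K)) := by
    rw [hh, lintegral_indicator measurableSet_Ioc, ← ofReal_integral_eq_lintegral_ofReal]
    · rw [← intervalIntegral.integral_of_le (by linarith)]
      have : ∫ t in K..(K + L), K / t = K * Real.log (1 + L / K) := by
        simp only [div_eq_mul_inv K]
        rw [intervalIntegral.integral_const_mul, integral_inv_of_pos hK (by linarith)]
        congr 2
        field_simp
      rw [this]
    · have hc : ContinuousOn (fun t : ℝ => K / t) (Icc K (K + L)) :=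
        continuousOn_const.div continuousOn_id fun t ht => (hK.trans_le ht.1).ne'
      exact (hc.integrableOn_Icc).mono_set Ioc_subset_Icc_self
    · filter_upwards [ae_restrict_mem measurableSet_Ioc] with t ht
      have : 0 < t := hK.trans ht.1
      simp only [Pi.zero_apply]
      positivity
  have hlog : 0 ≤ Real.log (1 + L / K) := Real.log_nonneg (by
    have : 0 ≤ L / K := by positivity
    linarith)
  calc ∫⁻ m in T, ENNReal.ofReal (Jk p K (l - m))
      ≤ ∫⁻ m in T, (h (l - m) + h (0 - (l - m)) + ENNReal.ofReal (K / (K + L))) :=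
        lintegral_mono fun m => e1 (l - m)
    _ = (∫⁻ m in T, (h (l - m) + h (0 - (l - m)))) + ENNReal.ofReal (K / (K + L)) * volume T := by
        rw [lintegral_add_right _ measurable_const, setLIntegral_const]
    _ ≤ (∫⁻ m, (h (l - m) + h (0 - (l - m)))) + ENNReal.ofReal (K / (K + L)) * volume T := by
        gcongr
        exact Measure.restrict_le_self
    _ = ((∫⁻ m, h (l - m)) + ∫⁻ m, h (0 - (l - m))) +
          ENNReal.ofReal (K / (K + L)) * volume T := by
        have mh2 : Measurable fun m => h (l - m) := mh.comp (measurable_const.sub measurable_id)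
        rw [lintegral_add_left mh2]
    _ ≤ (ENNReal.ofReal (K * Real.log (1 + L / K)) + ENNReal.ofReal (K * Real.log (1 + L / K))) +
          ENNReal.ofReal K := by
        refine add_le_add (add_le_add ?_ ?_) ?_
        · rw [lintegral_sub_left_eq_self h l]; exact e5
        · have : ∀ m, h (0 - (l - m)) = h (m - l) := fun m => by congr 1; ring
          simp only [this]
          rw [lintegral_sub_right_eq_self h l]; exact e5
        · rw [← ENNReal.ofReal_toReal hT, ← hL, ← ENNReal.ofReal_mul (by positivity)]
          refine ENNReal.ofReal_le_ofReal ?_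
          rw [div_mul_eq_mul_div, div_le_iff₀ (by positivity)]
          nlinarith
    _ = _ := by
        rw [← ENNReal.ofReal_add (by positivity) (by positivity),
          ← ENNReal.ofReal_add (by positivity) (by positivity)]
        congr 1
        ring

end Pool.Agent.U571.BS
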